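import Pool.Agent.Lib.MP_0c1c75_co.TG.Spec

/-!
MP_0c1c75_co, project TG, module Alg (helper29): the pointwise identity.
-/

set_option autoImplicit false

open MeasureTheory Set Filter Topology
open scoped RealInnerProductSpace

namespace Pool.Agent.Lib.MP_0c1c75_co.TG

private lemma Alg_normsq {n : ℕ} (y : E n) : ‖y‖ ^ 2 = ∑ j, (y j) ^ 2 := by
  rw [EuclideanSpace.norm_sq_eq]
  exact Finset.sum_congr rfl (fun j _ => by rw [Real.norm_eq_abs, sq_abs])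

private lemma Alg_inner {n : ℕ} (y z : E n) : ⟪y, z⟫ = ∑ j, y j * z j := by
  rw [PiLp.inner_apply]
  exact Finset.sum_congr rfl (fun j _ => by simp [mul_comm])

private lemma Alg_coord {n N : ℕ} (w : Fin N → ℝ) (V : Fin N → E n) (j : Fin n) :
    (∑ i, w i • V i) j = ∑ i, w i * V i j := by
  simp

private lemma Alg_s1 {n N : ℕ} (w : Fin N → ℝ) (V : Fin N → E n) :
    ∑ j, (∑ i, w i * V i j) ^ 2 = ‖∑ i, w i • V i‖ ^ 2 := by
  rw [Alg_normsq]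
  exact Finset.sum_congr rfl (fun j _ => by rw [Alg_coord])

private lemma Alg_s2 {n N : ℕ} (w : Fin N → ℝ) (V : Fin N → E n) :
    ∑ j, ∑ i, w i * (V i j) ^ 2 = ∑ i, w i * ‖V i‖ ^ 2 := by
  rw [Finset.sum_comm]
  exact Finset.sum_congr rfl (fun i _ => by rw [Alg_normsq, Finset.mul_sum])

private lemma Alg_s3 {n N : ℕ} (w : Fin N → ℝ) (V : Fin N → E n) (y : E n) :
    ∑ j, y j * (∑ i, w i * V i j) = ∑ i, w i * ⟪y, V i⟫ := by
  have h1 : ∀ j, y j * (∑ i, w i * V i j) = ∑ i, w i * (y j * V i j) := by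
    intro j
    rw [Finset.mul_sum]
    exact Finset.sum_congr rfl (fun i _ => by ring)
  rw [Finset.sum_congr rfl (fun j _ => h1 j), Finset.sum_comm]
  exact Finset.sum_congr rfl (fun i _ => by rw [Alg_inner, Finset.mul_sum])

private lemma Alg_nb {n N : ℕ} (w : Fin N → ℝ) (V : Fin N → E n) :
    ∑ i, ∑ j, w i * w j * ⟪V i, V j⟫ = ‖∑ i, w i • V i‖ ^ 2 := by
  rw [← real_inner_self_eq_norm_sq, sum_inner]
  refine Finset.sum_congr rfl (fun i _ => ?_)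
  rw [inner_sum]
  refine Finset.sum_congr rfl (fun j _ => ?_)
  rw [real_inner_smul_left, real_inner_smul_right]
  ring

private lemma Alg_var {n N : ℕ} (w : Fin N → ℝ) (V : Fin N → E n) (hw : ∑ i, w i = 1) :
    ∑ i, ∑ j, w i * w j * ‖V i - V j‖ ^ 2 =
      2 * (∑ i, w i * ‖V i‖ ^ 2) - 2 * ‖∑ i, w i • V i‖ ^ 2 := by
  have h1 : ∀ i j, w i * w j * ‖V i - V j‖ ^ 2 =
      w i * ‖V i‖ ^ 2 * w j + w i * (w j * ‖V j‖ ^ 2) - 2 * (w i * w j * ⟪V i, V j⟫) := by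
    intro i j
    rw [norm_sub_sq_real]
    ring
  simp only [h1, Finset.sum_sub_distrib, Finset.sum_add_distrib]
  rw [← Alg_nb w V]
  have h2 : ∑ i, ∑ j, w i * ‖V i‖ ^ 2 * w j = ∑ i, w i * ‖V i‖ ^ 2 := by
    refine Finset.sum_congr rfl (fun i _ => ?_)
    rw [← Finset.mul_sum, hw, mul_one]
  have h3 : ∑ i, ∑ j, w i * (w j * ‖V j‖ ^ 2) = ∑ i, w i * ‖V i‖ ^ 2 := by
    have h4 : ∀ i, ∑ j, w i * (w j * ‖V j‖ ^ 2) = w i * ∑ j, w j * ‖V j‖ ^ 2 :=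
      fun i => by rw [Finset.mul_sum]
    rw [Finset.sum_congr rfl (fun i _ => h4 i), ← Finset.sum_mul, hw, one_mul]
  have h5 : ∑ i, ∑ j, 2 * (w i * w j * ⟪V i, V j⟫) = 2 * ∑ i, ∑ j, w i * w j * ⟪V i, V j⟫ := by
    rw [Finset.mul_sum]
    exact Finset.sum_congr rfl (fun i _ => by rw [Finset.mul_sum])
  rw [h2, h3, h5]
  ring

private lemma Alg_DD {M d N : ℕ} (w : Fin N → ℝ) (R : Fin N → E M) (q : Fin N → E d)
    (hw : ∑ i, w i = 1) :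
    ∑ i, ∑ j, w i * w j * ((‖R i - R j‖ ^ 2 - ‖q i - q j‖ ^ 2) / 2) =
      ((∑ i, w i * ‖R i‖ ^ 2) - ‖∑ i, w i • R i‖ ^ 2) -
        ((∑ i, w i * ‖q i‖ ^ 2) - ‖∑ i, w i • q i‖ ^ 2) := by
  have h1 : ∀ i j, w i * w j * ((‖R i - R j‖ ^ 2 - ‖q i - q j‖ ^ 2) / 2) =
      (w i * w j * ‖R i - R j‖ ^ 2) / 2 - (w i * w j * ‖q i - q j‖ ^ 2) / 2 := by
    intro i j
    ring
  simp only [h1, Finset.sum_sub_distrib, ← Finset.sum_div]
  rw [Alg_var w R hw, Alg_var w q hw]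
  ring

private lemma Alg_J1 {M d N : ℕ} (k : ℝ) (R : Fin N → E M) (q : Fin N → E d) (l θ : ℝ)
    (x : E M × E d) (w : Fin N → ℝ) (hwd : w = wt l (lin R q θ x)) (j : Fin d) :
    JJ k R q l θ x ((0 : E M), EuclideanSpace.single j (1 : ℝ)) =
      (4 * θ ^ 4 * dph k (TT R q l θ x)) *
        ((∑ i, w i * q i j) ^ 2 - 2 * (x.2 j * (∑ i, w i * q i j)) + (x.2 j) ^ 2) +
      (-(2 * l * θ ^ 4) * ph k (TT R q l θ x)) *
        ((∑ i, w i * (q i j) ^ 2) - (∑ i, w i * q i j) ^ 2) +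
      (-(2 * θ ^ 2) * ph k (TT R q l θ x)) := by
  have e1 : ∀ V : E d, ⟪EuclideanSpace.single j (1 : ℝ), V⟫ = V j := by
    intro V
    rw [EuclideanSpace.inner_single_left]
    simp
  have e2 : ⟪x.2, EuclideanSpace.single j (1 : ℝ)⟫ = x.2 j := by
    rw [real_inner_comm, e1]
  have e3 : ‖EuclideanSpace.single j (1 : ℝ)‖ = 1 := by simp
  have s1 : ∑ i, w i * (θ ^ 2 * q i j) = θ ^ 2 * ∑ i, w i * q i j := by
    rw [Finset.mul_sum]
    exact Finset.sum_congr rfl (fun i _ => by ring)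
  have s2 : ∑ i, w i * (θ ^ 2 * q i j) ^ 2 = θ ^ 4 * ∑ i, w i * (q i j) ^ 2 := by
    rw [Finset.mul_sum]
    exact Finset.sum_congr rfl (fun i _ => by ring)
  unfold JJ T1 T2
  rw [← hwd]
  simp only [inner_zero_left, inner_zero_right, mul_zero, zero_add, zero_mul, sub_zero, e1, e2, e3,
    s1, s2]
  ring

private lemma Alg_J2 {M d N : ℕ} (k : ℝ) (R : Fin N → E M) (q : Fin N → E d) (l θ : ℝ)
    (x : E M × E d) (w : Fin N → ℝ) (hwd : w = wt l (lin R q θ x)) (j : Fin M) :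
    JJ k R q l θ x (EuclideanSpace.single j (1 : ℝ), (0 : E d)) =
      (4 * θ ^ 2 * dph k (TT R q l θ x)) * (∑ i, w i * R i j) ^ 2 +
      (-(2 * l * θ ^ 2) * ph k (TT R q l θ x)) *
        ((∑ i, w i * (R i j) ^ 2) - (∑ i, w i * R i j) ^ 2) +
      (-(2 * θ) * ph k (TT R q l θ x)) * (x.1 j * (∑ i, w i * R i j)) := by
  have e1 : ∀ V : E M, ⟪EuclideanSpace.single j (1 : ℝ), V⟫ = V j := by
    intro V
    rw [EuclideanSpace.inner_single_left]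
    simp
  have e2 : ⟪x.1, EuclideanSpace.single j (1 : ℝ)⟫ = x.1 j := by
    rw [real_inner_comm, e1]
  have s1 : ∑ i, w i * (θ * R i j) = θ * ∑ i, w i * R i j := by
    rw [Finset.mul_sum]
    exact Finset.sum_congr rfl (fun i _ => by ring)
  have s2 : ∑ i, w i * (θ * R i j) ^ 2 = θ ^ 2 * ∑ i, w i * (R i j) ^ 2 := by
    rw [Finset.mul_sum]
    exact Finset.sum_congr rfl (fun i _ => by ring)
  unfold JJ T1 T2
  rw [← hwd]
  simp only [inner_zero_left, inner_zero_right, mul_zero, add_zero, norm_zero, sub_zero, e1, e2,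
    s1, s2]
  ring

theorem tAlg (hFunA : FunAStmt) (hSoftA : SoftAStmt) : AlgStmt := by
  intro M d N R q k l θ x hkd hk hN hl hθ
  obtain ⟨_, _, hsum, _⟩ := hSoftA N l (lin R q θ x) hN hl
  obtain ⟨_, _, _, _, _, _, _, hphi⟩ := hFunA k hk
  have hT := hphi (TT R q l θ x)
  obtain ⟨w, hw⟩ : ∃ w : Fin N → ℝ, w = wt l (lin R q θ x) := ⟨_, rfl⟩
  rw [← hw] at hsum
  have hJ1 : ∑ j : Fin d, JJ k R q l θ x ((0 : E M), EuclideanSpace.single j (1 : ℝ)) =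
      (4 * θ ^ 4 * dph k (TT R q l θ x)) *
        (‖∑ i, w i • q i‖ ^ 2 - 2 * (∑ i, w i * ⟪x.2, q i⟫) + ‖x.2‖ ^ 2) +
      (-(2 * l * θ ^ 4) * ph k (TT R q l θ x)) *
        ((∑ i, w i * ‖q i‖ ^ 2) - ‖∑ i, w i • q i‖ ^ 2) +
      d * (-(2 * θ ^ 2) * ph k (TT R q l θ x)) := by
    rw [Finset.sum_congr rfl (fun j _ => Alg_J1 k R q l θ x w hw j)]
    rw [← Alg_s1 w q, ← Alg_s2 w q, ← Alg_s3 w q x.2, Alg_normsq x.2]
    rw [Finset.sum_add_distrib, Finset.sum_add_distrib, ← Finset.mul_sum, ← Finset.mul_sum,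
      Finset.sum_add_distrib, Finset.sum_sub_distrib, Finset.sum_sub_distrib, ← Finset.mul_sum,
      Finset.sum_const, Finset.card_univ, Fintype.card_fin, nsmul_eq_mul]
  have hJ2 : ∑ j : Fin M, JJ k R q l θ x (EuclideanSpace.single j (1 : ℝ), (0 : E d)) =
      (4 * θ ^ 2 * dph k (TT R q l θ x)) * ‖∑ i, w i • R i‖ ^ 2 +
      (-(2 * l * θ ^ 2) * ph k (TT R q l θ x)) *
        ((∑ i, w i * ‖R i‖ ^ 2) - ‖∑ i, w i • R i‖ ^ 2) +
      (-(2 * θ) * ph k (TT R q l θ x)) * (∑ i, w i * ⟪x.1, R i⟫) := by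
    rw [Finset.sum_congr rfl (fun j _ => Alg_J2 k R q l θ x w hw j)]
    rw [← Alg_s1 w R, ← Alg_s2 w R, ← Alg_s3 w R x.1]
    rw [Finset.sum_add_distrib, Finset.sum_add_distrib, ← Finset.mul_sum, ← Finset.mul_sum,
      ← Finset.mul_sum, Finset.sum_sub_distrib]
  have hlin : ∑ i, w i * lin R q θ x i = θ * (∑ i, w i * ⟪x.1, R i⟫) +
      θ ^ 2 * ((∑ i, w i * ⟪x.2, q i⟫) +
        ((∑ i, w i * ‖R i‖ ^ 2) - (∑ i, w i * ‖q i‖ ^ 2)) / 2) := by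
    rw [← Finset.sum_sub_distrib, Finset.sum_div, ← Finset.sum_add_distrib, Finset.mul_sum,
      Finset.mul_sum, ← Finset.sum_add_distrib]
    refine Finset.sum_congr rfl (fun i _ => ?_)
    unfold lin
    ring
  have hTth : Tth R q l θ x = 2 * ((∑ i, w i * ⟪x.1, R i⟫) +
      2 * θ * ((∑ i, w i * ⟪x.2, q i⟫) +
        ((∑ i, w i * ‖R i‖ ^ 2) - (∑ i, w i * ‖q i‖ ^ 2)) / 2)) - 2 * θ * ‖x.2‖ ^ 2 := by
    unfold Tth
    rw [← hw, ← Finset.sum_sub_distrib, Finset.sum_div, ← Finset.sum_add_distrib,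
      Finset.mul_sum (a := 2 * θ), ← Finset.sum_add_distrib]
    congr 2
    refine Finset.sum_congr rfl (fun i _ => ?_)
    ring
  have hDD : DD R q l θ x = θ ^ 2 * (((∑ i, w i * ‖R i‖ ^ 2) - ‖∑ i, w i • R i‖ ^ 2) -
        ((∑ i, w i * ‖q i‖ ^ 2) - ‖∑ i, w i • q i‖ ^ 2)) := by
    unfold DD
    rw [← hw, Alg_DD w R q hsum]
  have hHH : HH R q l θ x = θ * (∑ i, w i * ⟪x.1, R i⟫) +
      θ ^ 2 * ((∑ i, w i * ⟪x.2, q i⟫) +
        ((∑ i, w i * ‖R i‖ ^ 2) - (∑ i, w i * ‖q i‖ ^ 2)) / 2) - smn l (lin R q θ x) := by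
    unfold HH
    rw [← hw, hlin]
  have hTT : TT R q l θ x = 2 * smn l (lin R q θ x) - θ ^ 2 * ‖x.2‖ ^ 2 := rfl
  unfold QQ dhh
  rw [hJ1, hJ2, hTth, hDD, hHH]
  have hd : (d : ℝ) = 2 * k := by rw [hkd]; ring
  rw [hd]
  generalize ph k (TT R q l θ x) = f at *
  generalize dph k (TT R q l θ x) = f1 at *
  generalize smn l (lin R q θ x) = sm at *
  generalize (∑ i, w i * ⟪x.1, R i⟫) = gR at *
  generalize (∑ i, w i * ⟪x.2, q i⟫) = yq at *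
  generalize (∑ i, w i * ‖R i‖ ^ 2) = A at *
  generalize (∑ i, w i * ‖q i‖ ^ 2) = B at *
  generalize ‖∑ i, w i • R i‖ ^ 2 = RR at *
  generalize ‖∑ i, w i • q i‖ ^ 2 = qq at *
  generalize TT R q l θ x = T at *
  subst hTT
  have hθ2 : θ ^ 2 ≠ 0 := by positivity
  have hinv : (θ ^ 2)⁻¹ * θ ^ 4 = θ ^ 2 := by
    field_simp
  have hinv2 : (θ ^ 2)⁻¹ * θ ^ 2 = 1 := inv_mul_cancel₀ hθ2
  linear_combination (2 : ℝ) * hT + (4 * f1 * (qq - 2 * yq + ‖x.2‖ ^ 2) - 2 * l * f * (B - qq)) * hinv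
    + (-(2 * k * 2 * f)) * hinv2

end Pool.Agent.Lib.MP_0c1c75_co.TG
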