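import Pool.Agent.Lib.MP_0c1c75_co.TG.Spec

/-!
MP_0c1c75_co, project TG, module Bnd (helper57): bounds for `TT`, `TH`, `Tth`, `DD`, `T1`, `T2`.
-/

set_option autoImplicit false

open MeasureTheory Set Filter Topology
open scoped RealInnerProductSpace

namespace Pool.Agent.Lib.MP_0c1c75_co.TG

private lemma Bnd_avg {N : ℕ} (w f : Fin N → ℝ) (B : ℝ) (hw : ∀ i, 0 ≤ w i) (hs : ∑ i, w i = 1)
    (hf : ∀ i, |f i| ≤ B) : |∑ i, w i * f i| ≤ B := by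
  calc |∑ i, w i * f i| ≤ ∑ i, |w i * f i| := Finset.abs_sum_le_sum_abs _ _
    _ ≤ ∑ i, w i * B := by
        refine Finset.sum_le_sum fun i _ => ?_
        rw [abs_mul, abs_of_nonneg (hw i)]
        exact mul_le_mul_of_nonneg_left (hf i) (hw i)
    _ = B := by rw [← Finset.sum_mul, hs, one_mul]

private lemma Bnd_in {n : ℕ} (u v : E n) {a b : ℝ} (hu : ‖u‖ ≤ a) (hv : ‖v‖ ≤ b) :
    |⟪u, v⟫| ≤ a * b :=
  (abs_real_inner_le_norm u v).trans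
    (mul_le_mul hu hv (norm_nonneg v) ((norm_nonneg u).trans hu))

private lemma Bnd_exp {M d : ℕ} {A C c t : ℝ} (x : E M × E d)
    (h : t ≤ A * ‖x.1‖ + A * ‖x.2‖ + C - c * ‖x.2‖ ^ 2) :
    rho x * Real.exp t ≤ Real.exp C * maj A c x := by
  unfold rho maj
  rw [← Real.exp_add, ← Real.exp_add, ← Real.exp_add]
  refine Real.exp_le_exp.2 ?_
  linarith

/-- Uses: SoftAStmt. -/
theorem tBnd (hA : SoftAStmt) : BndStmt := by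
  intro M d N R q θ1 θ2 hN h1 h12
  have h2 : 0 < θ2 := lt_of_lt_of_le h1 h12
  obtain ⟨K, hK1, hKR, hKq, hKR2, hKq2⟩ : ∃ K : ℝ, 1 ≤ K ∧ (∀ i, ‖R i‖ ≤ K) ∧ (∀ i, ‖q i‖ ≤ K) ∧
      (∀ i, ‖R i‖ ^ 2 ≤ K) ∧ (∀ i, ‖q i‖ ^ 2 ≤ K) := by
    have h0 : ∀ i, 0 ≤ ‖R i‖ + ‖q i‖ + ‖R i‖ ^ 2 + ‖q i‖ ^ 2 := fun i => by positivity
    have hi : ∀ i, ‖R i‖ + ‖q i‖ + ‖R i‖ ^ 2 + ‖q i‖ ^ 2 ≤
        ∑ i, (‖R i‖ + ‖q i‖ + ‖R i‖ ^ 2 + ‖q i‖ ^ 2) := fun i =>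
      Finset.single_le_sum (f := fun i => ‖R i‖ + ‖q i‖ + ‖R i‖ ^ 2 + ‖q i‖ ^ 2)
        (fun j _ => h0 j) (Finset.mem_univ i)
    have hs : 0 ≤ ∑ i, (‖R i‖ + ‖q i‖ + ‖R i‖ ^ 2 + ‖q i‖ ^ 2) :=
      Finset.sum_nonneg fun i _ => h0 i
    have k1 : ∀ i, 0 ≤ ‖R i‖ := fun i => norm_nonneg _
    have k2 : ∀ i, 0 ≤ ‖q i‖ := fun i => norm_nonneg _
    have k3 : ∀ i, 0 ≤ ‖R i‖ ^ 2 := fun i => by positivity
    have k4 : ∀ i, 0 ≤ ‖q i‖ ^ 2 := fun i => by positivity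
    refine ⟨1 + ∑ i, (‖R i‖ + ‖q i‖ + ‖R i‖ ^ 2 + ‖q i‖ ^ 2), by linarith, fun i => ?_, fun i => ?_,
      fun i => ?_, fun i => ?_⟩ <;>
    · have := hi i
      have := k1 i
      have := k2 i
      have := k3 i
      have := k4 i
      linarith
  have hK0 : 0 < K := by linarith
  refine ⟨2 * (θ2 + θ2 ^ 2) * K, Real.exp (2 * θ2 ^ 2 * K) + (2 * K + 4 * θ2 * K + 2 * θ2) +
    2 * (θ2 ^ 2 * K ^ 2) + (2 * (θ2 + θ2 ^ 2) * K + 2 * θ2 ^ 2) +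
    (4 * ((θ2 + θ2 ^ 2) * K) ^ 2 + 2 * θ2 ^ 2), by positivity, by positivity, ?_⟩
  intro l θ x hl hθ1 hθ2
  have hθ : 0 < θ := lt_of_lt_of_le h1 hθ1
  have hθs : θ ^ 2 ≤ θ2 ^ 2 := pow_le_pow_left₀ hθ.le hθ2 2
  have hθs1 : θ1 ^ 2 ≤ θ ^ 2 := pow_le_pow_left₀ h1.le hθ1 2
  have hx1 : 0 ≤ ‖x.1‖ := norm_nonneg _
  have hx2 : 0 ≤ ‖x.2‖ := norm_nonneg _
  have e0 : 0 ≤ Real.exp (2 * θ2 ^ 2 * K) := (Real.exp_pos _).le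
  have e1 : 0 ≤ 2 * K + 4 * θ2 * K + 2 * θ2 := by positivity
  have e2 : 0 ≤ 2 * (θ2 ^ 2 * K ^ 2) := by positivity
  have e3 : 0 ≤ 2 * (θ2 + θ2 ^ 2) * K + 2 * θ2 ^ 2 := by positivity
  have e4 : 0 ≤ 4 * ((θ2 + θ2 ^ 2) * K) ^ 2 + 2 * θ2 ^ 2 := by positivity
  obtain ⟨hw0, -, hw1, hsm, -, -, -, -⟩ := hA N l (lin R q θ x) hN hl
  -- the linear forms
  have hin1 : ∀ i, |⟪x.1, R i⟫| ≤ ‖x.1‖ * K := fun i => Bnd_in _ _ le_rfl (hKR i)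
  have hin2 : ∀ i, |⟪x.2, q i⟫| ≤ ‖x.2‖ * K := fun i => Bnd_in _ _ le_rfl (hKq i)
  have hb : ∀ i, |(‖R i‖ ^ 2 - ‖q i‖ ^ 2) / 2| ≤ K := by
    intro i
    have a1 := hKR2 i
    have a2 := hKq2 i
    have a3 : 0 ≤ ‖R i‖ ^ 2 := by positivity
    have a4 : 0 ≤ ‖q i‖ ^ 2 := by positivity
    rw [abs_le]
    constructor <;> linarith
  have hlin : ∀ i, 2 * lin R q θ x i ≤
      2 * (θ2 + θ2 ^ 2) * K * ‖x.1‖ + 2 * (θ2 + θ2 ^ 2) * K * ‖x.2‖ + 2 * θ2 ^ 2 * K := by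
    intro i
    unfold lin
    have a1 : θ * ⟪x.1, R i⟫ ≤ θ2 * (‖x.1‖ * K) :=
      mul_le_mul hθ2 ((le_abs_self _).trans (hin1 i)) |> fun h => by
        have b1 : θ * ⟪x.1, R i⟫ ≤ θ * (‖x.1‖ * K) :=
          mul_le_mul_of_nonneg_left ((le_abs_self _).trans (hin1 i)) hθ.le
        have b2 : θ * (‖x.1‖ * K) ≤ θ2 * (‖x.1‖ * K) :=
          mul_le_mul_of_nonneg_right hθ2 (by positivity)
        exact b1.trans b2
    have a2 : ⟪x.2, q i⟫ + (‖R i‖ ^ 2 - ‖q i‖ ^ 2) / 2 ≤ ‖x.2‖ * K + K :=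
      add_le_add ((le_abs_self _).trans (hin2 i)) ((le_abs_self _).trans (hb i))
    have a3 : θ ^ 2 * (⟪x.2, q i⟫ + (‖R i‖ ^ 2 - ‖q i‖ ^ 2) / 2) ≤ θ2 ^ 2 * (‖x.2‖ * K + K) :=
      (mul_le_mul_of_nonneg_left a2 (by positivity)).trans
        (mul_le_mul_of_nonneg_right hθs (by positivity))
    have a4 : 0 ≤ θ2 ^ 2 * K * ‖x.1‖ := by positivity
    have a5 : 0 ≤ θ2 * K * ‖x.2‖ := by positivity
    linarith
  have hquad : θ1 ^ 2 * ‖x.2‖ ^ 2 ≤ θ ^ 2 * ‖x.2‖ ^ 2 :=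
    mul_le_mul_of_nonneg_right hθs1 (by positivity)
  have hmaj : 0 ≤ maj (2 * (θ2 + θ2 ^ 2) * K) (θ1 ^ 2) x := by
    unfold maj
    positivity
  have hCexp : Real.exp (2 * θ2 ^ 2 * K) ≤ Real.exp (2 * θ2 ^ 2 * K) +
      (2 * K + 4 * θ2 * K + 2 * θ2) + 2 * (θ2 ^ 2 * K ^ 2) +
      (2 * (θ2 + θ2 ^ 2) * K + 2 * θ2 ^ 2) + (4 * ((θ2 + θ2 ^ 2) * K) ^ 2 + 2 * θ2 ^ 2) := by
    linarith
  refine ⟨?_, ?_, ?_, ?_, ?_, ?_⟩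
  · have a1 : TT R q l θ x ≤ 2 * (θ2 + θ2 ^ 2) * K * ‖x.1‖ + 2 * (θ2 + θ2 ^ 2) * K * ‖x.2‖ +
        2 * θ2 ^ 2 * K - θ1 ^ 2 * ‖x.2‖ ^ 2 := by
      unfold TT
      have b1 := hsm ⟨0, hN⟩
      have b2 := hlin ⟨0, hN⟩
      linarith
    exact (Bnd_exp x a1).trans (mul_le_mul_of_nonneg_right hCexp hmaj)
  · have a1 : TH R q θ x ≤ 2 * (θ2 + θ2 ^ 2) * K * ‖x.1‖ + 2 * (θ2 + θ2 ^ 2) * K * ‖x.2‖ +
        2 * θ2 ^ 2 * K - θ1 ^ 2 * ‖x.2‖ ^ 2 := by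
      unfold TH
      have b1 : (⨅ i, lin R q θ x i) ≤ lin R q θ x ⟨0, hN⟩ :=
        ciInf_le (Set.finite_range _).bddBelow _
      have b2 := hlin ⟨0, hN⟩
      linarith
    exact (Bnd_exp x a1).trans (mul_le_mul_of_nonneg_right hCexp hmaj)
  · -- Tth
    have a1 : |∑ i, wt l (lin R q θ x) i *
        (⟪x.1, R i⟫ + 2 * θ * (⟪x.2, q i⟫ + (‖R i‖ ^ 2 - ‖q i‖ ^ 2) / 2))| ≤
        ‖x.1‖ * K + 2 * θ2 * (‖x.2‖ * K + K) := by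
      refine Bnd_avg _ _ _ hw0 hw1 fun i => ?_
      refine (abs_add_le _ _).trans (add_le_add (hin1 i) ?_)
      rw [abs_mul, abs_of_nonneg (show (0 : ℝ) ≤ 2 * θ by positivity)]
      refine mul_le_mul (by linarith) ((abs_add_le _ _).trans (add_le_add (hin2 i) (hb i)))
        (abs_nonneg _) (by positivity)
    have a2 : |Tth R q l θ x| ≤ 2 * (‖x.1‖ * K + 2 * θ2 * (‖x.2‖ * K + K)) + 2 * θ2 * ‖x.2‖ ^ 2 := by
      unfold Tth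
      refine (abs_sub _ _).trans (add_le_add ?_ ?_)
      · rw [abs_mul, abs_two]
        linarith
      · rw [abs_of_nonneg (by positivity)]
        exact mul_le_mul_of_nonneg_right (by linarith) (by positivity)
    refine a2.trans ?_
    have hy : 1 + ‖x.1‖ + ‖x.2‖ + ‖x.2‖ ^ 2 ≤ (1 + ‖x.1‖ + ‖x.2‖) ^ 2 := by nlinarith
    have hz : 0 ≤ (1 + ‖x.1‖ + ‖x.2‖) ^ 2 := by positivity
    have a3 : 2 * (‖x.1‖ * K + 2 * θ2 * (‖x.2‖ * K + K)) + 2 * θ2 * ‖x.2‖ ^ 2 ≤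
        (2 * K + 4 * θ2 * K + 2 * θ2) * (1 + ‖x.1‖ + ‖x.2‖ + ‖x.2‖ ^ 2) := by
      have c1 : 0 ≤ 4 * θ2 * K * ‖x.1‖ := by positivity
      have c2 : 0 ≤ 2 * θ2 * ‖x.1‖ := by positivity
      have c3 : 0 ≤ 2 * K * ‖x.2‖ := by positivity
      have c4 : 0 ≤ 2 * θ2 * ‖x.2‖ := by positivity
      have c5 : 0 ≤ 2 * K * ‖x.2‖ ^ 2 := by positivity
      have c6 : 0 ≤ 4 * θ2 * K * ‖x.2‖ ^ 2 := by positivity
      have c7 : 0 ≤ 2 * K + 2 * θ2 := by positivity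
      linarith
    refine a3.trans ((mul_le_mul_of_nonneg_left hy e1).trans
      (mul_le_mul_of_nonneg_right (by linarith) hz))
  · -- DD
    have a1 : |∑ i, ∑ j, wt l (lin R q θ x) i * wt l (lin R q θ x) j *
        ((‖R i - R j‖ ^ 2 - ‖q i - q j‖ ^ 2) / 2)| ≤ 2 * K ^ 2 := by
      have b0 : ∀ i, ∑ j, wt l (lin R q θ x) i * wt l (lin R q θ x) j *
          ((‖R i - R j‖ ^ 2 - ‖q i - q j‖ ^ 2) / 2) = wt l (lin R q θ x) i *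
            ∑ j, wt l (lin R q θ x) j * ((‖R i - R j‖ ^ 2 - ‖q i - q j‖ ^ 2) / 2) := by
        intro i
        rw [Finset.mul_sum]
        refine Finset.sum_congr rfl fun j _ => ?_
        ring
      rw [Finset.sum_congr rfl fun i _ => b0 i]
      refine Bnd_avg _ _ _ hw0 hw1 fun i => Bnd_avg _ _ _ hw0 hw1 fun j => ?_
      have b1 : ‖R i - R j‖ ^ 2 ≤ 4 * K ^ 2 := by
        have c1 : ‖R i - R j‖ ≤ 2 * K := (norm_sub_le _ _).trans (by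
          have := hKR i
          have := hKR j
          linarith)
        have c2 := pow_le_pow_left₀ (norm_nonneg (R i - R j)) c1 2
        linarith
      have b2 : ‖q i - q j‖ ^ 2 ≤ 4 * K ^ 2 := by
        have c1 : ‖q i - q j‖ ≤ 2 * K := (norm_sub_le _ _).trans (by
          have := hKq i
          have := hKq j
          linarith)
        have c2 := pow_le_pow_left₀ (norm_nonneg (q i - q j)) c1 2
        linarith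
      have b3 : 0 ≤ ‖R i - R j‖ ^ 2 := by positivity
      have b4 : 0 ≤ ‖q i - q j‖ ^ 2 := by positivity
      rw [abs_le]
      constructor <;> linarith
    have a2 : |DD R q l θ x| ≤ 2 * (θ2 ^ 2 * K ^ 2) := by
      unfold DD
      rw [abs_mul, abs_of_nonneg (show (0 : ℝ) ≤ θ ^ 2 by positivity)]
      calc θ ^ 2 * |∑ i, ∑ j, wt l (lin R q θ x) i * wt l (lin R q θ x) j *
            ((‖R i - R j‖ ^ 2 - ‖q i - q j‖ ^ 2) / 2)| ≤ θ2 ^ 2 * (2 * K ^ 2) :=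
            mul_le_mul hθs a1 (abs_nonneg _) (by positivity)
        _ = 2 * (θ2 ^ 2 * K ^ 2) := by ring
    linarith
  · -- T1
    intro v
    have hv1 : ‖v.1‖ ≤ ‖v‖ := norm_fst_le v
    have hv2 : ‖v.2‖ ≤ ‖v‖ := norm_snd_le v
    have hv0 : 0 ≤ ‖v‖ := norm_nonneg v
    have a1 : |∑ i, wt l (lin R q θ x) i * (θ * ⟪v.1, R i⟫ + θ ^ 2 * ⟪v.2, q i⟫)| ≤
        (θ2 + θ2 ^ 2) * K * ‖v‖ := by
      refine Bnd_avg _ _ _ hw0 hw1 fun i => ?_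
      refine (abs_add_le _ _).trans ?_
      rw [abs_mul, abs_mul, abs_of_nonneg hθ.le, abs_of_nonneg (show (0 : ℝ) ≤ θ ^ 2 by positivity)]
      have b1 : θ * |⟪v.1, R i⟫| ≤ θ2 * (‖v‖ * K) :=
        mul_le_mul hθ2 (Bnd_in _ _ hv1 (hKR i)) (abs_nonneg _) h2.le
      have b2 : θ ^ 2 * |⟪v.2, q i⟫| ≤ θ2 ^ 2 * (‖v‖ * K) :=
        mul_le_mul hθs (Bnd_in _ _ hv2 (hKq i)) (abs_nonneg _) (by positivity)
      linarith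
    have a2 : |T1 R q l θ x v| ≤ 2 * ((θ2 + θ2 ^ 2) * K * ‖v‖) + 2 * θ2 ^ 2 * (‖x.2‖ * ‖v‖) := by
      unfold T1
      refine (abs_sub _ _).trans (add_le_add ?_ ?_)
      · rw [abs_mul, abs_two]
        linarith
      · rw [abs_mul, abs_of_nonneg (show (0 : ℝ) ≤ 2 * θ ^ 2 by positivity)]
        exact mul_le_mul (by linarith) (Bnd_in _ _ le_rfl hv2) (abs_nonneg _) (by positivity)
    refine a2.trans ?_
    have a3 : 2 * ((θ2 + θ2 ^ 2) * K * ‖v‖) + 2 * θ2 ^ 2 * (‖x.2‖ * ‖v‖) ≤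
        (2 * (θ2 + θ2 ^ 2) * K + 2 * θ2 ^ 2) * ‖v‖ * (1 + ‖x.1‖ + ‖x.2‖) := by
      have c1 : 0 ≤ (2 * (θ2 + θ2 ^ 2) * K + 2 * θ2 ^ 2) * ‖v‖ * ‖x.1‖ := by positivity
      have c2 : 0 ≤ 2 * (θ2 + θ2 ^ 2) * K * ‖v‖ * ‖x.2‖ := by positivity
      have c3 : 0 ≤ 2 * θ2 ^ 2 * ‖v‖ := by positivity
      nlinarith
    refine a3.trans ?_
    refine mul_le_mul_of_nonneg_right ?_ (by positivity)
    exact mul_le_mul_of_nonneg_right (by linarith) hv0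
  · -- T2
    intro v
    have hv1 : ‖v.1‖ ≤ ‖v‖ := norm_fst_le v
    have hv2 : ‖v.2‖ ≤ ‖v‖ := norm_snd_le v
    have hv0 : 0 ≤ ‖v‖ := norm_nonneg v
    have a0 : ∀ i, |θ * ⟪v.1, R i⟫ + θ ^ 2 * ⟪v.2, q i⟫| ≤ (θ2 + θ2 ^ 2) * K * ‖v‖ := by
      intro i
      refine (abs_add_le _ _).trans ?_
      rw [abs_mul, abs_mul, abs_of_nonneg hθ.le, abs_of_nonneg (show (0 : ℝ) ≤ θ ^ 2 by positivity)]
      have b1 : θ * |⟪v.1, R i⟫| ≤ θ2 * (‖v‖ * K) :=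
        mul_le_mul hθ2 (Bnd_in _ _ hv1 (hKR i)) (abs_nonneg _) h2.le
      have b2 : θ ^ 2 * |⟪v.2, q i⟫| ≤ θ2 ^ 2 * (‖v‖ * K) :=
        mul_le_mul hθs (Bnd_in _ _ hv2 (hKq i)) (abs_nonneg _) (by positivity)
      linarith
    have a1 : |∑ i, wt l (lin R q θ x) i * (θ * ⟪v.1, R i⟫ + θ ^ 2 * ⟪v.2, q i⟫)| ≤
        (θ2 + θ2 ^ 2) * K * ‖v‖ := Bnd_avg _ _ _ hw0 hw1 a0
    have a2 : |∑ i, wt l (lin R q θ x) i * (θ * ⟪v.1, R i⟫ + θ ^ 2 * ⟪v.2, q i⟫) ^ 2| ≤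
        ((θ2 + θ2 ^ 2) * K * ‖v‖) ^ 2 := by
      refine Bnd_avg _ _ _ hw0 hw1 fun i => ?_
      rw [abs_of_nonneg (sq_nonneg _), ← sq_abs]
      exact pow_le_pow_left₀ (abs_nonneg _) (a0 i) 2
    have a3 : |(∑ i, wt l (lin R q θ x) i * (θ * ⟪v.1, R i⟫ + θ ^ 2 * ⟪v.2, q i⟫)) ^ 2| ≤
        ((θ2 + θ2 ^ 2) * K * ‖v‖) ^ 2 := by
      rw [abs_of_nonneg (sq_nonneg _), ← sq_abs]
      exact pow_le_pow_left₀ (abs_nonneg _) a1 2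
    have a4 : |T2 R q l θ x v| ≤ 2 * l * (2 * ((θ2 + θ2 ^ 2) * K * ‖v‖) ^ 2) +
        2 * θ2 ^ 2 * ‖v‖ ^ 2 := by
      unfold T2
      refine (abs_sub _ _).trans (add_le_add ?_ ?_)
      · rw [abs_neg, abs_mul, abs_of_nonneg (show (0 : ℝ) ≤ 2 * l by positivity)]
        refine mul_le_mul_of_nonneg_left ((abs_sub _ _).trans ?_) (by positivity)
        linarith
      · rw [abs_of_nonneg (by positivity)]
        exact mul_le_mul (by linarith) (pow_le_pow_left₀ (norm_nonneg _) hv2 2) (by positivity)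
          (by positivity)
    refine a4.trans ?_
    have a5 : 2 * l * (2 * ((θ2 + θ2 ^ 2) * K * ‖v‖) ^ 2) + 2 * θ2 ^ 2 * ‖v‖ ^ 2 ≤
        (4 * ((θ2 + θ2 ^ 2) * K) ^ 2 + 2 * θ2 ^ 2) * (1 + l) * ‖v‖ ^ 2 := by
      have c1 : 0 ≤ 4 * ((θ2 + θ2 ^ 2) * K) ^ 2 * ‖v‖ ^ 2 := by positivity
      have c2 : 0 ≤ 2 * θ2 ^ 2 * l * ‖v‖ ^ 2 := by positivity
      nlinarith
    refine a5.trans ?_
    refine mul_le_mul_of_nonneg_right ?_ (by positivity)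
    exact mul_le_mul_of_nonneg_right (by linarith) (by positivity)

end Pool.Agent.Lib.MP_0c1c75_co.TG
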