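import Pool.Agent.Lib.MP_0c1c75_co.TG.SpecD

/-!
MP_0c1c75_co, project TG: congruent balls whose centres lie in a ball of radius `t r`, contraction by
the factor `sin t / t` (module Cir).
-/

set_option autoImplicit false

open MeasureTheory Set Filter Topology
open scoped RealInnerProductSpace

namespace Pool.Agent.Lib.MP_0c1c75_co.TG

private lemma Cir_cos (τ : ℝ) (h0τ : 0 < τ) (hτ1 : τ ≤ 1) (x : ℝ) (hx : |x| ≤ 2 * τ) :
    (Real.sin τ / τ) ^ 2 * x ^ 2 ≤ 2 - 2 * Real.cos x ∧ 2 - 2 * Real.cos x ≤ x ^ 2 := by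
  constructor
  · have h0 : 0 ≤ |x| / 2 := by positivity
    have h0' : 0 ≤ |x| / 2 / τ := by positivity
    have h1 : |x| / 2 / τ ≤ 1 := (div_le_one h0τ).2 (by linarith)
    have hcc : ConcaveOn ℝ (Icc 0 Real.pi) Real.sin := strictConcaveOn_sin_Icc.concaveOn
    have m0 : (0 : ℝ) ∈ Icc 0 Real.pi := ⟨le_refl _, Real.pi_pos.le⟩
    have m1 : τ ∈ Icc 0 Real.pi := ⟨h0τ.le, by linarith [Real.pi_gt_three]⟩
    have w0 : 0 ≤ 1 - |x| / 2 / τ := by linarith
    have w1 : (1 - |x| / 2 / τ) + |x| / 2 / τ = 1 := by ring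
    have hc := hcc.2 m0 m1 w0 h0' w1
    have hτx : |x| / 2 / τ * τ = |x| / 2 := div_mul_cancel₀ _ h0τ.ne'
    simp only [smul_eq_mul, Real.sin_zero, mul_zero, zero_add] at hc
    rw [hτx] at hc
    have hs : 0 ≤ Real.sin τ :=
      Real.sin_nonneg_of_nonneg_of_le_pi h0τ.le (by linarith [Real.pi_gt_three])
    have h2 : (|x| / 2 / τ * Real.sin τ) ^ 2 ≤ Real.sin (|x| / 2) ^ 2 :=
      pow_le_pow_left₀ (mul_nonneg h0' hs) hc 2
    have h3 : Real.cos x = 1 - 2 * Real.sin (|x| / 2) ^ 2 := by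
      rw [← Real.cos_abs x]
      have : Real.cos |x| = Real.cos (2 * (|x| / 2)) := by congr 1; ring
      rw [this, Real.cos_two_mul, Real.cos_sq']
      ring
    have h4 : (|x| / 2 / τ * Real.sin τ) ^ 2 = (Real.sin τ / τ) ^ 2 * x ^ 2 / 4 := by
      rw [mul_pow, div_pow, div_pow, div_pow, sq_abs]
      ring
    rw [h3]
    linarith
  · have := Real.one_sub_sq_div_two_le_cos (x := x)
    linarith

private lemma Cir_scalar (τ : ℝ) (h0τ : 0 < τ) (hτ1 : τ ≤ 1) (s t c : ℝ) (hs0 : 0 ≤ s) (hs1 : s ≤ τ)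
    (ht0 : 0 ≤ t) (ht1 : t ≤ τ) (hc : |c| ≤ 1) :
    (Real.sin τ / τ) ^ 2 * (s ^ 2 + t ^ 2 - 2 * c * (s * t)) ≤
        2 - 2 * (Real.cos s * Real.cos t) - 2 * c * (Real.sin s * Real.sin t) ∧
      2 - 2 * (Real.cos s * Real.cos t) - 2 * c * (Real.sin s * Real.sin t) ≤
        s ^ 2 + t ^ 2 - 2 * c * (s * t) := by
  obtain ⟨hc1, hc2⟩ := abs_le.1 hc
  have h1 := Cir_cos τ h0τ hτ1 (s - t) (by rw [abs_le]; constructor <;> linarith)
  have h2 := Cir_cos τ h0τ hτ1 (s + t) (by rw [abs_le]; constructor <;> linarith)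
  rw [Real.cos_sub] at h1
  rw [Real.cos_add] at h2
  obtain ⟨h1a, h1b⟩ := h1
  obtain ⟨h2a, h2b⟩ := h2
  have p1 : 0 ≤ (1 + c) / 2 := by linarith
  have p2 : 0 ≤ (1 - c) / 2 := by linarith
  generalize Real.sin τ / τ = κ at *
  constructor
  · have e1 := mul_le_mul_of_nonneg_left h1a p1
    have e2 := mul_le_mul_of_nonneg_left h2a p2
    calc κ ^ 2 * (s ^ 2 + t ^ 2 - 2 * c * (s * t))
        = (1 + c) / 2 * (κ ^ 2 * (s - t) ^ 2) + (1 - c) / 2 * (κ ^ 2 * (s + t) ^ 2) := by ring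
      _ ≤ _ := add_le_add e1 e2
      _ = _ := by ring
  · have e1 := mul_le_mul_of_nonneg_left h1b p1
    have e2 := mul_le_mul_of_nonneg_left h2b p2
    calc 2 - 2 * (Real.cos s * Real.cos t) - 2 * c * (Real.sin s * Real.sin t)
        = (1 + c) / 2 * (2 - 2 * (Real.cos s * Real.cos t + Real.sin s * Real.sin t))
          + (1 - c) / 2 * (2 - 2 * (Real.cos s * Real.cos t - Real.sin s * Real.sin t)) := by ring
      _ ≤ _ := add_le_add e1 e2
      _ = _ := by ring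

private lemma Cir_sinc (s : ℝ) : Real.sinc s * s = Real.sin s := by
  by_cases h : s = 0
  · simp [h]
  · rw [Real.sinc_of_ne_zero h, div_mul_cancel₀ _ h]

private lemma Cir_vec {d : ℕ} (τ : ℝ) (h0τ : 0 < τ) (hτ1 : τ ≤ 1) (v w : E d) (r : ℝ) (hr : 0 < r)
    (hv : ‖v‖ ≤ τ * r) (hw : ‖w‖ ≤ τ * r) :
    (Real.sin τ / τ) ^ 2 * ‖v - w‖ ^ 2 ≤
      2 * r ^ 2 - 2 * (r * Real.cos (‖v‖ / r) * (r * Real.cos (‖w‖ / r))
        + ⟪Real.sinc (‖v‖ / r) • v, Real.sinc (‖w‖ / r) • w⟫) ∧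
      2 * r ^ 2 - 2 * (r * Real.cos (‖v‖ / r) * (r * Real.cos (‖w‖ / r))
        + ⟪Real.sinc (‖v‖ / r) • v, Real.sinc (‖w‖ / r) • w⟫) ≤ ‖v - w‖ ^ 2 := by
  set s : ℝ := ‖v‖ / r with hs
  set t : ℝ := ‖w‖ / r with ht
  have hvs : ‖v‖ = r * s := by rw [hs]; field_simp
  have hwt : ‖w‖ = r * t := by rw [ht]; field_simp
  have hs0 : 0 ≤ s := by positivity
  have ht0 : 0 ≤ t := by positivity
  have hs1 : s ≤ τ := (div_le_iff₀ hr).2 hv
  have ht1 : t ≤ τ := (div_le_iff₀ hr).2 hw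
  obtain ⟨c, hc, hin⟩ : ∃ c : ℝ, |c| ≤ 1 ∧ ⟪v, w⟫ = c * (‖v‖ * ‖w‖) := by
    refine ⟨⟪v, w⟫ / (‖v‖ * ‖w‖), abs_real_inner_div_norm_mul_norm_le_one v w, ?_⟩
    by_cases h0 : ‖v‖ * ‖w‖ = 0
    · rw [h0, mul_zero]
      rcases mul_eq_zero.1 h0 with h | h
      · rw [norm_eq_zero.1 h, inner_zero_left]
      · rw [norm_eq_zero.1 h, inner_zero_right]
    · rw [div_mul_cancel₀ _ h0]
  have key := Cir_scalar τ h0τ hτ1 s t c hs0 hs1 ht0 ht1 hc
  have hI : ⟪Real.sinc s • v, Real.sinc t • w⟫ = r ^ 2 * (c * (Real.sin s * Real.sin t)) := by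
    rw [real_inner_smul_left, real_inner_smul_right, hin, hvs, hwt, ← Cir_sinc s, ← Cir_sinc t]
    ring
  have hD : ‖v - w‖ ^ 2 = r ^ 2 * (s ^ 2 + t ^ 2 - 2 * c * (s * t)) := by
    rw [@norm_sub_sq_real, hin, hvs, hwt]
    ring
  have hr2 : 0 ≤ r ^ 2 := sq_nonneg r
  rw [hI, hD]
  constructor
  · calc (Real.sin τ / τ) ^ 2 * (r ^ 2 * (s ^ 2 + t ^ 2 - 2 * c * (s * t)))
        = r ^ 2 * ((Real.sin τ / τ) ^ 2 * (s ^ 2 + t ^ 2 - 2 * c * (s * t))) := by ring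
      _ ≤ r ^ 2 * (2 - 2 * (Real.cos s * Real.cos t) - 2 * c * (Real.sin s * Real.sin t)) :=
        mul_le_mul_of_nonneg_left key.1 hr2
      _ = _ := by ring
  · calc 2 * r ^ 2 - 2 * (r * Real.cos s * (r * Real.cos t) + r ^ 2 * (c * (Real.sin s * Real.sin t)))
        = r ^ 2 * (2 - 2 * (Real.cos s * Real.cos t) - 2 * c * (Real.sin s * Real.sin t)) := by ring
      _ ≤ _ := mul_le_mul_of_nonneg_left key.2 hr2

theorem tCir (hG : GraStmt) : CirStmt := by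
  intro d N p q r t a hd h0t ht1 ha hpq
  refine hG d N p q (fun _ => r) hd ?_
  intro _
  have ha' : ∀ i, ‖p i - a‖ ≤ t * r := fun i => by
    have := ha i
    rwa [dist_eq_norm] at this
  rcases isEmpty_or_nonempty (Fin N) with hE | ⟨⟨i0⟩⟩
  · exact ⟨0, Matrix.PosSemidef.zero, fun i => hE.elim i, fun i => hE.elim i⟩
  have hr : 0 ≤ r := by
    have h1 : 0 ≤ t * r := (norm_nonneg _).trans (ha' i0)
    exact nonneg_of_mul_nonneg_right h1 h0t
  rcases hr.eq_or_lt with h0 | hpos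
  · subst h0
    have hpa : ∀ i, p i = a := fun i => by
      have h1 := ha' i
      rw [mul_zero] at h1
      exact sub_eq_zero.1 (norm_le_zero_iff.1 h1)
    refine ⟨0, Matrix.PosSemidef.zero, fun i => by simp, fun i j => ?_⟩
    have h1 : dist (p i) (p j) = 0 := by rw [hpa i, hpa j, dist_self]
    have h2 : dist (q i) (q j) = 0 := by
      have := hpq i j
      rw [h1, mul_zero] at this
      exact le_antisymm this dist_nonneg
    simp [h1, h2]
  · refine ⟨Matrix.gram ℝ (fun i => r * Real.cos (‖p i - a‖ / r))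
      + Matrix.gram ℝ (fun i => Real.sinc (‖p i - a‖ / r) • (p i - a)),
      (Matrix.posSemidef_gram ℝ _).add (Matrix.posSemidef_gram ℝ _), ?_, ?_⟩
    · intro i
      rw [Matrix.add_apply, Matrix.gram_apply, Matrix.gram_apply, real_inner_self_eq_norm_sq,
        real_inner_self_eq_norm_sq, norm_smul, Real.norm_eq_abs, Real.norm_eq_abs, mul_pow,
        sq_abs, sq_abs]
      have h1 : ‖p i - a‖ = r * (‖p i - a‖ / r) := by field_simp
      have h2 := Cir_sinc (‖p i - a‖ / r)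
      have h3 := Real.sin_sq_add_cos_sq (‖p i - a‖ / r)
      generalize ‖p i - a‖ / r = s at h1 h2 h3 ⊢
      rw [h1]
      calc (r * Real.cos s) ^ 2 + Real.sinc s ^ 2 * (r * s) ^ 2
          = r ^ 2 * ((Real.sinc s * s) ^ 2 + Real.cos s ^ 2) := by ring
        _ = r ^ 2 := by rw [h2, h3, mul_one]
    · intro i j
      have h := Cir_vec t h0t ht1 (p i - a) (p j - a) r hpos (ha' i) (ha' j)
      have e : p i - a - (p j - a) = p i - p j := by abel
      rw [e, ← dist_eq_norm] at h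
      have hin : (⟪r * Real.cos (‖p i - a‖ / r), r * Real.cos (‖p j - a‖ / r)⟫ : ℝ) =
          r * Real.cos (‖p i - a‖ / r) * (r * Real.cos (‖p j - a‖ / r)) := by
        rw [real_inner_eq_re_inner]
        simp [mul_comm]
      rw [Matrix.add_apply, Matrix.gram_apply, Matrix.gram_apply, hin]
      have hq : dist (q i) (q j) ^ 2 ≤ (Real.sin t / t) ^ 2 * dist (p i) (p j) ^ 2 := by
        rw [← mul_pow]
        exact pow_le_pow_left₀ dist_nonneg (hpq i j) 2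
      constructor
      · linarith [h.2]
      · linarith [h.1]

end Pool.Agent.Lib.MP_0c1c75_co.TG
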