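import Pool.Agent.Lib.MP_0c1c75_co.TG.Spec

/-!
MP_0c1c75_co, project TG: continuity of the functions of the project.
-/

set_option autoImplicit false

namespace Pool.Agent.Lib.MP_0c1c75_co.TG

open MeasureTheory Set Filter Topology
open scoped RealInnerProductSpace

private theorem Cts_lin {M d N : ℕ} (R : Fin N → E M) (q : Fin N → E d) (θ : ℝ) (i : Fin N) :
    Continuous (fun x : E M × E d => lin R q θ x i) := by
  unfold lin
  fun_prop

private theorem Cts_sum_pos {N : ℕ} (hN : 0 < N) (l : ℝ) (a : Fin N → ℝ) :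
    0 < ∑ j, Real.exp (-(l * a j)) := by
  have : Nonempty (Fin N) := ⟨⟨0, hN⟩⟩
  exact Finset.sum_pos (fun j _ => Real.exp_pos _) Finset.univ_nonempty

private theorem Cts_sum {M d N : ℕ} (R : Fin N → E M) (q : Fin N → E d) (l θ : ℝ) :
    Continuous (fun x : E M × E d => ∑ j, Real.exp (-(l * lin R q θ x j))) := by
  refine continuous_finsetSum _ (fun j _ => ?_)
  exact Real.continuous_exp.comp ((continuous_const.mul (Cts_lin R q θ j)).neg)

private theorem Cts_wt {M d N : ℕ} (hN : 0 < N) (R : Fin N → E M) (q : Fin N → E d) (l θ : ℝ)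
    (i : Fin N) : Continuous (fun x : E M × E d => wt l (lin R q θ x) i) := by
  unfold wt
  refine Continuous.div ?_ (Cts_sum R q l θ) (fun x => (Cts_sum_pos hN l _).ne')
  exact Real.continuous_exp.comp ((continuous_const.mul (Cts_lin R q θ i)).neg)

private theorem Cts_smn {M d N : ℕ} (hN : 0 < N) (R : Fin N → E M) (q : Fin N → E d) (l θ : ℝ) :
    Continuous (fun x : E M × E d => smn l (lin R q θ x)) := by
  unfold smn
  refine Continuous.neg (Continuous.div_const ?_ l)
  exact Continuous.log (Cts_sum R q l θ) (fun x => (Cts_sum_pos hN l _).ne')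

private theorem Cts_inf {M d N : ℕ} (hN : 0 < N) (R : Fin N → E M) (q : Fin N → E d) (θ : ℝ) :
    Continuous (fun x : E M × E d => ⨅ i, lin R q θ x i) := by
  have : Nonempty (Fin N) := ⟨⟨0, hN⟩⟩
  have h : (fun x : E M × E d => ⨅ i, lin R q θ x i) =
      fun x => Finset.univ.inf' Finset.univ_nonempty (fun i => lin R q θ x i) := by
    funext x
    rw [Finset.inf'_univ_eq_ciInf]
  rw [h]
  exact Continuous.finset_inf'_apply Finset.univ_nonempty (fun i _ => Cts_lin R q θ i)

theorem tCts : CtsStmt := by
  intro M d N R q l θ hN _hl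
  have hw := Cts_wt hN R q l θ
  have hs := Cts_smn hN R q l θ
  have hi := Cts_inf hN R q θ
  have hlin := Cts_lin R q θ
  refine ⟨?_, ?_, ?_, ?_, ?_, ?_, ?_, ?_⟩
  · unfold rho
    fun_prop
  · unfold TT
    exact (continuous_const.mul hs).sub (by fun_prop)
  · unfold TH
    exact (continuous_const.mul hi).sub (by fun_prop)
  · unfold Tth
    refine Continuous.sub (continuous_const.mul
      (continuous_finsetSum _ (fun i _ => (hw i).mul (by fun_prop)))) (by fun_prop)
  · unfold HH
    exact (continuous_finsetSum _ (fun i _ => (hw i).mul (hlin i))).sub hs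
  · unfold DD
    exact continuous_const.mul (continuous_finsetSum _ (fun i _ =>
      continuous_finsetSum _ (fun j _ => ((hw i).mul (hw j)).mul continuous_const)))
  · intro v
    unfold T1
    exact (continuous_const.mul (continuous_finsetSum _ (fun i _ =>
      (hw i).mul continuous_const))).sub (by fun_prop)
  · intro v
    unfold T2
    have h1 : Continuous (fun x : E M × E d =>
        ∑ i, wt l (lin R q θ x) i * (θ * ⟪v.1, R i⟫ + θ ^ 2 * ⟪v.2, q i⟫) ^ 2) :=
      continuous_finsetSum _ (fun i _ => (hw i).mul continuous_const)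
    have h2 : Continuous (fun x : E M × E d =>
        ∑ i, wt l (lin R q θ x) i * (θ * ⟪v.1, R i⟫ + θ ^ 2 * ⟪v.2, q i⟫)) :=
      continuous_finsetSum _ (fun i _ => (hw i).mul continuous_const)
    exact ((continuous_const.mul (h1.sub (h2.pow 2))).neg).sub continuous_const

end Pool.Agent.Lib.MP_0c1c75_co.TG
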