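import Mathlib

/-!
MP_0c1c75_co (Kneser-Poulsen for intersections of balls), project TG: definitions (helper32).

THEOREM G. Let `d ≥ 3`, `p, q : Fin N → E d`, radii `r_i`, and let `R : Fin N → E M` be vectors with
`|R_i| = r_i` and `|q_i - q_j| ≤ |R_i - R_j| ≤ |p_i - p_j|` for all `i, j`. Then
`vol ⋂ B[p_i, r_i] ≤ vol ⋂ B[q_i, r_i]`.
-/

set_option autoImplicit false

open MeasureTheory
open scoped RealInnerProductSpace

namespace Pool.Agent.Lib.MP_0c1c75_co.TG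

abbrev E (n : ℕ) := EuclideanSpace ℝ (Fin n)

/-- `v_+^k e^{-v/2}` (used with `k = d / 2 > 1`) -/
noncomputable def ph (k v : ℝ) : ℝ := (max v 0) ^ k * Real.exp (-(v / 2))

/-- the derivative of `ph k` -/
noncomputable def dph (k v : ℝ) : ℝ :=
  (k * (max v 0) ^ (k - 1) - (max v 0) ^ k / 2) * Real.exp (-(v / 2))

/-- the primitive of `ph k` which vanishes for `v ≤ 0` -/
noncomputable def Ph (k v : ℝ) : ℝ := ∫ t in (0 : ℝ)..v, ph k t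

noncomputable def hh (k v : ℝ) : ℝ := Ph k v + 4 * ph k v

/-- the derivative of `hh k` -/
noncomputable def dhh (k v : ℝ) : ℝ := ph k v + 4 * dph k v

/-- the Gaussian weight on the first factor -/
noncomputable def rho {M d : ℕ} (x : E M × E d) : ℝ := Real.exp (-(‖x.1‖ ^ 2 / 2))

/-- the function `θ <g, R_i> + θ² (<y, q_i> + (|R_i|² - |q_i|²) / 2)`, `x = (g, y)` -/
noncomputable def lin {M d N : ℕ} (R : Fin N → E M) (q : Fin N → E d) (θ : ℝ) (x : E M × E d)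
    (i : Fin N) : ℝ :=
  θ * ⟪x.1, R i⟫ + θ ^ 2 * (⟪x.2, q i⟫ + (‖R i‖ ^ 2 - ‖q i‖ ^ 2) / 2)

/-- the softmin of a tuple: `-(1/l) log ∑ exp (-l a_i)` -/
noncomputable def smn {N : ℕ} (l : ℝ) (a : Fin N → ℝ) : ℝ :=
  -(Real.log (∑ i, Real.exp (-(l * a i))) / l)

/-- its weights -/
noncomputable def wt {N : ℕ} (l : ℝ) (a : Fin N → ℝ) (i : Fin N) : ℝ :=
  Real.exp (-(l * a i)) / ∑ j, Real.exp (-(l * a j))

/-- the function `T = 2 softmin (lin) - θ² |y|²` -/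
noncomputable def TT {M d N : ℕ} (R : Fin N → E M) (q : Fin N → E d) (l θ : ℝ)
    (x : E M × E d) : ℝ := 2 * smn l (lin R q θ x) - θ ^ 2 * ‖x.2‖ ^ 2

/-- the same with the minimum -/
noncomputable def TH {M d N : ℕ} (R : Fin N → E M) (q : Fin N → E d) (θ : ℝ)
    (x : E M × E d) : ℝ := 2 * (⨅ i, lin R q θ x i) - θ ^ 2 * ‖x.2‖ ^ 2

/-- the derivative of `TT` in the direction `v` -/
noncomputable def T1 {M d N : ℕ} (R : Fin N → E M) (q : Fin N → E d) (l θ : ℝ)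
    (x v : E M × E d) : ℝ :=
  2 * (∑ i, wt l (lin R q θ x) i * (θ * ⟪v.1, R i⟫ + θ ^ 2 * ⟪v.2, q i⟫)) -
    2 * θ ^ 2 * ⟪x.2, v.2⟫

/-- the second derivative of `TT` in the direction `v` -/
noncomputable def T2 {M d N : ℕ} (R : Fin N → E M) (q : Fin N → E d) (l θ : ℝ)
    (x v : E M × E d) : ℝ :=
  -(2 * l * ((∑ i, wt l (lin R q θ x) i * (θ * ⟪v.1, R i⟫ + θ ^ 2 * ⟪v.2, q i⟫) ^ 2) -
      (∑ i, wt l (lin R q θ x) i * (θ * ⟪v.1, R i⟫ + θ ^ 2 * ⟪v.2, q i⟫)) ^ 2)) -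
    2 * θ ^ 2 * ‖v.2‖ ^ 2

/-- the derivative of `TT` in `θ` -/
noncomputable def Tth {M d N : ℕ} (R : Fin N → E M) (q : Fin N → E d) (l θ : ℝ)
    (x : E M × E d) : ℝ :=
  2 * (∑ i, wt l (lin R q θ x) i *
    (⟪x.1, R i⟫ + 2 * θ * (⟪x.2, q i⟫ + (‖R i‖ ^ 2 - ‖q i‖ ^ 2) / 2))) - 2 * θ * ‖x.2‖ ^ 2

/-- the integrand of the integration by parts: the derivative in the direction `v` of
`x ↦ rho x * ph k (TT x) * T1 x v` is `rho x * JJ x v` -/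
noncomputable def JJ {M d N : ℕ} (k : ℝ) (R : Fin N → E M) (q : Fin N → E d) (l θ : ℝ)
    (x v : E M × E d) : ℝ :=
  dph k (TT R q l θ x) * T1 R q l θ x v ^ 2 + ph k (TT R q l θ x) * T2 R q l θ x v -
    ⟪x.1, v.1⟫ * (ph k (TT R q l θ x) * T1 R q l θ x v)

/-- `∑ w_i lin_i - softmin` (it lies in `[0, N / l]`) -/
noncomputable def HH {M d N : ℕ} (R : Fin N → E M) (q : Fin N → E d) (l θ : ℝ)
    (x : E M × E d) : ℝ :=
  (∑ i, wt l (lin R q θ x) i * lin R q θ x i) - smn l (lin R q θ x)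

/-- `θ² ∑_{i,j} w_i w_j (|R_i - R_j|² - |q_i - q_j|²) / 2` -/
noncomputable def DD {M d N : ℕ} (R : Fin N → E M) (q : Fin N → E d) (l θ : ℝ)
    (x : E M × E d) : ℝ :=
  θ ^ 2 * ∑ i, ∑ j, wt l (lin R q θ x) i * wt l (lin R q θ x) j *
    ((‖R i - R j‖ ^ 2 - ‖q i - q j‖ ^ 2) / 2)

/-- the density of the derivative -/
noncomputable def QQ {M d N : ℕ} (k : ℝ) (R : Fin N → E M) (q : Fin N → E d) (l θ : ℝ)
    (x : E M × E d) : ℝ :=
  4 * HH R q l θ x * (ph k (TT R q l θ x) + 2 * dph k (TT R q l θ x)) +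
    2 * (l * ph k (TT R q l θ x) + 2 * dph k (TT R q l θ x)) * DD R q l θ x

/-- `Θ_l(θ) = ∫∫ rho h(T)` -/
noncomputable def Th {M d N : ℕ} (k : ℝ) (R : Fin N → E M) (q : Fin N → E d) (l θ : ℝ) : ℝ :=
  ∫ x : E M × E d, rho x * hh k (TT R q l θ x)

/-- the same with the minimum -/
noncomputable def ThH {M d N : ℕ} (k : ℝ) (R : Fin N → E M) (q : Fin N → E d) (θ : ℝ) : ℝ :=
  ∫ x : E M × E d, rho x * hh k (TH R q θ x)

/-- the limit for `θ → 0`: it does not depend on `q` -/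
noncomputable def L0 {M N : ℕ} (d : ℕ) (k : ℝ) (R : Fin N → E M) : ℝ :=
  ∫ x : E M × E d, rho x * (4 * (max (2 * (⨅ i, ⟪x.1, R i⟫) - ‖x.2‖ ^ 2) 0) ^ k)

/-- a Gaussian majorant -/
noncomputable def maj {M d : ℕ} (A c : ℝ) (x : E M × E d) : ℝ :=
  Real.exp (-(‖x.1‖ ^ 2 / 2) + A * ‖x.1‖) * Real.exp (-(c * ‖x.2‖ ^ 2) + A * ‖x.2‖)

end Pool.Agent.Lib.MP_0c1c75_co.TG
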