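import Pool.Agent.Lib.MP_0c1c75_co.TG.Spec

/-!
MP_0c1c75_co, project TG: the derivative of `Θ` (module Der).
-/

set_option autoImplicit false

namespace Pool.Agent.Lib.MP_0c1c75_co.TG

open MeasureTheory Set Filter Topology
open scoped RealInnerProductSpace

private theorem Der_sum {α : Type} [MeasurableSpace α] {μ : Measure α} {m : ℕ} (F : Fin m → α → ℝ)
    (hF : ∀ j, Integrable (F j) μ) (h0 : ∀ j, ∫ x, F j x ∂μ = 0) :
    Integrable (fun x => ∑ j, F j x) μ ∧ ∫ x, ∑ j, F j x ∂μ = 0 := by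
  refine ⟨integrable_finsetSum _ fun j _ => hF j, ?_⟩
  rw [integral_finsetSum _ fun j _ => hF j]
  exact Finset.sum_eq_zero fun j _ => h0 j

theorem tDer (hIbp : IbpStmt) (hAlg : AlgStmt) (hDth : DthStmt) : DerStmt := by
  intro M d N R q k l θ hk hk1 hN hl hθ
  obtain ⟨hDi, hDd⟩ := hDth M d N R q k l θ hk1 hN hl hθ
  obtain ⟨i1, z1⟩ := Der_sum (μ := (volume : Measure (E M × E d)))
    (fun (j : Fin d) (x : E M × E d) => rho x *
      JJ k R q l θ x ((0 : E M), EuclideanSpace.single j (1 : ℝ)))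
    (fun j => (hIbp M d N R q k l θ _ hk1 hN hl hθ).1)
    (fun j => (hIbp M d N R q k l θ _ hk1 hN hl hθ).2)
  obtain ⟨i2, z2⟩ := Der_sum (μ := (volume : Measure (E M × E d)))
    (fun (j : Fin M) (x : E M × E d) => rho x *
      JJ k R q l θ x (EuclideanSpace.single j (1 : ℝ), (0 : E d)))
    (fun j => (hIbp M d N R q k l θ _ hk1 hN hl hθ).1)
    (fun j => (hIbp M d N R q k l θ _ hk1 hN hl hθ).2)
  have key : (fun x : E M × E d => rho x * QQ k R q l θ x) = fun x : E M × E d =>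
      ((θ ^ 2)⁻¹ * (∑ j : Fin d, rho x *
          JJ k R q l θ x ((0 : E M), EuclideanSpace.single j (1 : ℝ))) -
        ∑ j : Fin M, rho x * JJ k R q l θ x (EuclideanSpace.single j (1 : ℝ), (0 : E d))) +
        θ * (rho x * (dhh k (TT R q l θ x) * Tth R q l θ x)) := by
    funext x
    rw [← hAlg M d N R q k l θ x hk hk1 hN hl hθ, ← Finset.mul_sum, ← Finset.mul_sum]
    ring
  have i3 := (i1.const_mul ((θ ^ 2)⁻¹)).sub i2
  have i4 := hDi.const_mul θ
  have hint : ∫ x : E M × E d, rho x * QQ k R q l θ x =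
      θ * ∫ x : E M × E d, rho x * (dhh k (TT R q l θ x) * Tth R q l θ x) := by
    rw [key]
    have e1 : ∫ x : E M × E d, (((θ ^ 2)⁻¹ * (∑ j : Fin d, rho x *
          JJ k R q l θ x ((0 : E M), EuclideanSpace.single j (1 : ℝ))) -
        ∑ j : Fin M, rho x * JJ k R q l θ x (EuclideanSpace.single j (1 : ℝ), (0 : E d))) +
        θ * (rho x * (dhh k (TT R q l θ x) * Tth R q l θ x))) =
        (∫ x : E M × E d, ((θ ^ 2)⁻¹ * (∑ j : Fin d, rho x *
          JJ k R q l θ x ((0 : E M), EuclideanSpace.single j (1 : ℝ))) -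
        ∑ j : Fin M, rho x * JJ k R q l θ x (EuclideanSpace.single j (1 : ℝ), (0 : E d)))) +
        ∫ x : E M × E d, θ * (rho x * (dhh k (TT R q l θ x) * Tth R q l θ x)) :=
      integral_add i3 i4
    have e2 : ∫ x : E M × E d, ((θ ^ 2)⁻¹ * (∑ j : Fin d, rho x *
          JJ k R q l θ x ((0 : E M), EuclideanSpace.single j (1 : ℝ))) -
        ∑ j : Fin M, rho x * JJ k R q l θ x (EuclideanSpace.single j (1 : ℝ), (0 : E d))) =
        (∫ x : E M × E d, (θ ^ 2)⁻¹ * (∑ j : Fin d, rho x *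
          JJ k R q l θ x ((0 : E M), EuclideanSpace.single j (1 : ℝ)))) -
        ∫ x : E M × E d, ∑ j : Fin M, rho x *
          JJ k R q l θ x (EuclideanSpace.single j (1 : ℝ), (0 : E d)) :=
      integral_sub (i1.const_mul ((θ ^ 2)⁻¹)) i2
    rw [e1, e2, integral_const_mul, integral_const_mul, z1, z2]
    ring
  refine ⟨?_, ?_⟩
  · rw [key]
    exact i3.add i4
  · rw [hint, inv_mul_cancel_left₀ hθ.ne']
    exact hDd

end Pool.Agent.Lib.MP_0c1c75_co.TG
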