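import Pool.Agent.Lib.MP_0c1c75_co.TG.Spec

/-!
MP_0c1c75_co, project TG: derivative under the integral sign (module Dth, helper99).
-/

set_option autoImplicit false

namespace Pool.Agent.Lib.MP_0c1c75_co.TG

open MeasureTheory Set Filter Topology
open scoped RealInnerProductSpace

private theorem Dth_TT (hSoftB : SoftBStmt) {M d N : ℕ} (R : Fin N → E M) (q : Fin N → E d)
    (l : ℝ) (hN : 0 < N) (hl : 0 < l) (x : E M × E d) (s : ℝ) :
    HasDerivAt (fun s => TT R q l s x) (Tth R q l s x) s := by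
  have h1 : ∀ i, HasDerivAt (fun s => lin R q s x i)
      (⟪x.1, R i⟫ + 2 * s * (⟪x.2, q i⟫ + (‖R i‖ ^ 2 - ‖q i‖ ^ 2) / 2)) s := by
    intro i
    have h2 : HasDerivAt (fun s : ℝ => s * ⟪x.1, R i⟫) (1 * ⟪x.1, R i⟫) s :=
      (hasDerivAt_id s).mul_const _
    have h3 : HasDerivAt (fun s : ℝ => s ^ 2 * (⟪x.2, q i⟫ + (‖R i‖ ^ 2 - ‖q i‖ ^ 2) / 2))
        ((((2 : ℕ) : ℝ) * s ^ (2 - 1)) * (⟪x.2, q i⟫ + (‖R i‖ ^ 2 - ‖q i‖ ^ 2) / 2)) s :=
      (hasDerivAt_pow 2 s).mul_const _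
    have h4 := h2.add h3
    have h5 : 1 * ⟪x.1, R i⟫ +
        (((2 : ℕ) : ℝ) * s ^ (2 - 1)) * (⟪x.2, q i⟫ + (‖R i‖ ^ 2 - ‖q i‖ ^ 2) / 2) =
        ⟪x.1, R i⟫ + 2 * s * (⟪x.2, q i⟫ + (‖R i‖ ^ 2 - ‖q i‖ ^ 2) / 2) := by
      norm_num
    rw [h5] at h4
    exact h4
  have h6 := (hSoftB N l (fun s => lin R q s x)
    (fun i => ⟪x.1, R i⟫ + 2 * s * (⟪x.2, q i⟫ + (‖R i‖ ^ 2 - ‖q i‖ ^ 2) / 2)) s hN hl h1).1
  have h7 : HasDerivAt (fun s : ℝ => s ^ 2 * ‖x.2‖ ^ 2)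
      ((((2 : ℕ) : ℝ) * s ^ (2 - 1)) * ‖x.2‖ ^ 2) s :=
    (hasDerivAt_pow 2 s).mul_const _
  have h8 := (h6.const_mul 2).sub h7
  have h9 : 2 * (∑ i, wt l (lin R q s x) i *
      (⟪x.1, R i⟫ + 2 * s * (⟪x.2, q i⟫ + (‖R i‖ ^ 2 - ‖q i‖ ^ 2) / 2))) -
      (((2 : ℕ) : ℝ) * s ^ (2 - 1)) * ‖x.2‖ ^ 2 = Tth R q l s x := by
    unfold Tth
    norm_num
  rw [h9] at h8
  exact h8

private theorem Dth_hh (hFunA : FunAStmt) (k : ℝ) (hk : 1 < k) (v : ℝ) :
    HasDerivAt (hh k) (dhh k v) v := by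
  obtain ⟨h1, h2, -⟩ := hFunA k hk
  have h3 := (h2 v).add ((h1 v).const_mul 4)
  exact h3

private theorem Dth_hh_cont (hFunA : FunAStmt) (k : ℝ) (hk : 1 < k) : Continuous (hh k) :=
  continuous_iff_continuousAt.2 fun v => (Dth_hh hFunA k hk v).continuousAt

private theorem Dth_dhh_cont (hFunA : FunAStmt) (k : ℝ) (hk : 1 < k) : Continuous (dhh k) := by
  obtain ⟨-, -, h3, h4, -⟩ := hFunA k hk
  exact h3.add (continuous_const.mul h4)

private theorem Dth_maj_nonneg {M d : ℕ} (A c : ℝ) (x : E M × E d) : 0 ≤ maj A c x :=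
  mul_nonneg (Real.exp_pos _).le (Real.exp_pos _).le

theorem tDth (hFunA : FunAStmt) (hFunB : FunBStmt) (hSoftB : SoftBStmt) (hMaj : MajStmt)
    (hBnd : BndStmt) (hCts : CtsStmt) : DthStmt := by
  intro M d N R q k l θ hk hN hl hθ
  obtain ⟨C, hC, hB⟩ := hFunB k hk
  obtain ⟨A, C', hA, hC', hBd⟩ := hBnd M d N R q (θ / 2) (3 * θ / 2) hN (by positivity)
    (by linarith)
  have hc : 0 < (θ / 2) ^ 2 := by positivity
  obtain ⟨hI0, hmaj⟩ := hMaj M d A ((θ / 2) ^ 2) hc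
  obtain ⟨hI1, -⟩ := hMaj M d (A + 1) ((θ / 2) ^ 2) hc
  have hcR : Continuous (fun x : E M × E d => rho x) := (hCts M d N R q l θ hN hl).1
  have hcT : ∀ s, Continuous (TT R q l s : E M × E d → ℝ) :=
    fun s => (hCts M d N R q l s hN hl).2.1
  have hcTth : ∀ s, Continuous (Tth R q l s : E M × E d → ℝ) :=
    fun s => (hCts M d N R q l s hN hl).2.2.2.1
  have hcF : ∀ s, Continuous (fun x : E M × E d => rho x * hh k (TT R q l s x)) :=
    fun s => hcR.mul ((Dth_hh_cont hFunA k hk).comp (hcT s))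
  have hcF' : ∀ s, Continuous
      (fun x : E M × E d => rho x * (dhh k (TT R q l s x) * Tth R q l s x)) :=
    fun s => hcR.mul (((Dth_dhh_cont hFunA k hk).comp (hcT s)).mul (hcTth s))
  have hr0 : ∀ x : E M × E d, 0 < rho x := fun x => Real.exp_pos _
  refine hasDerivAt_integral_of_dominated_loc_of_deriv_le
    (μ := (volume : Measure (E M × E d)))
    (F := fun s x => rho x * hh k (TT R q l s x))
    (F' := fun s x => rho x * (dhh k (TT R q l s x) * Tth R q l s x))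
    (bound := fun x => (5 * C * C' * C' * 4) * maj (A + 1) ((θ / 2) ^ 2) x)
    (s := Icc (θ / 2) (3 * θ / 2)) ?_ ?_ ?_ ?_ ?_ ?_ ?_
  · exact Icc_mem_nhds (by linarith) (by linarith)
  · exact Eventually.of_forall fun s => (hcF s).aestronglyMeasurable
  · refine Integrable.mono' (hI0.const_mul (C * C')) (hcF θ).aestronglyMeasurable
      (Eventually.of_forall fun x => ?_)
    obtain ⟨-, -, -, h4, h5⟩ := hB (TT R q l θ x) 1 zero_le_one
    rw [one_mul] at h5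
    have h6 := (hBd l θ x hl (by linarith) (by linarith)).1
    rw [Real.norm_of_nonneg (mul_nonneg (hr0 x).le h4)]
    calc rho x * hh k (TT R q l θ x) ≤ rho x * (C * Real.exp (TT R q l θ x)) :=
          mul_le_mul_of_nonneg_left h5 (hr0 x).le
      _ = C * (rho x * Real.exp (TT R q l θ x)) := by ring
      _ ≤ C * (C' * maj A ((θ / 2) ^ 2) x) := mul_le_mul_of_nonneg_left h6 hC.le
      _ = C * C' * maj A ((θ / 2) ^ 2) x := by ring
  · exact (hcF' θ).aestronglyMeasurable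
  · refine Eventually.of_forall fun x s hs => ?_
    obtain ⟨h1, h2, h3, -, -⟩ := hB (TT R q l s x) 1 zero_le_one
    rw [one_mul] at h2 h3
    obtain ⟨h6, -, h7, -⟩ := hBd l s x hl hs.1 hs.2
    have h8 : |dhh k (TT R q l s x)| ≤ 5 * C * Real.exp (TT R q l s x) := by
      have h9 : |ph k (TT R q l s x)| ≤ C * Real.exp (TT R q l s x) := by
        rw [abs_of_nonneg h1]; exact h2
      calc |dhh k (TT R q l s x)| ≤ |ph k (TT R q l s x)| + |4 * dph k (TT R q l s x)| :=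
            abs_add_le _ _
        _ = |ph k (TT R q l s x)| + 4 * |dph k (TT R q l s x)| := by
            rw [abs_mul, abs_of_pos (by norm_num : (0 : ℝ) < 4)]
        _ ≤ C * Real.exp (TT R q l s x) + 4 * (C * Real.exp (TT R q l s x)) := by
            linarith
        _ = 5 * C * Real.exp (TT R q l s x) := by ring
    have h10 : 0 ≤ (1 + ‖x.1‖ + ‖x.2‖) ^ 2 := by positivity
    have h11 := hmaj x
    rw [Real.norm_eq_abs, abs_mul, abs_mul, abs_of_pos (hr0 x)]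
    calc rho x * (|dhh k (TT R q l s x)| * |Tth R q l s x|)
        ≤ rho x * ((5 * C * Real.exp (TT R q l s x)) * (C' * (1 + ‖x.1‖ + ‖x.2‖) ^ 2)) := by
          refine mul_le_mul_of_nonneg_left ?_ (hr0 x).le
          exact mul_le_mul h8 h7 (abs_nonneg _) (by positivity)
      _ = (5 * C * C' * (1 + ‖x.1‖ + ‖x.2‖) ^ 2) * (rho x * Real.exp (TT R q l s x)) := by ring
      _ ≤ (5 * C * C' * (1 + ‖x.1‖ + ‖x.2‖) ^ 2) * (C' * maj A ((θ / 2) ^ 2) x) :=
          mul_le_mul_of_nonneg_left h6 (by positivity)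
      _ = (5 * C * C' * C') * ((1 + ‖x.1‖ + ‖x.2‖) ^ 2 * maj A ((θ / 2) ^ 2) x) := by ring
      _ ≤ (5 * C * C' * C') * (4 * maj (A + 1) ((θ / 2) ^ 2) x) :=
          mul_le_mul_of_nonneg_left h11 (by positivity)
      _ = (5 * C * C' * C' * 4) * maj (A + 1) ((θ / 2) ^ 2) x := by ring
  · exact hI1.const_mul _
  · refine Eventually.of_forall fun x s _ => ?_
    have h1 := (Dth_hh hFunA k hk (TT R q l s x)).comp s (Dth_TT hSoftB R q l hN hl x s)
    exact h1.const_mul (rho x)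

end Pool.Agent.Lib.MP_0c1c75_co.TG
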