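import Pool.Agent.Lib.MP_0c1c75_co.TG.Spec

/-!
MP_0c1c75_co, project TG (Theorem G): module FunA, calculus of `v_+^k e^{-v/2}`.
-/

set_option autoImplicit false

open MeasureTheory Set Filter Topology
open scoped RealInnerProductSpace

namespace Pool.Agent.Lib.MP_0c1c75_co.TG

private lemma FunA_s_deriv (k : ℝ) (hk : 1 < k) (v : ℝ) :
    HasDerivAt (fun t : ℝ => (max t 0) ^ k) (k * (max v 0) ^ (k - 1)) v := by
  rcases lt_trichotomy v 0 with hv | hv | hv
  · have h1 : k * (max v 0) ^ (k - 1) = 0 := by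
      rw [max_eq_right hv.le, Real.zero_rpow (by linarith), mul_zero]
    rw [h1]
    have h2 : (fun t : ℝ => (max t 0) ^ k) =ᶠ[𝓝 v] fun _ => (0 : ℝ) := by
      filter_upwards [Iio_mem_nhds hv] with t ht
      have ht' : t < 0 := ht
      show (max t 0) ^ k = 0
      rw [max_eq_right ht'.le, Real.zero_rpow (by linarith)]
    exact (hasDerivAt_const v (0 : ℝ)).congr_of_eventuallyEq h2
  · subst hv
    have h1 : k * (max (0 : ℝ) 0) ^ (k - 1) = 0 := by
      rw [max_self, Real.zero_rpow (by linarith), mul_zero]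
    rw [h1, hasDerivAt_iff_isLittleO]
    have h0 : (max (0 : ℝ) 0) ^ k = 0 := by
      rw [max_self, Real.zero_rpow (by linarith)]
    simp only [h0, sub_zero, smul_zero]
    have hlim : Tendsto (fun t : ℝ => |t| ^ (k - 1)) (𝓝 0) (𝓝 0) := by
      have hc : Continuous (fun t : ℝ => |t| ^ (k - 1)) :=
        continuous_abs.rpow_const (fun _ => Or.inr (by linarith))
      have := hc.tendsto 0
      rwa [abs_zero, Real.zero_rpow (by linarith : k - 1 ≠ 0)] at this
    rw [Asymptotics.isLittleO_iff]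
    intro c hc
    have h3 : ∀ᶠ t : ℝ in 𝓝 0, |t| ^ (k - 1) < c := hlim.eventually (gt_mem_nhds hc)
    filter_upwards [h3] with t ht
    rw [Real.norm_eq_abs, Real.norm_eq_abs]
    have hm : 0 ≤ max t 0 := le_max_right _ _
    have hm' : max t 0 ≤ |t| := max_le (le_abs_self t) (abs_nonneg t)
    rw [abs_of_nonneg (Real.rpow_nonneg hm k)]
    have h4 : (max t 0) ^ k ≤ |t| ^ k := Real.rpow_le_rpow hm hm' (by linarith)
    have h5 : |t| ^ k = |t| ^ (k - 1) * |t| := by
      rcases eq_or_lt_of_le (abs_nonneg t) with h | h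
      · rw [← h, mul_zero, Real.zero_rpow (by linarith)]
      · rw [← Real.rpow_add_one h.ne']
        ring_nf
    rw [h5] at h4
    exact h4.trans (mul_le_mul_of_nonneg_right ht.le (abs_nonneg t))
  · have h1 : HasDerivAt (fun t : ℝ => t ^ k) (k * v ^ (k - 1)) v :=
      Real.hasDerivAt_rpow_const (Or.inl hv.ne')
    rw [max_eq_left hv.le]
    have h2 : (fun t : ℝ => (max t 0) ^ k) =ᶠ[𝓝 v] fun t => t ^ k := by
      filter_upwards [Ioi_mem_nhds hv] with t ht
      have ht' : 0 < t := ht
      show (max t 0) ^ k = t ^ k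
      rw [max_eq_left ht'.le]
    exact h1.congr_of_eventuallyEq h2

private lemma FunA_s_cont (a : ℝ) (ha : 0 < a) : Continuous (fun t : ℝ => (max t 0) ^ a) :=
  (continuous_id.max continuous_const).rpow_const (fun _ => Or.inr ha.le)

private lemma FunA_exp_deriv (v : ℝ) :
    HasDerivAt (fun t : ℝ => Real.exp (-(t / 2))) (Real.exp (-(v / 2)) * (-(1 / 2))) v := by
  have h : HasDerivAt (fun t : ℝ => -(t / 2)) (-(1 / 2)) v :=
    ((hasDerivAt_id v).div_const 2).neg
  exact h.exp

private lemma FunA_ph_deriv (k : ℝ) (hk : 1 < k) (v : ℝ) : HasDerivAt (ph k) (dph k v) v := by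
  have h := (FunA_s_deriv k hk v).mul (FunA_exp_deriv v)
  have e : dph k v = k * (max v 0) ^ (k - 1) * Real.exp (-(v / 2)) +
      (max v 0) ^ k * (Real.exp (-(v / 2)) * (-(1 / 2))) := by
    unfold dph
    ring
  rw [e]
  exact h

private lemma FunA_exp_cont : Continuous (fun t : ℝ => Real.exp (-(t / 2))) := by
  fun_prop

private lemma FunA_ph_cont (k : ℝ) (hk : 1 < k) : Continuous (ph k) :=
  (FunA_s_cont k (by linarith)).mul FunA_exp_cont

private lemma FunA_dph_cont (k : ℝ) (hk : 1 < k) : Continuous (dph k) :=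
  (((FunA_s_cont (k - 1) (by linarith)).const_mul k).sub
    ((FunA_s_cont k (by linarith)).div_const 2)).mul FunA_exp_cont

private lemma FunA_Ph_deriv (k : ℝ) (hk : 1 < k) (v : ℝ) : HasDerivAt (Ph k) (ph k v) v := by
  have hc := FunA_ph_cont k hk
  exact intervalIntegral.integral_hasDerivAt_right (hc.intervalIntegrable 0 v)
    hc.aestronglyMeasurable.stronglyMeasurableAtFilter hc.continuousAt

private lemma FunA_mul (k : ℝ) (hk : 1 < k) (v : ℝ) :
    v * (max v 0) ^ (k - 1) = (max v 0) ^ k := by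
  rcases le_or_gt v 0 with hv | hv
  · rw [max_eq_right hv, Real.zero_rpow (by linarith), Real.zero_rpow (by linarith), mul_zero]
  · rw [max_eq_left hv.le, mul_comm, ← Real.rpow_add_one hv.ne']
    ring_nf

theorem tFunA : FunAStmt := by
  intro k hk
  refine ⟨FunA_ph_deriv k hk, FunA_Ph_deriv k hk, FunA_ph_cont k hk, FunA_dph_cont k hk,
    ?_, ?_, ?_, ?_⟩
  · exact continuous_iff_continuousAt.2 fun v => (FunA_Ph_deriv k hk v).continuousAt
  · intro v
    exact mul_nonneg (Real.rpow_nonneg (le_max_right _ _) _) (Real.exp_pos _).le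
  · intro v
    have e : ph k v + 2 * dph k v =
        2 * k * (max v 0) ^ (k - 1) * Real.exp (-(v / 2)) := by
      unfold ph dph
      ring
    rw [e]
    have h1 : 0 ≤ (max v 0) ^ (k - 1) := Real.rpow_nonneg (le_max_right _ _) _
    have h2 : 0 ≤ 2 * k := by linarith
    exact mul_nonneg (mul_nonneg h2 h1) (Real.exp_pos _).le
  · intro v
    have e := FunA_mul k hk v
    unfold ph dph
    have : 2 * v * ((k * (max v 0) ^ (k - 1) - (max v 0) ^ k / 2) * Real.exp (-(v / 2))) =
        (2 * k * (v * (max v 0) ^ (k - 1)) - v * (max v 0) ^ k) * Real.exp (-(v / 2)) := by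
      ring
    rw [this, e]
    ring

end Pool.Agent.Lib.MP_0c1c75_co.TG
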