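import Pool.Agent.Lib.MP_0c1c75_co.TG.Spec

/-!
MP_0c1c75_co, project TG: module FunB (exponential bounds).
-/

set_option autoImplicit false

namespace Pool.Agent.Lib.MP_0c1c75_co.TG

open MeasureTheory Set Filter Topology
open scoped RealInnerProductSpace

private lemma FunB_pow (a v : ℝ) (ha : 0 ≤ a) (hv : 0 ≤ v) :
    v ^ a * Real.exp (-(v / 2)) ≤ (4 * (a + 1)) ^ a * Real.exp (-(v / 4)) := by
  have hc : 0 < 4 * (a + 1) := by linarith
  have h1 : v ≤ 4 * (a + 1) * Real.exp (v / (4 * (a + 1))) := by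
    have h2 : v / (4 * (a + 1)) ≤ Real.exp (v / (4 * (a + 1))) := by
      have := Real.add_one_le_exp (v / (4 * (a + 1)))
      linarith
    have h3 := mul_le_mul_of_nonneg_left h2 hc.le
    rwa [mul_div_cancel₀ v hc.ne'] at h3
  have h4 : v ^ a ≤ (4 * (a + 1)) ^ a * Real.exp (v / (4 * (a + 1)) * a) := by
    refine (Real.rpow_le_rpow hv h1 ha).trans (le_of_eq ?_)
    rw [Real.mul_rpow hc.le (Real.exp_pos _).le, ← Real.exp_mul]
  have h5 : v / (4 * (a + 1)) * a ≤ v / 4 := by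
    have h6 : v / (4 * (a + 1)) * a = v / 4 * (a / (a + 1)) := by
      field_simp
    rw [h6]
    have h7 : a / (a + 1) ≤ 1 := by
      rw [div_le_one (by linarith)]
      linarith
    exact mul_le_of_le_one_right (by linarith) h7
  have h8 : v ^ a ≤ (4 * (a + 1)) ^ a * Real.exp (v / 4) :=
    h4.trans (mul_le_mul_of_nonneg_left (Real.exp_le_exp.2 h5) (Real.rpow_nonneg hc.le _))
  have h9 := mul_le_mul_of_nonneg_right h8 (Real.exp_pos (-(v / 2))).le
  have h10 : (4 * (a + 1)) ^ a * Real.exp (v / 4) * Real.exp (-(v / 2)) =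
      (4 * (a + 1)) ^ a * Real.exp (-(v / 4)) := by
    rw [mul_assoc, ← Real.exp_add]
    congr 2
    ring
  rw [h10] at h9
  exact h9

private lemma FunB_cont (k : ℝ) (hk : 1 < k) : Continuous (ph k) := by
  have h1 : Continuous (fun v : ℝ => (max v 0) ^ k) :=
    (continuous_id.max continuous_const).rpow_const (fun _ => Or.inr (by linarith))
  have h2 : Continuous (fun v : ℝ => Real.exp (-(v / 2))) := by fun_prop
  exact h1.mul h2

private lemma FunB_nonneg (k v : ℝ) : 0 ≤ ph k v :=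
  mul_nonneg (Real.rpow_nonneg (le_max_right _ _) _) (Real.exp_pos _).le

private lemma FunB_zero (k v : ℝ) (hk : 1 < k) (hv : v ≤ 0) :
    ph k v = 0 ∧ dph k v = 0 := by
  have h1 : (0 : ℝ) ^ k = 0 := Real.zero_rpow (by linarith)
  have h2 : (0 : ℝ) ^ (k - 1) = 0 := Real.zero_rpow (by linarith)
  constructor
  · rw [ph, max_eq_right hv, h1, zero_mul]
  · rw [dph, max_eq_right hv, h1, h2, mul_zero, zero_div, sub_zero, zero_mul]

private lemma FunB_Ph0 (k v : ℝ) (hk : 1 < k) (hv : v ≤ 0) : Ph k v = 0 := by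
  rw [Ph, intervalIntegral.integral_congr (g := fun _ => (0 : ℝ))]
  · simp
  · intro t ht
    rw [uIcc_of_ge hv] at ht
    exact (FunB_zero k t hk ht.2).1

private lemma FunB_phle (k v : ℝ) (hk : 1 < k) (hv : 0 ≤ v) :
    ph k v ≤ (4 * (k + 1)) ^ k * Real.exp (-(v / 4)) := by
  rw [ph, max_eq_left hv]
  exact FunB_pow k v (by linarith) hv

private lemma FunB_Phle (k v : ℝ) (hk : 1 < k) (hv : 0 ≤ v) :
    Ph k v ≤ 4 * (4 * (k + 1)) ^ k := by
  set c : ℝ := (4 * (k + 1)) ^ k with hc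
  have hc0 : 0 ≤ c := Real.rpow_nonneg (by linarith) _
  have hcont : Continuous (fun t : ℝ => c * Real.exp (-(t / 4))) := by fun_prop
  have h1 : Ph k v ≤ ∫ t in (0 : ℝ)..v, c * Real.exp (-(t / 4)) := by
    rw [Ph]
    exact intervalIntegral.integral_mono_on hv ((FunB_cont k hk).intervalIntegrable _ _)
      (hcont.intervalIntegrable _ _) (fun t ht => FunB_phle k t hk ht.1)
  have h2 : ∀ t : ℝ, HasDerivAt (fun t : ℝ => -4 * c * Real.exp (-(t / 4)))
      (c * Real.exp (-(t / 4))) t := by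
    intro t
    have h3 : HasDerivAt (fun t : ℝ => -(t / 4)) (-(1 / 4)) t :=
      ((hasDerivAt_id t).div_const 4).neg
    have h4 := (h3.exp).const_mul (-4 * c)
    have h5 : -4 * c * (Real.exp (-(t / 4)) * -(1 / 4)) = c * Real.exp (-(t / 4)) := by ring
    rw [h5] at h4
    exact h4
  have h3 : ∫ t in (0 : ℝ)..v, c * Real.exp (-(t / 4)) =
      -4 * c * Real.exp (-(v / 4)) - -4 * c * Real.exp (-(0 / 4)) :=
    intervalIntegral.integral_eq_sub_of_hasDerivAt (fun t _ => h2 t)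
      (hcont.intervalIntegrable _ _)
  rw [h3] at h1
  have h4 : Real.exp (-((0 : ℝ) / 4)) = 1 := by simp
  rw [h4] at h1
  have h5 : 0 ≤ c * Real.exp (-(v / 4)) := mul_nonneg hc0 (Real.exp_pos _).le
  linarith

private lemma FunB_Phnn (k v : ℝ) (hv : 0 ≤ v) : 0 ≤ Ph k v := by
  rw [Ph]
  exact intervalIntegral.integral_nonneg hv (fun t _ => FunB_nonneg k t)

private lemma FunB_dph (k v : ℝ) (hk : 1 < k) (hv : 0 ≤ v) :
    |dph k v| ≤ k * (4 * (k - 1 + 1)) ^ (k - 1) + (4 * (k + 1)) ^ k := by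
  have e1 : Real.exp (-(v / 4)) ≤ 1 := Real.exp_le_one_iff.2 (by linarith)
  have p1 := FunB_pow (k - 1) v (by linarith) hv
  have p2 := FunB_pow k v (by linarith) hv
  have c1 : (0 : ℝ) ≤ (4 * (k - 1 + 1)) ^ (k - 1) := Real.rpow_nonneg (by linarith) _
  have c2 : (0 : ℝ) ≤ (4 * (k + 1)) ^ k := Real.rpow_nonneg (by linarith) _
  have q1 : (4 * (k - 1 + 1)) ^ (k - 1) * Real.exp (-(v / 4)) ≤ (4 * (k - 1 + 1)) ^ (k - 1) :=
    mul_le_of_le_one_right c1 e1
  have q2 : (4 * (k + 1)) ^ k * Real.exp (-(v / 4)) ≤ (4 * (k + 1)) ^ k :=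
    mul_le_of_le_one_right c2 e1
  have n1 : 0 ≤ v ^ (k - 1) * Real.exp (-(v / 2)) :=
    mul_nonneg (Real.rpow_nonneg hv _) (Real.exp_pos _).le
  have n2 : 0 ≤ v ^ k * Real.exp (-(v / 2)) :=
    mul_nonneg (Real.rpow_nonneg hv _) (Real.exp_pos _).le
  have e2 : dph k v = k * (v ^ (k - 1) * Real.exp (-(v / 2))) -
      (v ^ k * Real.exp (-(v / 2))) / 2 := by
    rw [dph, max_eq_left hv]
    ring
  have m1 : k * (v ^ (k - 1) * Real.exp (-(v / 2))) ≤ k * (4 * (k - 1 + 1)) ^ (k - 1) :=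
    mul_le_mul_of_nonneg_left (p1.trans q1) (by linarith)
  have m2 : 0 ≤ k * (v ^ (k - 1) * Real.exp (-(v / 2))) := mul_nonneg (by linarith) n1
  rw [e2, abs_le]
  constructor
  · have := p2.trans q2
    nlinarith [mul_nonneg (by linarith : (0 : ℝ) ≤ k) c1]
  · linarith

theorem tFunB : FunBStmt := by
  intro k hk
  set c : ℝ := (4 * (k + 1)) ^ k with hc
  set c' : ℝ := (4 * (k - 1 + 1)) ^ (k - 1) with hc'
  have c0 : 0 < c := Real.rpow_pos_of_pos (by linarith) _
  have c0' : 0 < c' := Real.rpow_pos_of_pos (by linarith) _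
  have kc : 0 < k * c' := mul_pos (by linarith) c0'
  have hC : 0 < 8 * c + k * c' := by linarith
  refine ⟨8 * c + k * c', hC, ?_⟩
  intro v s hs
  rcases le_total v 0 with hv | hv
  · obtain ⟨z1, z2⟩ := FunB_zero k v hk hv
    have z3 : hh k v = 0 := by rw [hh, FunB_Ph0 k v hk hv, z1, mul_zero, add_zero]
    have hpos : 0 ≤ (8 * c + k * c') * Real.exp (s * v) := mul_nonneg hC.le (Real.exp_pos _).le
    rw [z1, z2, z3, abs_zero]
    exact ⟨le_rfl, hpos, hpos, le_rfl, hpos⟩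
  · have he : 1 ≤ Real.exp (s * v) := Real.one_le_exp (mul_nonneg hs hv)
    have hup : 8 * c + k * c' ≤ (8 * c + k * c') * Real.exp (s * v) :=
      le_mul_of_one_le_right hC.le he
    have e1 : Real.exp (-(v / 4)) ≤ 1 := Real.exp_le_one_iff.2 (by linarith)
    have b1 : ph k v ≤ c := (FunB_phle k v hk hv).trans (mul_le_of_le_one_right c0.le e1)
    have b2 : |dph k v| ≤ k * c' + c := FunB_dph k v hk hv
    have b3 : Ph k v ≤ 4 * c := FunB_Phle k v hk hv
    have n1 := FunB_nonneg k v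
    have n2 := FunB_Phnn k v hv
    refine ⟨n1, ?_, ?_, ?_, ?_⟩
    · linarith
    · linarith
    · rw [hh]
      linarith
    · rw [hh]
      linarith

end Pool.Agent.Lib.MP_0c1c75_co.TG
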