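import Pool.Agent.Lib.MP_0c1c75_co.TG.Spec

set_option autoImplicit false

open MeasureTheory Set Filter Topology
open scoped RealInnerProductSpace

namespace Pool.Agent.Lib.MP_0c1c75_co.TG

private theorem FunC_eq (k t : ℝ) (ht : 0 < t) :
    ph k t = t ^ (k + 1 - 1) * Real.exp (-((1 / 2) * t)) := by
  have h1 : k + 1 - 1 = k := by ring
  have h2 : (1 / 2) * t = t / 2 := by ring
  rw [ph, max_eq_left ht.le, h1, h2]

private theorem FunC_int (k : ℝ) (hk : 1 < k) :
    ∫ t in Ioi (0 : ℝ), ph k t = (1 / (1 / 2) : ℝ) ^ (k + 1) * Real.Gamma (k + 1) := by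
  rw [← Real.integral_rpow_mul_exp_neg_mul_Ioi (by linarith) (by norm_num)]
  exact setIntegral_congr_fun measurableSet_Ioi (fun t ht => FunC_eq k t ht)

theorem tFunC : FunCStmt := by
  intro k hk
  have hpos : 0 < (1 / (1 / 2) : ℝ) ^ (k + 1) * Real.Gamma (k + 1) := by
    have h0 := Real.Gamma_pos_of_pos (show 0 < k + 1 by linarith)
    positivity
  refine ⟨_, hpos, ?_⟩
  have hint : IntegrableOn (ph k) (Ioi 0) := by
    by_contra h
    have h1 := FunC_int k hk
    rw [integral_undef h] at h1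
    linarith
  have h1 : Tendsto (Ph k) atTop (𝓝 ((1 / (1 / 2) : ℝ) ^ (k + 1) * Real.Gamma (k + 1))) := by
    rw [← FunC_int k hk]
    exact intervalIntegral_tendsto_integral_Ioi 0 hint tendsto_id
  have h2 : Tendsto (ph k) atTop (𝓝 0) := by
    have h3 := tendsto_rpow_mul_exp_neg_mul_atTop_nhds_zero k (1 / 2) (by norm_num)
    refine h3.congr' ?_
    filter_upwards [eventually_gt_atTop (0 : ℝ)] with t ht
    have h4 : -(1 / 2) * t = -(t / 2) := by ring
    rw [ph, max_eq_left ht.le, h4]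
  have h4 := h1.add (h2.const_mul 4)
  rw [mul_zero, add_zero] at h4
  exact h4

end Pool.Agent.Lib.MP_0c1c75_co.TG
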