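import Pool.Agent.Lib.MP_0c1c75_co.TG.Spec

/-!
MP_0c1c75_co, project TG: module FunD (the behaviour of hh at 0).
-/

set_option autoImplicit false

namespace Pool.Agent.Lib.MP_0c1c75_co.TG

open MeasureTheory Set Filter Topology
open scoped RealInnerProductSpace

private lemma FunD_cont (k : ℝ) (hk : 1 < k) : Continuous (ph k) := by
  have h1 : Continuous (fun v : ℝ => (max v 0) ^ k) :=
    (continuous_id.max continuous_const).rpow_const (fun _ => Or.inr (by linarith))
  have h2 : Continuous (fun v : ℝ => Real.exp (-(v / 2))) := by fun_prop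
  exact h1.mul h2

private lemma FunD_nonneg (k v : ℝ) : 0 ≤ ph k v :=
  mul_nonneg (Real.rpow_nonneg (le_max_right _ _) _) (Real.exp_pos _).le

private lemma FunD_zero (k v : ℝ) (hk : 1 < k) (hv : v ≤ 0) : ph k v = 0 := by
  rw [ph, max_eq_right hv, Real.zero_rpow (by linarith), zero_mul]

private lemma FunD_Ph0 (k v : ℝ) (hk : 1 < k) (hv : v ≤ 0) : Ph k v = 0 := by
  rw [Ph, intervalIntegral.integral_congr (g := fun _ => (0 : ℝ))]
  · simp
  · intro t ht
    rw [uIcc_of_ge hv] at ht
    exact FunD_zero k t hk ht.2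

private lemma FunD_Phnn (k v : ℝ) (hk : 1 < k) : 0 ≤ Ph k v := by
  rcases le_total v 0 with hv | hv
  · exact (FunD_Ph0 k v hk hv).ge
  · exact intervalIntegral.integral_nonneg hv (fun t _ => FunD_nonneg k t)

private lemma FunD_int (c v : ℝ) :
    ∫ t in (0 : ℝ)..v, c * Real.exp (-(t / 2)) = 2 * c * (1 - Real.exp (-(v / 2))) := by
  have h : ∀ t ∈ uIcc (0 : ℝ) v, HasDerivAt (fun t : ℝ => -(2 * c) * Real.exp (-(t / 2)))
      (c * Real.exp (-(t / 2))) t := by
    intro t _
    have h1 : HasDerivAt (fun t : ℝ => -(t / 2)) (-(1 / 2)) t :=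
      ((hasDerivAt_id t).div_const 2).neg
    have h2 := h1.exp.const_mul (-(2 * c))
    have h3 : -(2 * c) * (Real.exp (-(t / 2)) * -(1 / 2)) = c * Real.exp (-(t / 2)) := by ring
    rw [h3] at h2
    exact h2
  rw [intervalIntegral.integral_eq_sub_of_hasDerivAt h
    (Continuous.intervalIntegrable (by fun_prop) _ _)]
  simp only [zero_div, neg_zero, Real.exp_zero]
  ring

/-- pointwise on `[0, v]`: `ph k t ≤ v ^ k * exp (-(t / 2))` -/
private lemma FunD_pt (k v t : ℝ) (hk : 1 < k) (ht : t ∈ Icc 0 v) :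
    ph k t ≤ v ^ k * Real.exp (-(t / 2)) := by
  rw [ph, max_eq_left ht.1]
  exact mul_le_mul_of_nonneg_right (Real.rpow_le_rpow ht.1 ht.2 (by linarith))
    (Real.exp_pos _).le

private lemma FunD_Phle (k v : ℝ) (hk : 1 < k) :
    Ph k v ≤ 2 * (max v 0) ^ k ∧ Ph k v ≤ max v 0 * (max v 0) ^ k := by
  rcases le_total v 0 with hv | hv
  · rw [FunD_Ph0 k v hk hv]
    have h0 : (0 : ℝ) ≤ max v 0 := le_max_right _ _
    exact ⟨mul_nonneg (by norm_num) (Real.rpow_nonneg h0 _), mul_nonneg h0 (Real.rpow_nonneg h0 _)⟩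
  · rw [max_eq_left hv]
    have hvk : 0 ≤ v ^ k := Real.rpow_nonneg hv _
    have hi : IntervalIntegrable (ph k) volume 0 v := (FunD_cont k hk).intervalIntegrable _ _
    constructor
    · have h1 : Ph k v ≤ ∫ t in (0 : ℝ)..v, v ^ k * Real.exp (-(t / 2)) := by
        rw [Ph]
        exact intervalIntegral.integral_mono_on hv hi
          (Continuous.intervalIntegrable (by fun_prop) _ _) (fun t ht => FunD_pt k v t hk ht)
      rw [FunD_int] at h1
      have h2 : 0 < Real.exp (-(v / 2)) := Real.exp_pos _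
      nlinarith [mul_nonneg hvk h2.le]
    · have h1 : Ph k v ≤ ∫ _t in (0 : ℝ)..v, v ^ k := by
        rw [Ph]
        refine intervalIntegral.integral_mono_on hv hi
          (Continuous.intervalIntegrable (by fun_prop) _ _) (fun t ht => ?_)
        refine (FunD_pt k v t hk ht).trans ?_
        refine mul_le_of_le_one_right hvk ?_
        rw [Real.exp_le_one_iff]
        linarith [ht.1]
      rw [intervalIntegral.integral_const, smul_eq_mul, sub_zero] at h1
      exact h1

private lemma FunD_max (t u : ℝ) (ht : 0 < t) : max (t * u) 0 = t * max u 0 := by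
  rw [mul_max_of_nonneg _ _ ht.le, mul_zero]

private lemma FunD_pow (k t u : ℝ) (ht : 0 < t) :
    (max (t * u) 0) ^ k / t ^ k = (max u 0) ^ k := by
  rw [FunD_max t u ht, Real.mul_rpow ht.le (le_max_right _ _)]
  exact mul_div_cancel_left₀ _ (Real.rpow_pos_of_pos ht k).ne'

private lemma FunD_ph (k t u : ℝ) (ht : 0 < t) :
    ph k (t * u) / t ^ k = (max u 0) ^ k * Real.exp (-(t * u / 2)) := by
  rw [ph, mul_div_right_comm, FunD_pow k t u ht]

private lemma FunD_expb (k u : ℝ) (hk : 1 < k) : (max u 0) ^ k ≤ k ^ k * Real.exp u := by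
  have hk0 : 0 < k := by linarith
  rcases le_total u 0 with hu | hu
  · rw [max_eq_right hu, Real.zero_rpow hk0.ne']
    exact mul_nonneg (Real.rpow_nonneg hk0.le _) (Real.exp_pos _).le
  · rw [max_eq_left hu]
    have h1 : u ≤ k * Real.exp (u / k) := by
      have h2 : u / k ≤ Real.exp (u / k) := by
        have := Real.add_one_le_exp (u / k)
        linarith
      have h3 := mul_le_mul_of_nonneg_left h2 hk0.le
      rwa [mul_div_cancel₀ u hk0.ne'] at h3
    refine (Real.rpow_le_rpow hu h1 hk0.le).trans (le_of_eq ?_)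
    rw [Real.mul_rpow hk0.le (Real.exp_pos _).le, ← Real.exp_mul, div_mul_cancel₀ u hk0.ne']

theorem tFunD : FunDStmt := by
  intro k hk
  have hk0 : 0 < k := by linarith
  refine ⟨⟨6 * k ^ k, mul_pos (by norm_num) (Real.rpow_pos_of_pos hk0 _), ?_⟩, ?_⟩
  · intro t u ht
    have htk : 0 < t ^ k := Real.rpow_pos_of_pos ht k
    have h1 : hh k (t * u) ≤ 6 * (max (t * u) 0) ^ k := by
      have h2 := (FunD_Phle k (t * u) hk).1
      have h3 : ph k (t * u) ≤ (max (t * u) 0) ^ k := by
        rcases le_total (t * u) 0 with hv | hv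
        · rw [FunD_zero k _ hk hv]
          exact Real.rpow_nonneg (le_max_right _ _) _
        · rw [ph]
          refine mul_le_of_le_one_right (Real.rpow_nonneg (le_max_right _ _) _) ?_
          rw [Real.exp_le_one_iff]
          linarith
      rw [hh]
      linarith
    have h4 : hh k (t * u) / t ^ k ≤ 6 * (max u 0) ^ k := by
      refine (div_le_div_of_nonneg_right h1 htk.le).trans (le_of_eq ?_)
      rw [mul_div_assoc, FunD_pow k t u ht]
    refine h4.trans ?_
    have h5 := FunD_expb k u hk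
    nlinarith
  · intro t u U ht htz hu
    have hmax : Tendsto (fun n => max (u n) 0) atTop (𝓝 (max U 0)) :=
      hu.max tendsto_const_nhds
    have hpw : Tendsto (fun n => (max (u n) 0) ^ k) atTop (𝓝 ((max U 0) ^ k)) :=
      hmax.rpow_const (Or.inr hk0.le)
    have hexp : Tendsto (fun n => Real.exp (-(t n * u n / 2))) atTop (𝓝 1) := by
      have h1 : Tendsto (fun n => -(t n * u n / 2)) atTop (𝓝 (-(0 * U / 2))) :=
        ((htz.mul hu).div_const 2).neg
      have h2 := (Real.continuous_exp.tendsto _).comp h1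
      rw [zero_mul, zero_div, neg_zero, Real.exp_zero] at h2
      exact h2
    have hA : Tendsto (fun n => 4 * (ph k (t n * u n) / (t n) ^ k)) atTop
        (𝓝 (4 * (max U 0) ^ k)) := by
      have h1 := (hpw.mul hexp).const_mul 4
      rw [mul_one] at h1
      refine h1.congr (fun n => ?_)
      rw [FunD_ph k (t n) (u n) (ht n)]
    have hB : Tendsto (fun n => Ph k (t n * u n) / (t n) ^ k) atTop (𝓝 0) := by
      have h1 : Tendsto (fun n => t n * (max (u n) 0 * (max (u n) 0) ^ k)) atTop (𝓝 0) := by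
        have h2 := htz.mul (hmax.mul hpw)
        rw [zero_mul] at h2
        exact h2
      refine squeeze_zero (fun n => ?_) (fun n => ?_) h1
      · exact div_nonneg (FunD_Phnn k _ hk) (Real.rpow_pos_of_pos (ht n) k).le
      · refine (div_le_div_of_nonneg_right (FunD_Phle k (t n * u n) hk).2
          (Real.rpow_pos_of_pos (ht n) k).le).trans (le_of_eq ?_)
        rw [mul_div_assoc, FunD_pow k (t n) (u n) (ht n), FunD_max (t n) (u n) (ht n), mul_assoc]
    have hC := hB.add hA
    rw [zero_add] at hC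
    refine hC.congr (fun n => ?_)
    rw [hh]
    ring

end Pool.Agent.Lib.MP_0c1c75_co.TG
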