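import Pool.Agent.Lib.MP_0c1c75_co.TG.SpecC

/-!
MP_0c1c75_co, project TG: module Gra (Theorem G in terms of matrices).
-/

set_option autoImplicit false

namespace Pool.Agent.Lib.MP_0c1c75_co.TG

open MeasureTheory Set Filter Topology
open scoped RealInnerProductSpace

theorem tGra (hG : GStmt) (hP : PsdStmt) : GraStmt := by
  intro d N p q r hd h
  rcases (⋂ i, Metric.closedBall (p i) (r i)).eq_empty_or_nonempty with he | hne
  · rw [he, measure_empty]
    exact zero_le
  obtain ⟨G, hG1, hG2, hG3⟩ := h hne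
  obtain ⟨R, hR⟩ := hP N G hG1
  obtain ⟨x, hx⟩ := hne
  rw [mem_iInter] at hx
  have hr : ∀ i, 0 ≤ r i := fun i => dist_nonneg.trans (Metric.mem_closedBall.1 (hx i))
  have hn : ∀ i, ‖R i‖ = r i := by
    intro i
    have h1 := hR i i
    rw [real_inner_self_eq_norm_sq, hG2] at h1
    exact (pow_left_inj₀ (norm_nonneg _) (hr i) two_ne_zero).1 h1
  have hdist : ∀ i j, dist (R i) (R j) ^ 2 = r i ^ 2 + r j ^ 2 - 2 * G i j := by
    intro i j
    rw [dist_eq_norm, norm_sub_sq_real, hn, hn, hR]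
    ring
  refine hG N d N p q R r hd hn ?_ ?_
  · intro i j
    refine (pow_le_pow_iff_left₀ dist_nonneg dist_nonneg two_ne_zero).1 ?_
    have h1 := (hG3 i j).2
    rw [hdist]
    linarith
  · intro i j
    refine (pow_le_pow_iff_left₀ dist_nonneg dist_nonneg two_ne_zero).1 ?_
    have h1 := (hG3 i j).1
    rw [hdist]
    linarith

end Pool.Agent.Lib.MP_0c1c75_co.TG
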