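import Pool.Agent.Lib.MP_0c1c75_co.TG.Spec

set_option autoImplicit false

namespace Pool.Agent.Lib.MP_0c1c75_co.TG
open MeasureTheory Set Filter Topology
open scoped RealInnerProductSpace

private lemma Ibp_bound {M d N : ℕ} (hB : FunBStmt) (hM : MajStmt) (hBd : BndStmt)
    (R : Fin N → E M) (q : Fin N → E d) (k l θ : ℝ) (v : E M × E d) (hk : 1 < k) (hN : 0 < N)
    (hl : 0 < l) (hθ : 0 < θ) : ∃ A C : ℝ, 0 < C ∧ ∀ x : E M × E d,
      |rho x * (ph k (TT R q l θ x) * T1 R q l θ x v)| ≤ C * maj A (θ ^ 2) x ∧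
      |rho x * JJ k R q l θ x v| ≤ C * maj A (θ ^ 2) x := by
  obtain ⟨C1, hC1, hB1⟩ := hB k hk
  obtain ⟨A, C2, hA, hC2, hB2⟩ := hBd M d N R q θ θ hN hθ le_rfl
  refine ⟨A + 1, C1 * C2 * (C2 * ‖v‖ + (C2 * ‖v‖) ^ 2 + C2 * (1 + l) * ‖v‖ ^ 2 +
    ‖v‖ * (C2 * ‖v‖)) * 4 + 1, by positivity, fun x => ?_⟩
  obtain ⟨b1, -, -, -, b5, b6⟩ := hB2 l θ x hl le_rfl le_rfl
  obtain ⟨f1, f2, f3, -, -⟩ := hB1 (TT R q l θ x) 1 zero_le_one
  have b5 := b5 v
  have b6 := b6 v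
  rw [one_mul] at f2 f3
  set s : ℝ := 1 + ‖x.1‖ + ‖x.2‖ with hs
  have hs1 : 1 ≤ s := by
    have := norm_nonneg x.1
    have := norm_nonneg x.2
    linarith
  have hr : 0 < rho x := Real.exp_pos _
  have hv := norm_nonneg v
  have he : 0 < Real.exp (TT R q l θ x) := Real.exp_pos _
  have hm : s ^ 2 * maj A (θ ^ 2) x ≤ 4 * maj (A + 1) (θ ^ 2) x :=
    (hM M d A (θ ^ 2) (by positivity)).2 x
  have hm0 : 0 < maj A (θ ^ 2) x := by unfold maj; positivity
  have hm1 : 0 < maj (A + 1) (θ ^ 2) x := by unfold maj; positivity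
  have hre : rho x * Real.exp (TT R q l θ x) ≤ C2 * maj A (θ ^ 2) x := b1
  -- general step
  have key : ∀ (u K : ℝ), 0 ≤ K → |u| ≤ (C1 * Real.exp (TT R q l θ x)) * (K * s ^ 2) →
      |rho x * u| ≤ C1 * C2 * K * 4 * maj (A + 1) (θ ^ 2) x := by
    intro u K hK hu
    rw [abs_mul, abs_of_pos hr]
    calc rho x * |u| ≤ rho x * ((C1 * Real.exp (TT R q l θ x)) * (K * s ^ 2)) :=
          mul_le_mul_of_nonneg_left hu hr.le
      _ = C1 * K * s ^ 2 * (rho x * Real.exp (TT R q l θ x)) := by ring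
      _ ≤ C1 * K * s ^ 2 * (C2 * maj A (θ ^ 2) x) :=
          mul_le_mul_of_nonneg_left hre (by positivity)
      _ = C1 * C2 * K * (s ^ 2 * maj A (θ ^ 2) x) := by ring
      _ ≤ C1 * C2 * K * (4 * maj (A + 1) (θ ^ 2) x) :=
          mul_le_mul_of_nonneg_left hm (by positivity)
      _ = _ := by ring
  have hss : s ≤ s ^ 2 := by nlinarith
  have h1s : 1 ≤ s ^ 2 := by nlinarith
  have hxv : |(⟪x.1, v.1⟫ : ℝ)| ≤ s * ‖v‖ := by
    have h1 := abs_real_inner_le_norm x.1 v.1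
    have h2 : ‖v.1‖ ≤ ‖v‖ := norm_fst_le v
    have h3 : ‖x.1‖ ≤ s := by
      have := norm_nonneg x.2
      linarith
    calc |(⟪x.1, v.1⟫ : ℝ)| ≤ ‖x.1‖ * ‖v.1‖ := h1
      _ ≤ s * ‖v‖ := mul_le_mul h3 h2 (norm_nonneg _) (by linarith)
  have hT1 : |T1 R q l θ x v| ≤ C2 * ‖v‖ * s := b5
  have hT1' : |T1 R q l θ x v| ^ 2 ≤ (C2 * ‖v‖) ^ 2 * s ^ 2 := by
    rw [← mul_pow]
    exact pow_le_pow_left₀ (abs_nonneg _) hT1 2
  have hph : |ph k (TT R q l θ x)| ≤ C1 * Real.exp (TT R q l θ x) := by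
    rw [abs_of_nonneg f1]; exact f2
  have hCe : 0 ≤ C1 * Real.exp (TT R q l θ x) := by positivity
  constructor
  · refine (key _ (C2 * ‖v‖) (by positivity) ?_).trans ?_
    · rw [abs_mul]
      refine mul_le_mul hph (hT1.trans ?_) (abs_nonneg _) hCe
      exact mul_le_mul_of_nonneg_left hss (by positivity)
    · refine mul_le_mul_of_nonneg_right ?_ hm1.le
      have : C1 * C2 * (C2 * ‖v‖) * 4 ≤ C1 * C2 * (C2 * ‖v‖ + (C2 * ‖v‖) ^ 2 +
          C2 * (1 + l) * ‖v‖ ^ 2 + ‖v‖ * (C2 * ‖v‖)) * 4 := by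
        have h0 : 0 ≤ C1 * C2 * ((C2 * ‖v‖) ^ 2 +
          C2 * (1 + l) * ‖v‖ ^ 2 + ‖v‖ * (C2 * ‖v‖)) * 4 := by positivity
        nlinarith
      linarith
  · refine (key _ ((C2 * ‖v‖) ^ 2 + C2 * (1 + l) * ‖v‖ ^ 2 + ‖v‖ * (C2 * ‖v‖))
      (by positivity) ?_).trans ?_
    · unfold JJ
      have t1 : |dph k (TT R q l θ x) * T1 R q l θ x v ^ 2| ≤
          (C1 * Real.exp (TT R q l θ x)) * ((C2 * ‖v‖) ^ 2 * s ^ 2) := by
        rw [abs_mul, abs_pow]
        exact mul_le_mul f3 hT1' (by positivity) hCe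
      have t2 : |ph k (TT R q l θ x) * T2 R q l θ x v| ≤
          (C1 * Real.exp (TT R q l θ x)) * (C2 * (1 + l) * ‖v‖ ^ 2 * s ^ 2) := by
        rw [abs_mul]
        refine mul_le_mul hph (b6.trans ?_) (abs_nonneg _) hCe
        exact le_mul_of_one_le_right (by positivity) h1s
      have t3 : |(⟪x.1, v.1⟫ : ℝ) * (ph k (TT R q l θ x) * T1 R q l θ x v)| ≤
          (C1 * Real.exp (TT R q l θ x)) * (‖v‖ * (C2 * ‖v‖) * s ^ 2) := by
        rw [abs_mul, abs_mul]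
        calc |(⟪x.1, v.1⟫ : ℝ)| * (|ph k (TT R q l θ x)| * |T1 R q l θ x v|) ≤
            (s * ‖v‖) * ((C1 * Real.exp (TT R q l θ x)) * (C2 * ‖v‖ * s)) := by
              refine mul_le_mul hxv ?_ (by positivity) (by positivity)
              exact mul_le_mul hph hT1 (abs_nonneg _) hCe
          _ = _ := by ring
      calc |dph k (TT R q l θ x) * T1 R q l θ x v ^ 2 + ph k (TT R q l θ x) * T2 R q l θ x v -
            (⟪x.1, v.1⟫ : ℝ) * (ph k (TT R q l θ x) * T1 R q l θ x v)| ≤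
          |dph k (TT R q l θ x) * T1 R q l θ x v ^ 2 + ph k (TT R q l θ x) * T2 R q l θ x v| +
            |(⟪x.1, v.1⟫ : ℝ) * (ph k (TT R q l θ x) * T1 R q l θ x v)| := abs_sub _ _
        _ ≤ |dph k (TT R q l θ x) * T1 R q l θ x v ^ 2| + |ph k (TT R q l θ x) * T2 R q l θ x v| +
            |(⟪x.1, v.1⟫ : ℝ) * (ph k (TT R q l θ x) * T1 R q l θ x v)| := by
            gcongr
            exact abs_add_le _ _
        _ ≤ _ := by
            have := add_le_add (add_le_add t1 t2) t3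
            refine this.trans (le_of_eq ?_)
            ring
    · refine mul_le_mul_of_nonneg_right ?_ hm1.le
      have : C1 * C2 * ((C2 * ‖v‖) ^ 2 + C2 * (1 + l) * ‖v‖ ^ 2 + ‖v‖ * (C2 * ‖v‖)) * 4 ≤
          C1 * C2 * (C2 * ‖v‖ + (C2 * ‖v‖) ^ 2 +
          C2 * (1 + l) * ‖v‖ ^ 2 + ‖v‖ * (C2 * ‖v‖)) * 4 := by
        have h0 : 0 ≤ C1 * C2 * (C2 * ‖v‖) * 4 := by positivity
        nlinarith
      linarith

theorem tIbp (hA : FunAStmt) (hB : FunBStmt) (hM : MajStmt) (hBd : BndStmt) (hC : CtsStmt)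
    (hL : LndStmt) : IbpStmt := by
  intro M d N R q k l θ v hk hN hl hθ
  obtain ⟨A, C, hC0, hb⟩ := Ibp_bound hB hM hBd R q k l θ v hk hN hl hθ
  obtain ⟨-, -, c1, c2, -, -, -, -⟩ := hA k hk
  obtain ⟨m1, m2, -, -, -, -, m7, m8⟩ := hC M d N R q l θ hN hl
  have hmaj : Integrable (fun x : E M × E d => C * maj A (θ ^ 2) x) :=
    ((hM M d A (θ ^ 2) (by positivity)).1).const_mul C
  have hg : Continuous (fun x : E M × E d => rho x * (ph k (TT R q l θ x) * T1 R q l θ x v)) :=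
    m1.mul ((c1.comp m2).mul (m7 v))
  have hin : Continuous (fun x : E M × E d => (⟪x.1, v.1⟫ : ℝ)) :=
    continuous_fst.inner continuous_const
  have hJ : Continuous (fun x : E M × E d => rho x * JJ k R q l θ x v) := by
    unfold JJ
    exact m1.mul ((((c2.comp m2).mul ((m7 v).pow 2)).add ((c1.comp m2).mul (m8 v))).sub
      (hin.mul ((c1.comp m2).mul (m7 v))))
  have i1 : Integrable (fun x : E M × E d => rho x * (ph k (TT R q l θ x) * T1 R q l θ x v)) :=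
    hmaj.mono' hg.aestronglyMeasurable (Eventually.of_forall fun x => by
      rw [Real.norm_eq_abs]; exact (hb x).1)
  have i2 : Integrable (fun x : E M × E d => rho x * JJ k R q l θ x v) :=
    hmaj.mono' hJ.aestronglyMeasurable (Eventually.of_forall fun x => by
      rw [Real.norm_eq_abs]; exact (hb x).2)
  refine ⟨i2, ?_⟩
  have : (volume : Measure (E M × E d)).IsAddHaarMeasure := by
    rw [Measure.volume_eq_prod]
    infer_instance
  have h := integral_bilinear_hasLineDerivAt_right_eq_neg_left_of_integrable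
    (μ := (volume : Measure (E M × E d))) (f := fun _ => (1 : ℝ)) (f' := fun _ => (0 : ℝ))
    (g := fun x : E M × E d => rho x * (ph k (TT R q l θ x) * T1 R q l θ x v))
    (g' := fun x : E M × E d => rho x * JJ k R q l θ x v) (v := v)
    (B := ContinuousLinearMap.mul ℝ ℝ) (by simp) (by simpa using i2) (by simpa using i1)
    (fun x _ => by
      have := hasDerivAt_const (0 : ℝ) (1 : ℝ)
      exact this)
    (fun x _ => hL M d N R q k l θ x v hk hN hl)
  simpa using h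

end Pool.Agent.Lib.MP_0c1c75_co.TG
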