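import Pool.Agent.Lib.MP_0c1c75_co.TG.Spec

/-!
MP_0c1c75_co, project TG, module LimI: the limit for `θ → ∞`.
-/

set_option autoImplicit false

namespace Pool.Agent.Lib.MP_0c1c75_co.TG

open MeasureTheory Set Filter Topology
open scoped RealInnerProductSpace

/-- the rescaled function, `s = 1 / θ` -/
private noncomputable def LimI_u {M d N : ℕ} (R : Fin N → E M) (q : Fin N → E d) (s : ℝ)
    (x : E M × E d) : ℝ :=
  2 * (⨅ i, (s * ⟪x.1, R i⟫ + (⟪x.2, q i⟫ + (‖R i‖ ^ 2 - ‖q i‖ ^ 2) / 2))) - ‖x.2‖ ^ 2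

/-- its limit -/
private noncomputable def LimI_G {M d N : ℕ} (R : Fin N → E M) (q : Fin N → E d)
    (y : E d) : ℝ :=
  2 * (⨅ i, (⟪y, q i⟫ + (‖R i‖ ^ 2 - ‖q i‖ ^ 2) / 2)) - ‖y‖ ^ 2

private theorem LimI_TH {M d N : ℕ} (R : Fin N → E M) (q : Fin N → E d) (θ : ℝ) (hθ : 0 < θ)
    (x : E M × E d) : TH R q θ x = θ ^ 2 * LimI_u R q θ⁻¹ x := by
  have h1 : ∀ i, lin R q θ x i =
      θ ^ 2 * (θ⁻¹ * ⟪x.1, R i⟫ + (⟪x.2, q i⟫ + (‖R i‖ ^ 2 - ‖q i‖ ^ 2) / 2)) := by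
    intro i
    unfold lin
    field_simp
  unfold TH LimI_u
  simp only [h1]
  rw [← Real.mul_iInf_of_nonneg (by positivity)]
  ring

private theorem LimI_cont {M d N : ℕ} (hN : 0 < N) (R : Fin N → E M) (q : Fin N → E d)
    (x : E M × E d) : Continuous (fun s => LimI_u R q s x) := by
  have : Nonempty (Fin N) := ⟨⟨0, hN⟩⟩
  unfold LimI_u
  simp only [← Finset.inf'_univ_eq_ciInf]
  refine (continuous_const.mul (Continuous.finset_inf'_apply _ fun i _ => ?_)).sub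
    continuous_const
  exact (continuous_id.mul continuous_const).add continuous_const

private theorem LimI_Gcont {M d N : ℕ} (hN : 0 < N) (R : Fin N → E M) (q : Fin N → E d) :
    Continuous (LimI_G R q) := by
  have : Nonempty (Fin N) := ⟨⟨0, hN⟩⟩
  unfold LimI_G
  simp only [← Finset.inf'_univ_eq_ciInf]
  refine (continuous_const.mul (Continuous.finset_inf'_apply _ fun i _ => ?_)).sub
    (continuous_norm.pow 2)
  exact (continuous_id.inner continuous_const).add continuous_const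

private theorem LimI_zero {M d N : ℕ} (R : Fin N → E M) (q : Fin N → E d)
    (x : E M × E d) : LimI_u R q 0 x = LimI_G R q x.2 := by
  unfold LimI_u LimI_G
  simp only [zero_mul, zero_add]

private theorem LimI_le {M d N : ℕ} (hN : 0 < N) (R : Fin N → E M) (q : Fin N → E d)
    (s : ℝ) (x : E M × E d) (i : Fin N) :
    LimI_u R q s x ≤
      2 * (s * ⟪x.1, R i⟫ + (⟪x.2, q i⟫ + (‖R i‖ ^ 2 - ‖q i‖ ^ 2) / 2)) - ‖x.2‖ ^ 2 := by
  have : Nonempty (Fin N) := ⟨⟨0, hN⟩⟩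
  have h := ciInf_le (Set.finite_range (fun i =>
    (s * ⟪x.1, R i⟫ + (⟪x.2, q i⟫ + (‖R i‖ ^ 2 - ‖q i‖ ^ 2) / 2)))).bddBelow i
  unfold LimI_u
  linarith

private theorem LimI_sq {M d : ℕ} (R : E M) (q y : E d) :
    2 * (⟪y, q⟫ + (‖R‖ ^ 2 - ‖q‖ ^ 2) / 2) - ‖y‖ ^ 2 = ‖R‖ ^ 2 - dist y q ^ 2 := by
  rw [dist_eq_norm, norm_sub_sq_real]
  ring

private theorem LimI_pos {M d N : ℕ} (hN : 0 < N) (R : Fin N → E M) (q : Fin N → E d)
    (y : E d) : 0 < LimI_G R q y ↔ ∀ i, dist y (q i) < ‖R i‖ := by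
  have : Nonempty (Fin N) := ⟨⟨0, hN⟩⟩
  constructor
  · intro h i
    have h1 := ciInf_le (Set.finite_range (fun i =>
      (⟪y, q i⟫ + (‖R i‖ ^ 2 - ‖q i‖ ^ 2) / 2))).bddBelow i
    have h2 := LimI_sq (R i) (q i) y
    unfold LimI_G at h
    have h3 : dist y (q i) ^ 2 < ‖R i‖ ^ 2 := by linarith
    exact lt_of_pow_lt_pow_left₀ 2 (norm_nonneg _) h3
  · intro h
    obtain ⟨i, hi⟩ := exists_eq_ciInf_of_finite
      (f := fun i => (⟪y, q i⟫ + (‖R i‖ ^ 2 - ‖q i‖ ^ 2) / 2))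
    have h2 := LimI_sq (R i) (q i) y
    have h3 : dist y (q i) ^ 2 < ‖R i‖ ^ 2 := pow_lt_pow_left₀ (h i) dist_nonneg two_ne_zero
    unfold LimI_G
    rw [← hi]
    linarith

private theorem LimI_neg {M d N : ℕ} (hN : 0 < N) (R : Fin N → E M) (q : Fin N → E d)
    (y : E d) (i : Fin N) (hi : ‖R i‖ < dist y (q i)) : LimI_G R q y < 0 := by
  have : Nonempty (Fin N) := ⟨⟨0, hN⟩⟩
  have h1 := ciInf_le (Set.finite_range (fun i =>
    (⟪y, q i⟫ + (‖R i‖ ^ 2 - ‖q i‖ ^ 2) / 2))).bddBelow i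
  have h2 := LimI_sq (R i) (q i) y
  have h3 : ‖R i‖ ^ 2 < dist y (q i) ^ 2 := pow_lt_pow_left₀ hi (norm_nonneg _) two_ne_zero
  unfold LimI_G
  linarith

/-- almost every point is on none of the spheres -/
private theorem LimI_ae {M d N : ℕ} (hd : 0 < d) (R : Fin N → E M) (q : Fin N → E d) :
    ∀ᵐ y ∂(volume : Measure (E d)), ∀ i, dist y (q i) ≠ ‖R i‖ := by
  have hnt : Nontrivial (E d) := by
    apply Module.nontrivial_of_finrank_pos (R := ℝ)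
    rw [finrank_euclideanSpace_fin]
    exact hd
  rw [ae_all_iff]
  intro i
  have h := Measure.addHaar_sphere (volume : Measure (E d)) (q i) ‖R i‖
  rw [measure_eq_zero_iff_ae_notMem] at h
  filter_upwards [h] with y hy
  exact hy

private theorem LimI_hneg (hFunB : FunBStmt) (k : ℝ) (hk : 1 < k) (v : ℝ) (hv : v < 0) :
    hh k v = 0 := by
  obtain ⟨C, hC, hB⟩ := hFunB k hk
  have h0 : 0 ≤ hh k v := (hB v 0 le_rfl).2.2.2.1
  have h1 : Tendsto (fun n : ℕ => C * Real.exp ((n : ℝ) * v)) atTop (𝓝 (C * 0)) :=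
    (Real.tendsto_exp_atBot.comp
      (tendsto_natCast_atTop_atTop.atTop_mul_const_of_neg hv)).const_mul C
  have h2 : hh k v ≤ C * 0 := ge_of_tendsto' h1 fun n => (hB v n (Nat.cast_nonneg n)).2.2.2.2
  rw [mul_zero] at h2
  exact le_antisymm h2 h0

private theorem LimI_tend {M d N : ℕ} (hN : 0 < N) (R : Fin N → E M) (q : Fin N → E d)
    (x : E M × E d) :
    Tendsto (fun n : ℕ => LimI_u R q ((n : ℝ) + 1)⁻¹ x) atTop (𝓝 (LimI_G R q x.2)) := by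
  rw [← LimI_zero]
  have h := tendsto_one_div_add_atTop_nhds_zero_nat (𝕜 := ℝ)
  simp only [one_div] at h
  exact ((LimI_cont hN R q x).tendsto 0).comp h

private theorem LimI_point {M d N : ℕ} (hFunB : FunBStmt) (k C0 : ℝ) (hk : 1 < k)
    (hN : 0 < N) (hC0 : Tendsto (hh k) atTop (𝓝 C0)) (R : Fin N → E M) (q : Fin N → E d)
    (x : E M × E d) (hx : ∀ i, dist x.2 (q i) ≠ ‖R i‖) :
    Tendsto (fun n : ℕ => rho x * hh k (TH R q ((n : ℝ) + 1) x)) atTop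
      (𝓝 (rho x * ({y | 0 < LimI_G R q y} : Set (E d)).indicator (fun _ => C0) x.2)) := by
  refine Tendsto.const_mul _ ?_
  have hTH : ∀ n : ℕ, TH R q ((n : ℝ) + 1) x =
      ((n : ℝ) + 1) ^ 2 * LimI_u R q ((n : ℝ) + 1)⁻¹ x := fun n =>
    LimI_TH R q _ (by positivity) x
  simp only [hTH]
  have ht := LimI_tend hN R q x
  by_cases hpos : 0 < LimI_G R q x.2
  · rw [indicator_of_mem (show x.2 ∈ {y | 0 < LimI_G R q y} from hpos)]
    refine hC0.comp ?_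
    have h1 : Tendsto (fun n : ℕ => ((n : ℝ) + 1) ^ 2) atTop atTop :=
      (tendsto_pow_atTop two_ne_zero).comp
        (tendsto_atTop_add_const_right _ _ tendsto_natCast_atTop_atTop)
    exact h1.atTop_mul_pos hpos ht
  · rw [indicator_of_notMem (show x.2 ∉ {y | 0 < LimI_G R q y} from hpos)]
    have hneg : LimI_G R q x.2 < 0 := by
      rw [LimI_pos hN] at hpos
      push Not at hpos
      obtain ⟨i, hi⟩ := hpos
      exact LimI_neg hN R q x.2 i (lt_of_le_of_ne hi (hx i).symm)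
    have h1 : ∀ᶠ n : ℕ in atTop, LimI_u R q ((n : ℝ) + 1)⁻¹ x < 0 :=
      ht.eventually_lt_const hneg
    refine tendsto_const_nhds.congr' ?_
    filter_upwards [h1] with n hn
    rw [LimI_hneg hFunB k hk]
    exact mul_neg_of_pos_of_neg (by positivity) hn

private theorem LimI_major {M d N : ℕ} (hN : 0 < N) (R : Fin N → E M) (q : Fin N → E d)
    (s : ℝ) (hs0 : 0 ≤ s) (hs : s ≤ 1) (x : E M × E d) :
    rho x * Real.exp (LimI_u R q s x) ≤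
      Real.exp (|‖R ⟨0, hN⟩‖ ^ 2 - ‖q ⟨0, hN⟩‖ ^ 2|) *
        maj (2 * ‖R ⟨0, hN⟩‖ + 2 * ‖q ⟨0, hN⟩‖) 1 x := by
  unfold rho maj
  rw [← Real.exp_add, ← Real.exp_add, ← Real.exp_add]
  apply Real.exp_le_exp.2
  have h1 := LimI_le hN R q s x ⟨0, hN⟩
  have h2 : ⟪x.1, R ⟨0, hN⟩⟫ ≤ ‖x.1‖ * ‖R ⟨0, hN⟩‖ := real_inner_le_norm _ _
  have h3 : ⟪x.2, q ⟨0, hN⟩⟫ ≤ ‖x.2‖ * ‖q ⟨0, hN⟩‖ := real_inner_le_norm _ _
  have h4 := le_abs_self (‖R ⟨0, hN⟩‖ ^ 2 - ‖q ⟨0, hN⟩‖ ^ 2)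
  have h5 : s * ⟪x.1, R ⟨0, hN⟩⟫ ≤ ‖x.1‖ * ‖R ⟨0, hN⟩‖ := by
    have e1 : 0 ≤ ‖x.1‖ * ‖R ⟨0, hN⟩‖ := by positivity
    calc s * ⟪x.1, R ⟨0, hN⟩⟫ ≤ s * (‖x.1‖ * ‖R ⟨0, hN⟩‖) := mul_le_mul_of_nonneg_left h2 hs0
      _ ≤ 1 * (‖x.1‖ * ‖R ⟨0, hN⟩‖) := mul_le_mul_of_nonneg_right hs e1
      _ = ‖x.1‖ * ‖R ⟨0, hN⟩‖ := one_mul _
  have h6 : 0 ≤ ‖x.1‖ * ‖q ⟨0, hN⟩‖ := by positivity
  have h7 : 0 ≤ ‖x.2‖ * ‖R ⟨0, hN⟩‖ := by positivity
  have e : -(‖x.1‖ ^ 2 / 2) + (2 * ‖R ⟨0, hN⟩‖ + 2 * ‖q ⟨0, hN⟩‖) * ‖x.1‖ +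
      (-(1 * ‖x.2‖ ^ 2) + (2 * ‖R ⟨0, hN⟩‖ + 2 * ‖q ⟨0, hN⟩‖) * ‖x.2‖) =
      -(‖x.1‖ ^ 2 / 2) + 2 * (‖x.1‖ * ‖R ⟨0, hN⟩‖) + 2 * (‖x.1‖ * ‖q ⟨0, hN⟩‖) -
        ‖x.2‖ ^ 2 + 2 * (‖x.2‖ * ‖R ⟨0, hN⟩‖) + 2 * (‖x.2‖ * ‖q ⟨0, hN⟩‖) := by ring
  rw [e]
  linarith

private theorem LimI_int {M d N : ℕ} (C0 : ℝ) (hd : 0 < d) (hN : 0 < N) (R : Fin N → E M)
    (q : Fin N → E d) :
    ∫ x : E M × E d, rho x *
      ({y | 0 < LimI_G R q y} : Set (E d)).indicator (fun _ => C0) x.2 =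
    C0 * (∫ g : E M, Real.exp (-(‖g‖ ^ 2 / 2))) *
      (volume (⋂ i, Metric.closedBall (q i) ‖R i‖)).toReal := by
  have hmeas : MeasurableSet ({y | 0 < LimI_G R q y} : Set (E d)) :=
    (isOpen_lt continuous_const (LimI_Gcont hN R q)).measurableSet
  have h1 : ∫ x : E M × E d, rho x *
      ({y | 0 < LimI_G R q y} : Set (E d)).indicator (fun _ => C0) x.2 =
      (∫ g : E M, Real.exp (-(‖g‖ ^ 2 / 2))) *
        ∫ y : E d, ({y | 0 < LimI_G R q y} : Set (E d)).indicator (fun _ => C0) y := by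
    rw [Measure.volume_eq_prod]
    exact integral_prod_mul (μ := (volume : Measure (E M))) (ν := (volume : Measure (E d)))
      (fun g : E M => Real.exp (-(‖g‖ ^ 2 / 2)))
      (({y | 0 < LimI_G R q y} : Set (E d)).indicator (fun _ => C0))
  have h2 : (volume ({y | 0 < LimI_G R q y} : Set (E d))) =
      volume (⋂ i, Metric.closedBall (q i) ‖R i‖) := by
    apply measure_congr
    filter_upwards [LimI_ae hd R q] with y hy
    apply propext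
    show 0 < LimI_G R q y ↔ y ∈ ⋂ i, Metric.closedBall (q i) ‖R i‖
    rw [LimI_pos hN, mem_iInter]
    constructor
    · intro h i
      exact Metric.mem_closedBall.2 (h i).le
    · intro h i
      exact lt_of_le_of_ne (Metric.mem_closedBall.1 (h i)) (hy i)
  rw [h1, integral_indicator_const _ hmeas, Measure.real, h2, smul_eq_mul]
  ring

theorem tLimI (hFunA : FunAStmt) (hFunB : FunBStmt) (hMaj : MajStmt) (hCts : CtsStmt) :
    LimIStmt := by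
  intro M d N R q k C0 hk hk1 hN hC0
  have hd : 0 < d := by
    rcases Nat.eq_zero_or_pos d with h | h
    · rw [h, Nat.cast_zero, zero_div] at hk
      linarith
    · exact h
  obtain ⟨-, -, hphc, -, hPhc, -⟩ := hFunA k hk1
  have hhc : Continuous (hh k) := hPhc.add (continuous_const.mul hphc)
  obtain ⟨C, hC, hB⟩ := hFunB k hk1
  rw [← LimI_int C0 hd hN R q]
  unfold ThH
  refine tendsto_integral_of_dominated_convergence
    (fun x : E M × E d => C * (Real.exp (|‖R ⟨0, hN⟩‖ ^ 2 - ‖q ⟨0, hN⟩‖ ^ 2|) *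
        maj (2 * ‖R ⟨0, hN⟩‖ + 2 * ‖q ⟨0, hN⟩‖) 1 x)) ?_ ?_ ?_ ?_
  · intro n
    obtain ⟨c1, -, c3, -⟩ := hCts M d N R q 1 ((n : ℝ) + 1) hN one_pos
    exact (c1.mul (hhc.comp c3)).aestronglyMeasurable
  · exact ((hMaj M d (2 * ‖R ⟨0, hN⟩‖ + 2 * ‖q ⟨0, hN⟩‖) 1 one_pos).1.const_mul _).const_mul _
  · intro n
    refine Eventually.of_forall fun x => ?_
    have hθ : (0 : ℝ) < (n : ℝ) + 1 := by positivity
    have hrho : 0 ≤ rho x := (Real.exp_pos _).le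
    have e1 := (hB (TH R q ((n : ℝ) + 1) x) ((((n : ℝ) + 1) ^ 2)⁻¹) (by positivity)).2.2.2
    rw [Real.norm_eq_abs, abs_of_nonneg (mul_nonneg hrho e1.1)]
    have e2 : (((n : ℝ) + 1) ^ 2)⁻¹ * TH R q ((n : ℝ) + 1) x =
        LimI_u R q ((n : ℝ) + 1)⁻¹ x := by
      rw [LimI_TH R q _ hθ x, inv_mul_cancel_left₀ (by positivity)]
    rw [e2] at e1
    have e3 : ((n : ℝ) + 1)⁻¹ ≤ 1 := inv_le_one_of_one_le₀ (by linarith [Nat.cast_nonneg (α := ℝ) n])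
    have e4 := LimI_major hN R q ((n : ℝ) + 1)⁻¹ (by positivity) e3 x
    calc rho x * hh k (TH R q ((n : ℝ) + 1) x)
        ≤ rho x * (C * Real.exp (LimI_u R q ((n : ℝ) + 1)⁻¹ x)) :=
          mul_le_mul_of_nonneg_left e1.2 hrho
      _ = C * (rho x * Real.exp (LimI_u R q ((n : ℝ) + 1)⁻¹ x)) := by ring
      _ ≤ _ := mul_le_mul_of_nonneg_left e4 hC.le
  · have hae : ∀ᵐ x : E M × E d, ∀ i, dist x.2 (q i) ≠ ‖R i‖ := by
      rw [Measure.volume_eq_prod]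
      exact Measure.quasiMeasurePreserving_snd.ae (LimI_ae hd R q)
    filter_upwards [hae] with x hx
    exact LimI_point hFunB k C0 hk1 hN hC0 R q x hx

end Pool.Agent.Lib.MP_0c1c75_co.TG
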