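import Pool.Agent.Lib.MP_0c1c75_co.TG.Spec

/-! MP_0c1c75_co, project TG, module LimL: the limit of the parameter of the softmin to infinity. -/

set_option autoImplicit false

namespace Pool.Agent.Lib.MP_0c1c75_co.TG

open MeasureTheory Set Filter Topology
open scoped RealInnerProductSpace

private theorem LimL_rho_nonneg {M d : ℕ} (x : E M × E d) : 0 ≤ rho x := (Real.exp_pos _).le

private theorem LimL_smn {N : ℕ} (hSoftA : SoftAStmt) (hN : 0 < N) (a : Fin N → ℝ) :
    Tendsto (fun n : ℕ => smn ((n : ℝ) + 1) a) atTop (𝓝 (⨅ i, a i)) := by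
  have hlog : Tendsto (fun n : ℕ => (⨅ i, a i) - Real.log N / ((n : ℝ) + 1)) atTop
      (𝓝 ((⨅ i, a i) - 0)) := by
    refine tendsto_const_nhds.sub ?_
    refine Tendsto.div_atTop tendsto_const_nhds ?_
    exact tendsto_atTop_add_const_right _ _ tendsto_natCast_atTop_atTop
  rw [sub_zero] at hlog
  refine tendsto_of_tendsto_of_tendsto_of_le_of_le hlog tendsto_const_nhds ?_ ?_
  · intro n
    have hl : (0 : ℝ) < (n : ℝ) + 1 := by positivity
    exact (hSoftA N ((n : ℝ) + 1) a hN hl).2.2.2.2.1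
  · intro n
    have hl : (0 : ℝ) < (n : ℝ) + 1 := by positivity
    exact (hSoftA N ((n : ℝ) + 1) a hN hl).2.2.2.2.2.1

theorem tLimL (hFunA : FunAStmt) (hFunB : FunBStmt) (hSoftA : SoftAStmt) (hMaj : MajStmt)
    (hBnd : BndStmt) (hCts : CtsStmt) : LimLStmt := by
  intro M d N R q k θ hk hN hθ
  obtain ⟨C, hC, hFB⟩ := hFunB k hk
  obtain ⟨A, C2, hA, hC2, hB⟩ := hBnd M d N R q θ θ hN hθ le_rfl
  have hhc : Continuous (hh k) := by
    have h1 := (hFunA k hk).2.2.1
    have h2 := (hFunA k hk).2.2.2.2.1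
    have h3 : Continuous (fun v => Ph k v + 4 * ph k v) := h2.add (continuous_const.mul h1)
    exact h3
  have hθ2 : (0 : ℝ) < θ ^ 2 := by positivity
  unfold Th ThH
  refine tendsto_integral_of_dominated_convergence
    (fun x : E M × E d => C * (C2 * maj A (θ ^ 2) x)) ?_ ?_ ?_ ?_
  · intro n
    have hl : (0 : ℝ) < (n : ℝ) + 1 := by positivity
    obtain ⟨hr, hT, -⟩ := hCts M d N R q ((n : ℝ) + 1) θ hN hl
    exact (hr.mul (hhc.comp hT)).aestronglyMeasurable
  · exact (((hMaj M d A (θ ^ 2) hθ2).1).const_mul C2).const_mul C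
  · intro n
    have hl : (0 : ℝ) < (n : ℝ) + 1 := by positivity
    refine Eventually.of_forall ?_
    intro x
    have h1 := (hFB (TT R q ((n : ℝ) + 1) θ x) 1 zero_le_one).2.2.2
    obtain ⟨h2, h3⟩ := h1
    have h4 := (hB ((n : ℝ) + 1) θ x hl le_rfl le_rfl).1
    have hr := LimL_rho_nonneg x
    rw [one_mul] at h3
    rw [Real.norm_of_nonneg (mul_nonneg hr h2)]
    calc rho x * hh k (TT R q ((n : ℝ) + 1) θ x)
        ≤ rho x * (C * Real.exp (TT R q ((n : ℝ) + 1) θ x)) := mul_le_mul_of_nonneg_left h3 hr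
      _ = C * (rho x * Real.exp (TT R q ((n : ℝ) + 1) θ x)) := by ring
      _ ≤ C * (C2 * maj A (θ ^ 2) x) := mul_le_mul_of_nonneg_left h4 hC.le
  · refine Eventually.of_forall ?_
    intro x
    have hT : Tendsto (fun n : ℕ => TT R q ((n : ℝ) + 1) θ x) atTop (𝓝 (TH R q θ x)) := by
      unfold TT TH
      exact ((LimL_smn hSoftA hN (lin R q θ x)).const_mul 2).sub tendsto_const_nhds
    exact ((hhc.tendsto _).comp hT).const_mul (rho x)

end Pool.Agent.Lib.MP_0c1c75_co.TG
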