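import Pool.Agent.Lib.MP_0c1c75_co.TG.Spec

/-!
MP_0c1c75_co, project TG, module LimZ: the limit of `ThH` for `θ → 0`.
-/

set_option autoImplicit false

open MeasureTheory Set Filter Topology
open scoped RealInnerProductSpace

namespace Pool.Agent.Lib.MP_0c1c75_co.TG

/-- the substitution `y = c ζ` in the second factor -/
private lemma LimZ_sub {M d : ℕ} (c : ℝ) (hc : 0 < c) (F : E M × E d → ℝ) :
    ∫ x : E M × E d, F (x.1, c • x.2) = (c ^ d)⁻¹ * ∫ x : E M × E d, F x := by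
  let e : E d ≃ᵐ E d := (Homeomorph.smulOfNeZero c hc.ne').toMeasurableEquiv
  let Φ : E M × E d ≃ᵐ E M × E d := MeasurableEquiv.prodCongr (MeasurableEquiv.refl _) e
  have hΦ : ∀ x, Φ x = (x.1, c • x.2) := fun x => rfl
  have h1 : Measure.map Φ (volume : Measure (E M × E d)) =
      ENNReal.ofReal |(c ^ d)⁻¹| • (volume : Measure (E M × E d)) := by
    have h2 : (Φ : E M × E d → E M × E d) = Prod.map id (fun y : E d => c • y) := by
      funext x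
      rw [hΦ]
      rfl
    rw [h2, Measure.volume_eq_prod,
      ← Measure.map_prod_map (volume : Measure (E M)) (volume : Measure (E d)) measurable_id
        (measurable_const_smul c), Measure.map_id, Measure.map_addHaar_smul volume hc.ne',
      finrank_euclideanSpace_fin, Measure.prod_smul_right]
  have h3 := MeasurableEmbedding.integral_map Φ.measurableEmbedding
    (μ := (volume : Measure (E M × E d))) F
  rw [h1, integral_smul_measure] at h3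
  simp only [hΦ] at h3
  rw [← h3, ENNReal.toReal_ofReal (abs_nonneg _), abs_of_pos (by positivity), smul_eq_mul]

/-- the rescaled function -/
private noncomputable def LimZ_u {M d N : ℕ} (R : Fin N → E M) (q : Fin N → E d) (t : ℝ)
    (x : E M × E d) : ℝ :=
  2 * (⨅ i, (⟪x.1, R i⟫ + √t * ⟪x.2, q i⟫ + t * ((‖R i‖ ^ 2 - ‖q i‖ ^ 2) / 2))) - ‖x.2‖ ^ 2

private lemma LimZ_TH {M d N : ℕ} (R : Fin N → E M) (q : Fin N → E d) (t : ℝ) (ht : 0 < t)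
    (x : E M × E d) : TH R q t (x.1, (√t)⁻¹ • x.2) = t * LimZ_u R q t x := by
  have hs : 0 < √t := Real.sqrt_pos.2 ht
  have hs2 : √t ^ 2 = t := Real.sq_sqrt ht.le
  have h1 : ∀ i, lin R q t (x.1, (√t)⁻¹ • x.2) i =
      t * (⟪x.1, R i⟫ + √t * ⟪x.2, q i⟫ + t * ((‖R i‖ ^ 2 - ‖q i‖ ^ 2) / 2)) := by
    intro i
    unfold lin
    simp only
    rw [real_inner_smul_left]
    have h2 : t ^ 2 * (√t)⁻¹ = t * √t := by
      rw [mul_inv_eq_iff_eq_mul₀ hs.ne', mul_assoc, Real.mul_self_sqrt ht.le]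
      ring
    have h3 : t ^ 2 * ((√t)⁻¹ * ⟪x.2, q i⟫ + (‖R i‖ ^ 2 - ‖q i‖ ^ 2) / 2) =
        (t ^ 2 * (√t)⁻¹) * ⟪x.2, q i⟫ + t ^ 2 * ((‖R i‖ ^ 2 - ‖q i‖ ^ 2) / 2) := by ring
    rw [h3, h2]
    ring
  unfold TH LimZ_u
  simp only [h1]
  rw [← Real.mul_iInf_of_nonneg ht.le]
  have h4 : ‖(√t)⁻¹ • x.2‖ ^ 2 = t⁻¹ * ‖x.2‖ ^ 2 := by
    rw [norm_smul, mul_pow, Real.norm_of_nonneg (by positivity), inv_pow, hs2]
  rw [h4]
  have h5 : t ^ 2 * (t⁻¹ * ‖x.2‖ ^ 2) = t * ‖x.2‖ ^ 2 := by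
    field_simp
  rw [h5]
  ring

private lemma LimZ_pow (d : ℕ) (k t : ℝ) (hk : k = (d : ℝ) / 2) (ht : 0 < t) :
    (((√t)⁻¹) ^ d)⁻¹ = t ^ k := by
  rw [inv_pow, inv_inv, hk, Real.sqrt_eq_rpow, ← Real.rpow_natCast, ← Real.rpow_mul ht.le]
  congr 1
  ring

private lemma LimZ_int {M d N : ℕ} (R : Fin N → E M) (q : Fin N → E d) (k t : ℝ)
    (hk : k = (d : ℝ) / 2) (ht : 0 < t) :
    ThH k R q t = ∫ x : E M × E d, rho x * (hh k (t * LimZ_u R q t x) / t ^ k) := by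
  have hs : 0 < (√t)⁻¹ := inv_pos.2 (Real.sqrt_pos.2 ht)
  have h1 := LimZ_sub (M := M) (d := d) (√t)⁻¹ hs (fun x => rho x * hh k (TH R q t x))
  simp only [LimZ_TH R q t ht] at h1
  rw [LimZ_pow d k t hk ht] at h1
  have h2 : t ^ k ≠ 0 := (Real.rpow_pos_of_pos ht k).ne'
  have h3 : ∀ x : E M × E d, rho x * (hh k (t * LimZ_u R q t x) / t ^ k) =
      (t ^ k)⁻¹ * (rho ((x.1, (√t)⁻¹ • x.2) : E M × E d) * hh k (t * LimZ_u R q t x)) := by
    intro x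
    have h4 : rho ((x.1, (√t)⁻¹ • x.2) : E M × E d) = rho x := rfl
    rw [h4]
    ring
  simp only [h3]
  rw [integral_const_mul, h1]
  unfold ThH
  rw [← mul_assoc, inv_mul_cancel₀ h2, one_mul]

private lemma LimZ_le {M d N : ℕ} (R : Fin N → E M) (q : Fin N → E d) (t : ℝ) (ht : 0 < t)
    (ht1 : t ≤ 1) (i : Fin N) (x : E M × E d) :
    LimZ_u R q t x ≤ 2 * (‖R i‖ + ‖q i‖) * ‖x.1‖ + 2 * (‖R i‖ + ‖q i‖) * ‖x.2‖ +
      2 * |(‖R i‖ ^ 2 - ‖q i‖ ^ 2) / 2| - ‖x.2‖ ^ 2 := by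
  unfold LimZ_u
  have h1 : (⨅ i, (⟪x.1, R i⟫ + √t * ⟪x.2, q i⟫ + t * ((‖R i‖ ^ 2 - ‖q i‖ ^ 2) / 2))) ≤
      ⟪x.1, R i⟫ + √t * ⟪x.2, q i⟫ + t * ((‖R i‖ ^ 2 - ‖q i‖ ^ 2) / 2) :=
    ciInf_le (Set.finite_range _).bddBelow i
  have h2 : ⟪x.1, R i⟫ ≤ ‖x.1‖ * ‖R i‖ := real_inner_le_norm _ _
  have h3 : √t * ⟪x.2, q i⟫ ≤ ‖x.2‖ * ‖q i‖ := by
    have h4 : √t ≤ 1 := Real.sqrt_le_one.2 ht1
    have h5 : ⟪x.2, q i⟫ ≤ ‖x.2‖ * ‖q i‖ := real_inner_le_norm _ _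
    have h6 : 0 ≤ √t := Real.sqrt_nonneg t
    have h7 : 0 ≤ ‖x.2‖ * ‖q i‖ := by positivity
    calc √t * ⟪x.2, q i⟫ ≤ √t * (‖x.2‖ * ‖q i‖) := mul_le_mul_of_nonneg_left h5 h6
      _ ≤ 1 * (‖x.2‖ * ‖q i‖) := mul_le_mul_of_nonneg_right h4 h7
      _ = ‖x.2‖ * ‖q i‖ := one_mul _
  have h4 : t * ((‖R i‖ ^ 2 - ‖q i‖ ^ 2) / 2) ≤ |(‖R i‖ ^ 2 - ‖q i‖ ^ 2) / 2| := by
    calc t * ((‖R i‖ ^ 2 - ‖q i‖ ^ 2) / 2) ≤ t * |(‖R i‖ ^ 2 - ‖q i‖ ^ 2) / 2| :=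
          mul_le_mul_of_nonneg_left (le_abs_self _) ht.le
      _ ≤ 1 * |(‖R i‖ ^ 2 - ‖q i‖ ^ 2) / 2| := mul_le_mul_of_nonneg_right ht1 (abs_nonneg _)
      _ = _ := one_mul _
  have h5 : 0 ≤ ‖x.1‖ * ‖q i‖ := by positivity
  have h6 : 0 ≤ ‖x.2‖ * ‖R i‖ := by positivity
  nlinarith

private lemma LimZ_lim {M d N : ℕ} (R : Fin N → E M) (q : Fin N → E d) (hN : 0 < N)
    (t : ℕ → ℝ) (ht : Tendsto t atTop (𝓝 0)) (x : E M × E d) :
    Tendsto (fun n => LimZ_u R q (t n) x) atTop (𝓝 (2 * (⨅ i, ⟪x.1, R i⟫) - ‖x.2‖ ^ 2)) := by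
  have : Nonempty (Fin N) := ⟨⟨0, hN⟩⟩
  unfold LimZ_u
  refine Tendsto.sub (Tendsto.const_mul 2 ?_) tendsto_const_nhds
  simp only [← Finset.inf'_univ_eq_ciInf]
  refine Filter.Tendsto.finset_inf'_nhds_apply Finset.univ_nonempty fun i _ => ?_
  have h1 : Tendsto (fun n => √(t n)) atTop (𝓝 0) := by
    have := (Real.continuous_sqrt.tendsto 0).comp ht
    rwa [Real.sqrt_zero] at this
  have h2 := ((tendsto_const_nhds (x := ⟪x.1, R i⟫) (f := atTop)).add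
    (h1.mul_const ⟪x.2, q i⟫)).add (ht.mul_const ((‖R i‖ ^ 2 - ‖q i‖ ^ 2) / 2))
  simpa using h2

/-- **LimZ.** -/
theorem tLimZ (hFunA : FunAStmt) (hFunB : FunBStmt) (hFunD : FunDStmt) (hMaj : MajStmt)
    (_hBnd : BndStmt) (hCts : CtsStmt) : LimZStmt := by
  intro M d N R q k hk hk1 hN
  obtain ⟨-, -, hph, -, hPh, -, -, -⟩ := hFunA k hk1
  obtain ⟨CB, -, hB⟩ := hFunB k hk1
  obtain ⟨⟨C, hC, hD1⟩, hD2⟩ := hFunD k hk1
  have hhc : Continuous (hh k) := by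
    unfold hh
    exact hPh.add (continuous_const.mul hph)
  set t : ℕ → ℝ := fun n => 1 / ((n : ℝ) + 1) with ht
  have htp : ∀ n, 0 < t n := fun n => Nat.one_div_pos_of_nat
  have ht1 : ∀ n, t n ≤ 1 := by
    intro n
    rw [ht]
    simp only
    rw [div_le_one (by positivity)]
    have : (0 : ℝ) ≤ n := Nat.cast_nonneg n
    linarith
  have ht0 : Tendsto t atTop (𝓝 0) := tendsto_one_div_add_atTop_nhds_zero_nat
  have h1 : (fun n : ℕ => ThH k R q (1 / ((n : ℝ) + 1))) =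
      fun n => ∫ x : E M × E d, rho x * (hh k (t n * LimZ_u R q (t n) x) / (t n) ^ k) := by
    funext n
    exact LimZ_int R q k (t n) hk (htp n)
  rw [h1]
  unfold L0
  let i0 : Fin N := ⟨0, hN⟩
  set A : ℝ := 2 * (‖R i0‖ + ‖q i0‖) with hA
  set B : ℝ := 2 * |(‖R i0‖ ^ 2 - ‖q i0‖ ^ 2) / 2| with hBdef
  have hrho : ∀ x : E M × E d, 0 ≤ rho x := fun x => (Real.exp_pos _).le
  refine tendsto_integral_of_dominated_convergence
    (fun x : E M × E d => C * Real.exp B * maj A 1 x) ?_ ?_ ?_ ?_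
  · intro n
    have h2 : (fun x : E M × E d => rho x * (hh k (t n * LimZ_u R q (t n) x) / (t n) ^ k)) =
        fun x : E M × E d => rho x * (hh k (TH R q (t n) (x.1, (√(t n))⁻¹ • x.2)) / (t n) ^ k) := by
      funext x
      rw [LimZ_TH R q (t n) (htp n)]
    rw [h2]
    obtain ⟨hc1, -, hc2, -⟩ := hCts M d N R q 1 (t n) hN one_pos
    have h3 : Continuous (fun x : E M × E d => ((x.1, (√(t n))⁻¹ • x.2) : E M × E d)) := by
      fun_prop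
    exact (hc1.mul ((hhc.comp (hc2.comp h3)).div_const _)).aestronglyMeasurable
  · exact ((hMaj M d A 1 one_pos).1).const_mul _
  · intro n
    refine Filter.Eventually.of_forall fun x => ?_
    have h2 : 0 ≤ hh k (t n * LimZ_u R q (t n) x) := (hB _ 0 le_rfl).2.2.2.1
    have h3 : 0 < (t n) ^ k := Real.rpow_pos_of_pos (htp n) k
    rw [Real.norm_of_nonneg (mul_nonneg (hrho x) (div_nonneg h2 h3.le))]
    have h4 := hD1 (t n) (LimZ_u R q (t n) x) (htp n)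
    have h5 := LimZ_le R q (t n) (htp n) (ht1 n) i0 x
    calc rho x * (hh k (t n * LimZ_u R q (t n) x) / (t n) ^ k)
        ≤ rho x * (C * Real.exp (LimZ_u R q (t n) x)) := mul_le_mul_of_nonneg_left h4 (hrho x)
      _ ≤ rho x * (C * Real.exp (A * ‖x.1‖ + A * ‖x.2‖ + B - ‖x.2‖ ^ 2)) := by
          refine mul_le_mul_of_nonneg_left (mul_le_mul_of_nonneg_left
            (Real.exp_le_exp.2 ?_) hC.le) (hrho x)
          exact h5
      _ = C * Real.exp B * maj A 1 x := by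
          unfold rho maj
          have h6 : Real.exp (A * ‖x.1‖ + A * ‖x.2‖ + B - ‖x.2‖ ^ 2) =
              Real.exp (A * ‖x.1‖) * Real.exp B * Real.exp (-(1 * ‖x.2‖ ^ 2) + A * ‖x.2‖) := by
            rw [← Real.exp_add, ← Real.exp_add]
            congr 1
            ring
          rw [h6, Real.exp_add (-(‖x.1‖ ^ 2 / 2))]
          ring
  · refine Filter.Eventually.of_forall fun x => ?_
    refine Tendsto.const_mul (rho x) ?_
    exact hD2 t (fun n => LimZ_u R q (t n) x) _ htp ht0 (LimZ_lim R q hN t ht0 x)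

end Pool.Agent.Lib.MP_0c1c75_co.TG
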