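import Pool.Agent.Lib.MP_0c1c75_co.TG.Spec

/-!
MP_0c1c75_co, project TG (Theorem G), module Lnd: the line derivative of `rho ph(TT) T1`.
-/

set_option autoImplicit false

namespace Pool.Agent.Lib.MP_0c1c75_co.TG

open MeasureTheory Set Filter Topology
open scoped RealInnerProductSpace

private lemma Lnd_line {n : ℕ} (a b : E n) :
    HasDerivAt (fun t : ℝ => a + t • b) b 0 := by
  have h := ((hasDerivAt_id (0 : ℝ)).smul_const b).const_add a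
  rw [one_smul] at h
  exact h

private lemma Lnd_lin {M d N : ℕ} (R : Fin N → E M) (q : Fin N → E d) (θ : ℝ)
    (x v : E M × E d) (i : Fin N) :
    HasDerivAt (fun s : ℝ => lin R q θ (x + s • v) i)
      (θ * ⟪v.1, R i⟫ + θ ^ 2 * ⟪v.2, q i⟫) 0 := by
  have e : (fun s : ℝ => lin R q θ (x + s • v) i) =
      fun s : ℝ => lin R q θ x i + s * (θ * ⟪v.1, R i⟫ + θ ^ 2 * ⟪v.2, q i⟫) := by
    funext s
    unfold lin
    rw [Prod.fst_add, Prod.snd_add, Prod.smul_fst, Prod.smul_snd, inner_add_left,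
      inner_add_left, real_inner_smul_left, real_inner_smul_left]
    ring
  rw [e]
  have h := ((hasDerivAt_id (0 : ℝ)).mul_const
    (θ * ⟪v.1, R i⟫ + θ ^ 2 * ⟪v.2, q i⟫)).const_add (lin R q θ x i)
  rw [one_mul] at h
  exact h

private lemma Lnd_inner {n : ℕ} (a b c : E n) :
    HasDerivAt (fun t : ℝ => ⟪a + t • b, c⟫) ⟪b, c⟫ 0 := by
  have e : (fun t : ℝ => ⟪a + t • b, c⟫) = fun t : ℝ => ⟪a, c⟫ + t * ⟪b, c⟫ := by
    funext t
    rw [inner_add_left, real_inner_smul_left]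
  rw [e]
  have h := ((hasDerivAt_id (0 : ℝ)).mul_const (⟪b, c⟫)).const_add (⟪a, c⟫ : ℝ)
  rw [one_mul] at h
  exact h

private lemma Lnd_nsq {n : ℕ} (a b : E n) :
    HasDerivAt (fun t : ℝ => ‖a + t • b‖ ^ 2) (2 * ⟪a, b⟫) 0 := by
  have h := (Lnd_line a b).norm_sq
  rw [zero_smul, add_zero] at h
  exact h

theorem tLnd (hFunA : FunAStmt) (hSoftB : SoftBStmt) : LndStmt := by
  intro M d N R q k l θ x v hk hN hl
  have h0 : x + (0 : ℝ) • v = x := by rw [zero_smul, add_zero]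
  obtain ⟨hph, -⟩ := hFunA k hk
  obtain ⟨hs1, hs2⟩ := hSoftB N l (fun s => lin R q θ (x + s • v))
    (fun i => θ * ⟪v.1, R i⟫ + θ ^ 2 * ⟪v.2, q i⟫) 0 hN hl (fun i => Lnd_lin R q θ x v i)
  simp only [h0] at hs1 hs2
  -- the function TT
  have hT : HasDerivAt (fun s : ℝ => TT R q l θ (x + s • v)) (T1 R q l θ x v) 0 := by
    have h := (hs1.const_mul 2).sub ((Lnd_nsq x.2 v.2).const_mul (θ ^ 2))
    have e : T1 R q l θ x v = 2 * (∑ i, wt l (lin R q θ x) i *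
        (θ * ⟪v.1, R i⟫ + θ ^ 2 * ⟪v.2, q i⟫)) - θ ^ 2 * (2 * ⟪x.2, v.2⟫) := by
      unfold T1
      ring
    rw [e]
    exact h
  -- the function T1
  have hT1 : HasDerivAt (fun s : ℝ => T1 R q l θ (x + s • v) v) (T2 R q l θ x v) 0 := by
    have hsum : HasDerivAt (fun s : ℝ => ∑ i, wt l (lin R q θ (x + s • v)) i *
        (θ * ⟪v.1, R i⟫ + θ ^ 2 * ⟪v.2, q i⟫))
        (∑ i, (-(l * wt l (lin R q θ x) i * ((θ * ⟪v.1, R i⟫ + θ ^ 2 * ⟪v.2, q i⟫) -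
          ∑ j, wt l (lin R q θ x) j * (θ * ⟪v.1, R j⟫ + θ ^ 2 * ⟪v.2, q j⟫)))) *
          (θ * ⟪v.1, R i⟫ + θ ^ 2 * ⟪v.2, q i⟫)) 0 :=
      HasDerivAt.fun_sum fun i _ => (hs2 i).mul_const _
    have h := (hsum.const_mul 2).sub ((Lnd_inner x.2 v.2 v.2).const_mul (2 * θ ^ 2))
    have e : T2 R q l θ x v = 2 * (∑ i, (-(l * wt l (lin R q θ x) i *
        ((θ * ⟪v.1, R i⟫ + θ ^ 2 * ⟪v.2, q i⟫) -
          ∑ j, wt l (lin R q θ x) j * (θ * ⟪v.1, R j⟫ + θ ^ 2 * ⟪v.2, q j⟫)))) *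
          (θ * ⟪v.1, R i⟫ + θ ^ 2 * ⟪v.2, q i⟫)) - 2 * θ ^ 2 * ⟪v.2, v.2⟫ := by
      unfold T2
      generalize hm : (∑ j, wt l (lin R q θ x) j * (θ * ⟪v.1, R j⟫ + θ ^ 2 * ⟪v.2, q j⟫)) = m
      have e2 : ∑ i, (-(l * wt l (lin R q θ x) i * ((θ * ⟪v.1, R i⟫ + θ ^ 2 * ⟪v.2, q i⟫) -
          m))) * (θ * ⟪v.1, R i⟫ + θ ^ 2 * ⟪v.2, q i⟫) =
          -(l * ∑ i, wt l (lin R q θ x) i * (θ * ⟪v.1, R i⟫ + θ ^ 2 * ⟪v.2, q i⟫) ^ 2) +
          l * m * ∑ i, wt l (lin R q θ x) i * (θ * ⟪v.1, R i⟫ + θ ^ 2 * ⟪v.2, q i⟫) := by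
        rw [Finset.mul_sum, Finset.mul_sum, ← Finset.sum_neg_distrib, ← Finset.sum_add_distrib]
        refine Finset.sum_congr rfl (fun i _ => ?_)
        ring
      rw [e2, hm, real_inner_self_eq_norm_sq]
      ring
    rw [e]
    exact h
  -- the weight
  have hρ : HasDerivAt (fun s : ℝ => rho (x + s • v)) (-(⟪x.1, v.1⟫ * rho x)) 0 := by
    have h := (((Lnd_nsq x.1 v.1).div_const 2).fun_neg).exp
    rw [zero_smul, add_zero] at h
    have e : Real.exp (-(‖x.1‖ ^ 2 / 2)) * -(2 * ⟪x.1, v.1⟫ / 2) = -(⟪x.1, v.1⟫ * rho x) := by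
      unfold rho
      ring
    rw [e] at h
    exact h
  have hp : HasDerivAt (fun s : ℝ => ph k (TT R q l θ (x + s • v)))
      (dph k (TT R q l θ x) * T1 R q l θ x v) 0 := by
    have h := (hph (TT R q l θ (x + (0 : ℝ) • v))).comp (0 : ℝ) hT
    rw [h0] at h
    exact h
  have h := hρ.fun_mul (hp.fun_mul hT1)
  rw [h0] at h
  have e : -(⟪x.1, v.1⟫ * rho x) * (ph k (TT R q l θ x) * T1 R q l θ x v) +
      rho x * (dph k (TT R q l θ x) * T1 R q l θ x v * T1 R q l θ x v +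
        ph k (TT R q l θ x) * T2 R q l θ x v) = rho x * JJ k R q l θ x v := by
    unfold JJ
    ring
  rw [e] at h
  exact h

end Pool.Agent.Lib.MP_0c1c75_co.TG
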