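import Pool.Agent.Lib.MP_0c1c75_co.TG.SpecC

/-!
MP_0c1c75_co, project TG: congruent balls with explicit large radii (Schoenberg kernel).
-/

set_option autoImplicit false

namespace Pool.Agent.Lib.MP_0c1c75_co.TG

open MeasureTheory Set Filter Topology
open scoped RealInnerProductSpace

private theorem Lrg_pow {N d : ℕ} (v : Fin N → E d) (m : ℕ) :
    (Matrix.of fun i j => ⟪v i, v j⟫ ^ m : Matrix (Fin N) (Fin N) ℝ).PosSemidef := by
  induction m with
  | zero =>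
    have h := Matrix.posSemidef_vecMulVec_self_star (fun _ : Fin N => (1 : ℝ))
    have e : (Matrix.of fun i j => ⟪v i, v j⟫ ^ 0 : Matrix (Fin N) (Fin N) ℝ) =
        Matrix.vecMulVec (fun _ : Fin N => (1 : ℝ)) (star (fun _ : Fin N => (1 : ℝ))) := by
      ext i j
      simp [Matrix.vecMulVec_apply]
    rw [e]
    exact h
  | succ m ih =>
    have h := ih.hadamard (Matrix.posSemidef_gram ℝ v)
    have e : (Matrix.of fun i j => ⟪v i, v j⟫ ^ (m + 1) : Matrix (Fin N) (Fin N) ℝ) =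
        Matrix.hadamard (Matrix.of fun i j => ⟪v i, v j⟫ ^ m) (Matrix.gram ℝ v) := by
      ext i j
      simp [Matrix.hadamard_apply, Matrix.gram_apply, pow_succ]
    rw [e]
    exact h

private theorem Lrg_term {N d : ℕ} (v : Fin N → E d) (y : Fin N → ℝ) (m : ℕ) :
    0 ≤ ∑ i, ∑ j, y i * y j * (⟪v i, v j⟫ ^ m / (m.factorial : ℝ)) := by
  have h := (Lrg_pow v m).dotProduct_mulVec_nonneg y
  have e : ∑ i, ∑ j, y i * y j * (⟪v i, v j⟫ ^ m / (m.factorial : ℝ)) =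
      (1 / (m.factorial : ℝ)) * (star y ⬝ᵥ
        ((Matrix.of fun i j => ⟪v i, v j⟫ ^ m : Matrix (Fin N) (Fin N) ℝ).mulVec y)) := by
    simp only [dotProduct, Matrix.mulVec, Matrix.of_apply, Pi.star_apply, star_trivial,
      Finset.mul_sum]
    refine Finset.sum_congr rfl (fun i _ => Finset.sum_congr rfl (fun j _ => ?_))
    ring
  rw [e]
  exact mul_nonneg (by positivity) h

private theorem Lrg_exp {N d : ℕ} (v : Fin N → E d) (y : Fin N → ℝ) :
    0 ≤ ∑ i, ∑ j, y i * y j * Real.exp ⟪v i, v j⟫ := by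
  have h : HasSum (fun m : ℕ => ∑ i, ∑ j, y i * y j * (⟪v i, v j⟫ ^ m / (m.factorial : ℝ)))
      (∑ i, ∑ j, y i * y j * Real.exp ⟪v i, v j⟫) := by
    refine hasSum_sum (fun i _ => hasSum_sum (fun j _ => ?_))
    refine HasSum.mul_left _ ?_
    rw [Real.exp_eq_exp_ℝ]
    exact NormedSpace.expSeries_div_hasSum_exp _
  exact h.nonneg (fun m => Lrg_term v y m)

private theorem Lrg_psd {N d : ℕ} (p : Fin N → E d) (r : ℝ) (hr : 0 < r) :
    (Matrix.of fun i j => r ^ 2 * Real.exp (-(dist (p i) (p j) ^ 2 / (2 * r ^ 2))) :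
      Matrix (Fin N) (Fin N) ℝ).PosSemidef := by
  refine Matrix.PosSemidef.of_dotProduct_mulVec_nonneg ?_ (fun x => ?_)
  · ext i j
    simp [Matrix.conjTranspose_apply, dist_comm (p i) (p j)]
  · have hD : ∀ i j, r ^ 2 * Real.exp (-(dist (p i) (p j) ^ 2 / (2 * r ^ 2))) =
        (r * Real.exp (-(‖p i‖ ^ 2 / (2 * r ^ 2)))) * (r * Real.exp (-(‖p j‖ ^ 2 / (2 * r ^ 2)))) *
          Real.exp ⟪r⁻¹ • p i, r⁻¹ • p j⟫ := by
      intro i j
      have h1 : dist (p i) (p j) ^ 2 = ‖p i‖ ^ 2 - 2 * ⟪p i, p j⟫ + ‖p j‖ ^ 2 := by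
        rw [dist_eq_norm, @norm_sub_sq_real]
      have h2 : ⟪r⁻¹ • p i, r⁻¹ • p j⟫ = ⟪p i, p j⟫ / r ^ 2 := by
        rw [real_inner_smul_left, real_inner_smul_right]
        field_simp
      have h3 : -(dist (p i) (p j) ^ 2 / (2 * r ^ 2)) =
          -(‖p i‖ ^ 2 / (2 * r ^ 2)) + -(‖p j‖ ^ 2 / (2 * r ^ 2)) + ⟪p i, p j⟫ / r ^ 2 := by
        rw [h1]
        field_simp
        ring
      rw [h3, h2, Real.exp_add, Real.exp_add]
      ring
    have h := Lrg_exp (fun i => r⁻¹ • p i)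
      (fun i => r * Real.exp (-(‖p i‖ ^ 2 / (2 * r ^ 2))) * x i)
    have e : star x ⬝ᵥ ((Matrix.of fun i j => r ^ 2 * Real.exp (-(dist (p i) (p j) ^ 2 /
        (2 * r ^ 2))) : Matrix (Fin N) (Fin N) ℝ).mulVec x) =
        ∑ i, ∑ j, (r * Real.exp (-(‖p i‖ ^ 2 / (2 * r ^ 2))) * x i) *
          (r * Real.exp (-(‖p j‖ ^ 2 / (2 * r ^ 2))) * x j) *
            Real.exp ⟪r⁻¹ • p i, r⁻¹ • p j⟫ := by
      simp only [dotProduct, Matrix.mulVec, Matrix.of_apply, Pi.star_apply, star_trivial,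
        Finset.mul_sum]
      refine Finset.sum_congr rfl (fun i _ => Finset.sum_congr rfl (fun j _ => ?_))
      rw [hD i j]
      ring
    rw [e]
    exact h

theorem tLrg (hG : GraStmt) : LrgStmt := by
  intro d N p q r hd hr hpq
  refine hG d N p q (fun _ => r) hd (fun _ => ?_)
  refine ⟨Matrix.of fun i j => r ^ 2 * Real.exp (-(dist (p i) (p j) ^ 2 / (2 * r ^ 2))),
    Lrg_psd p r hr, fun i => ?_, fun i j => ⟨?_, ?_⟩⟩
  · simp
  · simp only [Matrix.of_apply]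
    have h1 := Real.add_one_le_exp (-(dist (p i) (p j) ^ 2 / (2 * r ^ 2)))
    have h2 : 2 * r ^ 2 * (-(dist (p i) (p j) ^ 2 / (2 * r ^ 2)) + 1) =
        2 * r ^ 2 - dist (p i) (p j) ^ 2 := by
      field_simp
      ring
    have h3 := mul_le_mul_of_nonneg_left h1 (by positivity : (0 : ℝ) ≤ 2 * r ^ 2)
    rw [h2] at h3
    linarith
  · simp only [Matrix.of_apply]
    have h1 := hpq i j
    linarith

end Pool.Agent.Lib.MP_0c1c75_co.TG
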