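import Pool.Agent.Lib.MP_0c1c75_co.TG.Spec

set_option autoImplicit false

/-!
MP_0c1c75_co, project TG, module MainG (helper97): Theorem G from its parts.
-/

open MeasureTheory Set Filter Topology
open scoped RealInnerProductSpace

namespace Pool.Agent.Lib.MP_0c1c75_co.TG

private theorem MainG_gauss (M : ℕ) : 0 < ∫ g : E M, Real.exp (-(‖g‖ ^ 2 / 2)) := by
  have h1 : (∫ g : E M, Real.exp (-(‖g‖ ^ 2 / 2))) = ∫ g : E M, Real.exp (-(1 / 2) * ‖g‖ ^ 2) := by
    apply integral_congr_ae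
    filter_upwards with g
    congr 1
    ring
  rw [h1, GaussianFourier.integral_rexp_neg_mul_sq_norm (by norm_num : (0 : ℝ) < 1 / 2)]
  apply Real.rpow_pos_of_pos
  positivity

theorem tMainG (hFunC : FunCStmt) (hMon : MonStmt) (hLimI : LimIStmt) (hLimZ : LimZStmt) : GStmt := by
  intro M d N p q R r hd hR hq hp
  obtain rfl : r = fun i => ‖R i‖ := funext (fun i => (hR i).symm)
  rcases Nat.eq_zero_or_pos N with hN | hN
  · subst hN
    rw [iInter_of_empty, iInter_of_empty]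
  set k : ℝ := (d : ℝ) / 2 with hk
  have hk1 : 1 < k := by
    have : (3 : ℝ) ≤ d := by exact_mod_cast hd
    rw [hk]
    linarith
  obtain ⟨C0, hC0, hlim⟩ := hFunC k hk1
  have hG := MainG_gauss M
  set G : ℝ := ∫ g : E M, Real.exp (-(‖g‖ ^ 2 / 2)) with hGdef
  have hθ : ∀ n : ℕ, (0 : ℝ) < 1 / ((n : ℝ) + 1) := fun n => by positivity
  have hθ2 : ∀ n : ℕ, 1 / ((n : ℝ) + 1) ≤ (n : ℝ) + 1 := by
    intro n
    have h0 : (0 : ℝ) ≤ n := Nat.cast_nonneg n
    have h1 : (0 : ℝ) < (n : ℝ) + 1 := by linarith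
    rw [div_le_iff₀ h1]
    nlinarith
  have hq' : ∀ i j, ‖q i - q j‖ ≤ ‖R i - R j‖ := by
    intro i j
    have := hq i j
    rwa [dist_eq_norm, dist_eq_norm] at this
  have hp' : ∀ i j, ‖R i - R j‖ ≤ ‖p i - p j‖ := by
    intro i j
    have := hp i j
    rwa [dist_eq_norm, dist_eq_norm] at this
  have h1 : L0 d k R ≤ C0 * G * (volume (⋂ i, Metric.closedBall (q i) ‖R i‖)).toReal :=
    le_of_tendsto_of_tendsto' (hLimZ M d N R q k hk hk1 hN) (hLimI M d N R q k C0 hk hk1 hN hlim)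
      (fun n => (hMon M d N R q k _ _ hk hk1 hN (hθ n) (hθ2 n)).1 hq')
  have h2 : C0 * G * (volume (⋂ i, Metric.closedBall (p i) ‖R i‖)).toReal ≤ L0 d k R :=
    le_of_tendsto_of_tendsto' (hLimI M d N R p k C0 hk hk1 hN hlim) (hLimZ M d N R p k hk hk1 hN)
      (fun n => (hMon M d N R p k _ _ hk hk1 hN (hθ n) (hθ2 n)).2 hp')
  have h3 : (volume (⋂ i, Metric.closedBall (p i) ‖R i‖)).toReal ≤
      (volume (⋂ i, Metric.closedBall (q i) ‖R i‖)).toReal :=
    le_of_mul_le_mul_left (le_trans h2 h1) (mul_pos hC0 hG)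
  have hfin : ∀ c : Fin N → E d, volume (⋂ i, Metric.closedBall (c i) ‖R i‖) ≠ ⊤ := by
    intro c
    exact ne_of_lt (lt_of_le_of_lt (measure_mono (iInter_subset _ (⟨0, hN⟩ : Fin N)))
      measure_closedBall_lt_top)
  exact (ENNReal.toReal_le_toReal (hfin p) (hfin q)).1 h3

end Pool.Agent.Lib.MP_0c1c75_co.TG
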