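import Pool.Agent.Lib.MP_0c1c75_co.TG.Spec

/-!
MP_0c1c75_co, project TG: the Gaussian majorant.
-/

set_option autoImplicit false

namespace Pool.Agent.Lib.MP_0c1c75_co.TG

open MeasureTheory Set Filter Topology
open scoped RealInnerProductSpace

/-- one factor -/
private theorem Maj_one (n : ℕ) (A b : ℝ) (hb : 0 < b) :
    Integrable (fun y : E n => Real.exp (-(b * ‖y‖ ^ 2) + A * ‖y‖)) := by
  have hpos : 0 < b / 2 := by positivity
  have h0 : ∫ y : E n, Real.exp (-(b / 2) * ‖y‖ ^ 2) ≠ 0 := by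
    rw [GaussianFourier.integral_rexp_neg_mul_sq_norm hpos]
    positivity
  have h1 : Integrable (fun y : E n => Real.exp (-(b / 2) * ‖y‖ ^ 2)) :=
    Integrable.of_integral_ne_zero h0
  have h2 := h1.const_mul (Real.exp (A ^ 2 / (2 * b)))
  refine h2.mono' ?_ (Eventually.of_forall fun y => ?_)
  · apply Continuous.aestronglyMeasurable
    fun_prop
  · rw [Real.norm_eq_abs, abs_of_pos (Real.exp_pos _), ← Real.exp_add]
    apply Real.exp_le_exp.2
    have e : A ^ 2 / (2 * b) + -(b / 2) * ‖y‖ ^ 2 - (-(b * ‖y‖ ^ 2) + A * ‖y‖) =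
        (A - b * ‖y‖) ^ 2 / (2 * b) := by
      field_simp
      ring
    have h3 : 0 ≤ (A - b * ‖y‖) ^ 2 / (2 * b) := by positivity
    linarith

theorem tMaj : MajStmt := by
  intro M d A c hc
  refine ⟨?_, fun x => ?_⟩
  · have h1 := Maj_one M A (1 / 2) (by norm_num)
    have h2 := Maj_one d A c hc
    have h3 := h1.mul_prod h2
    have e : (maj A c : E M × E d → ℝ) = fun z : E M × E d =>
        Real.exp (-(1 / 2 * ‖z.1‖ ^ 2) + A * ‖z.1‖) * Real.exp (-(c * ‖z.2‖ ^ 2) + A * ‖z.2‖) := by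
      funext z
      unfold maj
      have e1 : ‖z.1‖ ^ 2 / 2 = 1 / 2 * ‖z.1‖ ^ 2 := by ring
      rw [e1]
    rw [e]
    exact h3
  · have hs : 0 ≤ ‖x.1‖ + ‖x.2‖ := by positivity
    have h1 : (‖x.1‖ + ‖x.2‖) / 2 + 1 ≤ Real.exp ((‖x.1‖ + ‖x.2‖) / 2) := Real.add_one_le_exp _
    have h2 : (1 + ‖x.1‖ + ‖x.2‖) ^ 2 ≤ 4 * Real.exp (‖x.1‖ + ‖x.2‖) := by
      have h3 : 1 + ‖x.1‖ + ‖x.2‖ ≤ 2 * Real.exp ((‖x.1‖ + ‖x.2‖) / 2) := by linarith
      have h4 : Real.exp (‖x.1‖ + ‖x.2‖) = Real.exp ((‖x.1‖ + ‖x.2‖) / 2) ^ 2 := by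
        rw [← Real.exp_nat_mul]
        congr 1
        push_cast
        ring
      rw [h4]
      have h5 := pow_le_pow_left₀ (by linarith : 0 ≤ 1 + ‖x.1‖ + ‖x.2‖) h3 2
      linarith
    have h6 : maj (A + 1) c x = maj A c x * Real.exp (‖x.1‖ + ‖x.2‖) := by
      unfold maj
      rw [← Real.exp_add, ← Real.exp_add, ← Real.exp_add]
      congr 1
      ring
    have h7 : 0 ≤ maj A c x := by
      unfold maj
      positivity
    rw [h6]
    nlinarith [mul_le_mul_of_nonneg_right h2 h7]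

end Pool.Agent.Lib.MP_0c1c75_co.TG
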