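import Pool.Agent.Lib.MP_0c1c75_co.TG.Spec

set_option autoImplicit false

/-!
Monotonicity of `ThH` in `θ`.
-/

namespace Pool.Agent.Lib.MP_0c1c75_co.TG

open MeasureTheory Set Filter Topology
open scoped RealInnerProductSpace

private theorem Mon_int {M d N : ℕ} (hFunB : FunBStmt) (hMaj : MajStmt) (hBnd : BndStmt)
    (hDer : DerStmt) (hSgn : SgnStmt) (R : Fin N → E M) (q : Fin N → E d) (k θ1 θ2 : ℝ)
    (hkd : k = (d : ℝ) / 2) (hk : 1 < k) (hN : 0 < N) (h1 : 0 < θ1) (h12 : θ1 ≤ θ2)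
    (hle : ∀ i j, ‖R i - R j‖ ≤ ‖q i - q j‖) : ∃ B : ℝ, 0 ≤ B ∧ ∀ l θ : ℝ, 1 ≤ l → θ1 ≤ θ → θ ≤ θ2 →
      ∫ x : E M × E d, rho x * QQ k R q l θ x ≤ B * (1 / l) := by
  obtain ⟨Cf, hCf, hF⟩ := hFunB k hk
  obtain ⟨A, C, hA, hC, hB⟩ := hBnd M d N R q θ1 θ2 hN h1 h12
  have hmi := (hMaj M d A (θ1 ^ 2) (by positivity)).1
  have hG : 0 ≤ ∫ x : E M × E d, maj A (θ1 ^ 2) x := by
    refine integral_nonneg fun x => ?_
    unfold maj
    positivity
  refine ⟨4 * N * (3 * Cf * C) * ∫ x : E M × E d, maj A (θ1 ^ 2) x, by positivity, ?_⟩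
  intro l θ hl hθ1 hθ2
  have hl0 : 0 < l := by linarith only [hl]
  have hθ0 : 0 < θ := lt_of_lt_of_le h1 hθ1
  have hpt : ∀ x : E M × E d, rho x * QQ k R q l θ x ≤ 4 * (N / l) * (3 * Cf * C) * maj A (θ1 ^ 2) x := by
    intro x
    have hr : 0 ≤ rho x := (Real.exp_pos _).le
    have e1 := (hSgn M d N R q k l θ x hk hN hl).2 hle
    obtain ⟨-, f2, f3, -, -⟩ := hF (TT R q l θ x) 1 zero_le_one
    rw [one_mul] at f2 f3
    have f4 := (abs_le.1 f3).2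
    have e2 : ph k (TT R q l θ x) + 2 * dph k (TT R q l θ x) ≤ 3 * Cf * Real.exp (TT R q l θ x) := by
      linarith only [f2, f4]
    have e3 := (hB l θ x hl0 hθ1 hθ2).1
    have hNl : 0 ≤ 4 * ((N : ℝ) / l) := by positivity
    calc rho x * QQ k R q l θ x
        ≤ rho x * (4 * (N / l) * (3 * Cf * Real.exp (TT R q l θ x))) :=
          mul_le_mul_of_nonneg_left (e1.trans (mul_le_mul_of_nonneg_left e2 hNl)) hr
      _ = 4 * (N / l) * (3 * Cf) * (rho x * Real.exp (TT R q l θ x)) := by ring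
      _ ≤ 4 * (N / l) * (3 * Cf) * (C * maj A (θ1 ^ 2) x) :=
          mul_le_mul_of_nonneg_left e3 (by positivity)
      _ = 4 * (N / l) * (3 * Cf * C) * maj A (θ1 ^ 2) x := by ring
  have hi := (hDer M d N R q k l θ hkd hk hN hl0 hθ0).1
  refine (integral_mono hi (hmi.const_mul _) hpt).trans (le_of_eq ?_)
  rw [integral_const_mul]
  ring

private theorem Mon_diff {M d N : ℕ} (hDer : DerStmt) (R : Fin N → E M) (q : Fin N → E d) (k l θ1 θ2 B : ℝ)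
    (hkd : k = (d : ℝ) / 2) (hk : 1 < k) (hN : 0 < N) (hl : 0 < l) (h1 : 0 < θ1) (h12 : θ1 ≤ θ2)
    (hB : ∀ θ : ℝ, θ1 ≤ θ → θ ≤ θ2 → θ⁻¹ * (∫ x : E M × E d, rho x * QQ k R q l θ x) ≤ B) :
    Th k R q l θ2 - Th k R q l θ1 ≤ B * (θ2 - θ1) := by
  have hd : ∀ θ : ℝ, θ1 ≤ θ → HasDerivAt (fun s => Th k R q l s)
      (θ⁻¹ * ∫ x : E M × E d, rho x * QQ k R q l θ x) θ := fun θ hθ =>
    (hDer M d N R q k l θ hkd hk hN hl (lt_of_lt_of_le h1 hθ)).2
  refine (convex_Icc θ1 θ2).image_sub_le_mul_sub_of_deriv_le (f := fun s => Th k R q l s) ?_ ?_ ?_ θ1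
    (left_mem_Icc.2 h12) θ2 (right_mem_Icc.2 h12) h12
  · exact fun x hx => (hd x hx.1).continuousAt.continuousWithinAt
  · exact fun x hx => (hd x (interior_subset hx).1).differentiableAt.differentiableWithinAt
  · intro x hx
    rw [(hd x (interior_subset hx).1).deriv]
    exact hB x (interior_subset hx).1 (interior_subset hx).2

private theorem Mon_diff' {M d N : ℕ} (hDer : DerStmt) (R : Fin N → E M) (q : Fin N → E d) (k l θ1 θ2 : ℝ)
    (hkd : k = (d : ℝ) / 2) (hk : 1 < k) (hN : 0 < N) (hl : 0 < l) (h1 : 0 < θ1) (h12 : θ1 ≤ θ2)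
    (hB : ∀ θ : ℝ, θ1 ≤ θ → θ ≤ θ2 → 0 ≤ θ⁻¹ * (∫ x : E M × E d, rho x * QQ k R q l θ x)) :
    Th k R q l θ1 ≤ Th k R q l θ2 := by
  have hd : ∀ θ : ℝ, θ1 ≤ θ → HasDerivAt (fun s => Th k R q l s)
      (θ⁻¹ * ∫ x : E M × E d, rho x * QQ k R q l θ x) θ := fun θ hθ =>
    (hDer M d N R q k l θ hkd hk hN hl (lt_of_lt_of_le h1 hθ)).2
  refine monotoneOn_of_deriv_nonneg (convex_Icc θ1 θ2) (f := fun s => Th k R q l s) ?_ ?_ ?_
    (left_mem_Icc.2 h12) (right_mem_Icc.2 h12) h12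
  · exact fun x hx => (hd x hx.1).continuousAt.continuousWithinAt
  · exact fun x hx => (hd x (interior_subset hx).1).differentiableAt.differentiableWithinAt
  · intro x hx
    rw [(hd x (interior_subset hx).1).deriv]
    exact hB x (interior_subset hx).1 (interior_subset hx).2

theorem tMon (hFunA : FunAStmt) (hFunB : FunBStmt) (hMaj : MajStmt) (hBnd : BndStmt) (hCts : CtsStmt)
    (hDer : DerStmt) (hSgn : SgnStmt) (hLimL : LimLStmt) : MonStmt := by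
  have _ := hFunA
  have _ := hCts
  intro M d N R q k θ1 θ2 hkd hk hN h1 h12
  have h2 : 0 < θ2 := lt_of_lt_of_le h1 h12
  have hl : ∀ n : ℕ, (1 : ℝ) ≤ (n : ℝ) + 1 := fun n => by
    have : (0 : ℝ) ≤ n := Nat.cast_nonneg n
    linarith only [this]
  have hL1 := hLimL M d N R q k θ1 hk hN h1
  have hL2 := hLimL M d N R q k θ2 hk hN h2
  constructor
  · intro hle
    refine le_of_tendsto_of_tendsto' hL1 hL2 fun n => ?_
    refine Mon_diff' hDer R q k _ θ1 θ2 hkd hk hN (by linarith only [hl n]) h1 h12 ?_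
    intro θ hθ _
    refine mul_nonneg (inv_nonneg.2 (h1.le.trans hθ)) (integral_nonneg fun x => ?_)
    exact mul_nonneg (Real.exp_pos _).le ((hSgn M d N R q k _ θ x hk hN (hl n)).1 hle)
  · intro hle
    obtain ⟨B, hB0, hB⟩ := Mon_int hFunB hMaj hBnd hDer hSgn R q k θ1 θ2 hkd hk hN h1 h12 hle
    have hz : Tendsto (fun n : ℕ => θ1⁻¹ * B * (θ2 - θ1) * (1 / ((n : ℝ) + 1))) atTop
        (𝓝 (θ1⁻¹ * B * (θ2 - θ1) * 0)) :=
      tendsto_one_div_add_atTop_nhds_zero_nat.const_mul _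
    have hL3 := hL1.add hz
    rw [mul_zero, add_zero] at hL3
    refine le_of_tendsto_of_tendsto' hL2 hL3 fun n => ?_
    have h3 := Mon_diff hDer R q k ((n : ℝ) + 1) θ1 θ2 (θ1⁻¹ * (B * (1 / ((n : ℝ) + 1)))) hkd hk hN
      (by linarith only [hl n]) h1 h12 (by
        intro θ hθ1 hθ2
        have hθ0 : 0 < θ := lt_of_lt_of_le h1 hθ1
        have hn0 : 0 ≤ B * (1 / ((n : ℝ) + 1)) :=
          mul_nonneg hB0 (one_div_nonneg.2 (by linarith only [hl n]))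
        exact (mul_le_mul_of_nonneg_left (hB _ θ (hl n) hθ1 hθ2) (inv_nonneg.2 hθ0.le)).trans
          (mul_le_mul_of_nonneg_right (inv_anti₀ h1 hθ1) hn0))
    have h4 : θ1⁻¹ * (B * (1 / ((n : ℝ) + 1))) * (θ2 - θ1) = θ1⁻¹ * B * (θ2 - θ1) * (1 / ((n : ℝ) + 1)) := by
      ring
    linarith only [h3, h4]

end Pool.Agent.Lib.MP_0c1c75_co.TG
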