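import Pool.Agent.Lib.MP_0c1c75_co.TG.SpecC

/-!
MP_0c1c75_co, project TG: vectors with a given positive semidefinite Gram matrix (`PsdStmt`).
-/

set_option autoImplicit false

open MeasureTheory Set Filter Topology
open scoped RealInnerProductSpace

namespace Pool.Agent.Lib.MP_0c1c75_co.TG

open scoped MatrixOrder in
private theorem Psd_fac (N : ℕ) (G : Matrix (Fin N) (Fin N) ℝ) (h : G.PosSemidef) :
    ∃ B : Matrix (Fin N) (Fin N) ℝ, G = B.conjTranspose * B :=
  (CStarAlgebra.nonneg_iff_eq_star_mul_self (a := G)).mp h.nonneg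

theorem tPsd : PsdStmt := by
  intro N G h
  obtain ⟨B, hB⟩ := Psd_fac N G h
  refine ⟨fun i => WithLp.toLp 2 (fun k => B k i), fun i j => ?_⟩
  rw [hB]
  simp [Matrix.mul_apply, PiLp.inner_apply, mul_comm]

end Pool.Agent.Lib.MP_0c1c75_co.TG
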