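import Pool.Agent.Lib.MP_0c1c75_co.TG.Spec

/-!
MP_0c1c75_co, project TG: the sign of the density `QQ` (`SgnStmt`).
-/

set_option autoImplicit false

namespace Pool.Agent.Lib.MP_0c1c75_co.TG

open MeasureTheory Set Filter Topology
open scoped RealInnerProductSpace

private theorem Sgn_DD {M d N : ℕ} (R : Fin N → E M) (q : Fin N → E d) (l θ : ℝ) (x : E M × E d)
    (hw : ∀ i, 0 ≤ wt l (lin R q θ x) i) :
    ((∀ i j, ‖q i - q j‖ ≤ ‖R i - R j‖) → 0 ≤ DD R q l θ x) ∧
    ((∀ i j, ‖R i - R j‖ ≤ ‖q i - q j‖) → DD R q l θ x ≤ 0) := by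
  unfold DD
  constructor
  · intro h
    refine mul_nonneg (sq_nonneg θ) (Finset.sum_nonneg fun i _ => Finset.sum_nonneg fun j _ =>
      mul_nonneg (mul_nonneg (hw i) (hw j)) ?_)
    have h1 := pow_le_pow_left₀ (norm_nonneg _) (h i j) 2
    linarith
  · intro h
    refine mul_nonpos_of_nonneg_of_nonpos (sq_nonneg θ) (Finset.sum_nonpos fun i _ =>
      Finset.sum_nonpos fun j _ => mul_nonpos_of_nonneg_of_nonpos (mul_nonneg (hw i) (hw j)) ?_)
    have h1 := pow_le_pow_left₀ (norm_nonneg _) (h i j) 2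
    linarith

theorem tSgn (hFunA : FunAStmt) (hSoftA : SoftAStmt) : SgnStmt := by
  intro M d N R q k l θ x hk hN hl
  have hl0 : 0 < l := by linarith
  obtain ⟨-, -, -, -, -, hph, hph2, -⟩ := hFunA k hk
  obtain ⟨hw, -, -, -, -, -, hH0, hHN⟩ := hSoftA N l (lin R q θ x) hN hl0
  have h1 := hph (TT R q l θ x)
  have h2 := hph2 (TT R q l θ x)
  have hH0' : 0 ≤ HH R q l θ x := hH0
  have hHN' : HH R q l θ x ≤ N / l := hHN
  obtain ⟨hD1, hD2⟩ := Sgn_DD R q l θ x hw
  have h3 : 0 ≤ l * ph k (TT R q l θ x) + 2 * dph k (TT R q l θ x) := by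
    have h4 : 0 ≤ (l - 1) * ph k (TT R q l θ x) := mul_nonneg (by linarith) h1
    linarith
  unfold QQ
  constructor
  · intro h
    have h5 := hD1 h
    have h6 : 0 ≤ 4 * HH R q l θ x * (ph k (TT R q l θ x) + 2 * dph k (TT R q l θ x)) :=
      mul_nonneg (by linarith) h2
    have h7 : 0 ≤ 2 * (l * ph k (TT R q l θ x) + 2 * dph k (TT R q l θ x)) * DD R q l θ x :=
      mul_nonneg (by linarith) h5
    linarith
  · intro h
    have h5 := hD2 h
    have h6 : 4 * HH R q l θ x * (ph k (TT R q l θ x) + 2 * dph k (TT R q l θ x)) ≤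
        4 * (N / l) * (ph k (TT R q l θ x) + 2 * dph k (TT R q l θ x)) :=
      mul_le_mul_of_nonneg_right (by linarith) h2
    have h7 : 2 * (l * ph k (TT R q l θ x) + 2 * dph k (TT R q l θ x)) * DD R q l θ x ≤ 0 :=
      mul_nonpos_of_nonneg_of_nonpos (by linarith) h5
    linarith

end Pool.Agent.Lib.MP_0c1c75_co.TG
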