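import Pool.Agent.Lib.MP_0c1c75_co.TG.Spec

/-!
MP_0c1c75_co, project TG: inequalities for the softmin.
-/

set_option autoImplicit false

namespace Pool.Agent.Lib.MP_0c1c75_co.TG

open MeasureTheory Set Filter Topology
open scoped RealInnerProductSpace

private lemma SoftA_pos {N : ℕ} (l : ℝ) (a : Fin N → ℝ) (hN : 0 < N) :
    0 < ∑ i, Real.exp (-(l * a i)) :=
  Finset.sum_pos (fun _ _ => Real.exp_pos _) ⟨⟨0, hN⟩, Finset.mem_univ _⟩

private lemma SoftA_sum {N : ℕ} (l : ℝ) (a : Fin N → ℝ) (hN : 0 < N) : ∑ i, wt l a i = 1 := by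
  unfold wt
  rw [← Finset.sum_div]
  exact div_self (SoftA_pos l a hN).ne'

private lemma SoftA_le {N : ℕ} (l : ℝ) (a : Fin N → ℝ) (hN : 0 < N) (hl : 0 < l) (i : Fin N) :
    smn l a ≤ a i := by
  have hS := SoftA_pos l a hN
  have h1 : Real.exp (-(l * a i)) ≤ ∑ j, Real.exp (-(l * a j)) :=
    Finset.single_le_sum (f := fun j => Real.exp (-(l * a j)))
      (fun j _ => (Real.exp_pos _).le) (Finset.mem_univ i)
  have h2 : -(l * a i) ≤ Real.log (∑ j, Real.exp (-(l * a j))) :=
    (Real.le_log_iff_exp_le hS).2 h1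
  have h3 : -a i ≤ Real.log (∑ j, Real.exp (-(l * a j))) / l := by
    rw [le_div_iff₀ hl]
    linarith
  unfold smn
  linarith

private lemma SoftA_wt {N : ℕ} (l : ℝ) (a : Fin N → ℝ) (hN : 0 < N) (hl : 0 < l) (i : Fin N) :
    wt l a i = Real.exp (-(l * (a i - smn l a))) := by
  have hS := SoftA_pos l a hN
  have h1 : l * smn l a = -Real.log (∑ j, Real.exp (-(l * a j))) := by
    unfold smn
    field_simp
  have h2 : -(l * (a i - smn l a)) =
      -(l * a i) - Real.log (∑ j, Real.exp (-(l * a j))) := by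
    rw [mul_sub, h1]
    ring
  rw [h2, Real.exp_sub, Real.exp_log hS]
  rfl

private lemma SoftA_term {N : ℕ} (l : ℝ) (a : Fin N → ℝ) (hN : 0 < N) (hl : 0 < l) (i : Fin N) :
    wt l a i * (a i - smn l a) ≤ 1 / l := by
  rw [SoftA_wt l a hN hl i]
  have h1 : l * (a i - smn l a) + 1 ≤ Real.exp (l * (a i - smn l a)) := Real.add_one_le_exp _
  have h2 : 0 < Real.exp (-(l * (a i - smn l a))) := Real.exp_pos _
  have h3 : Real.exp (-(l * (a i - smn l a))) * Real.exp (l * (a i - smn l a)) = 1 := by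
    rw [← Real.exp_add]
    simp
  rw [le_div_iff₀ hl]
  nlinarith

theorem tSoftA : SoftAStmt := by
  intro N l a hN hl
  have hS := SoftA_pos l a hN
  have : Nonempty (Fin N) := ⟨⟨0, hN⟩⟩
  have h0 : ∀ i, 0 ≤ wt l a i := fun i => div_nonneg (Real.exp_pos _).le hS.le
  have h1 := SoftA_sum l a hN
  have hle := SoftA_le l a hN hl
  have hsum : (∑ i, wt l a i * a i) - smn l a = ∑ i, wt l a i * (a i - smn l a) := by
    have e : ∑ i, wt l a i * (a i - smn l a) =
        (∑ i, wt l a i * a i) - (∑ i, wt l a i) * smn l a := by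
      rw [Finset.sum_mul, ← Finset.sum_sub_distrib]
      exact Finset.sum_congr rfl fun i _ => by ring
    rw [e, h1, one_mul]
  refine ⟨h0, fun i => ?_, h1, hle, ?_, le_ciInf hle, ?_, ?_⟩
  · rw [← h1]
    exact Finset.single_le_sum (f := fun j => wt l a j) (fun j _ => h0 j) (Finset.mem_univ i)
  · have hNr : (0 : ℝ) < N := by exact_mod_cast hN
    have h2 : ∑ i, Real.exp (-(l * a i)) ≤ N * Real.exp (-(l * ⨅ i, a i)) := by
      have h3 : ∀ i ∈ (Finset.univ : Finset (Fin N)),
          Real.exp (-(l * a i)) ≤ Real.exp (-(l * ⨅ i, a i)) := by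
        intro i _
        apply Real.exp_le_exp.2
        have h4 : (⨅ i, a i) ≤ a i := ciInf_le (Set.finite_range a).bddBelow i
        have h5 : l * (⨅ i, a i) ≤ l * a i := mul_le_mul_of_nonneg_left h4 hl.le
        linarith
      calc ∑ i, Real.exp (-(l * a i)) ≤ ∑ _i : Fin N, Real.exp (-(l * ⨅ i, a i)) :=
            Finset.sum_le_sum h3
        _ = N * Real.exp (-(l * ⨅ i, a i)) := by
            rw [Finset.sum_const, Finset.card_univ, Fintype.card_fin, nsmul_eq_mul]
    have h6 : Real.log (∑ i, Real.exp (-(l * a i))) ≤ Real.log N - l * ⨅ i, a i := by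
      have h7 := Real.log_le_log hS h2
      rw [Real.log_mul hNr.ne' (Real.exp_pos _).ne', Real.log_exp] at h7
      linarith
    have h8 : Real.log (∑ i, Real.exp (-(l * a i))) / l ≤ Real.log N / l - ⨅ i, a i := by
      rw [div_le_iff₀ hl, sub_mul, div_mul_cancel₀ _ hl.ne']
      linarith
    unfold smn
    linarith
  · rw [hsum]
    exact Finset.sum_nonneg fun i _ => mul_nonneg (h0 i) (sub_nonneg.2 (hle i))
  · rw [hsum]
    calc ∑ i, wt l a i * (a i - smn l a) ≤ ∑ _i : Fin N, 1 / l :=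
          Finset.sum_le_sum fun i _ => SoftA_term l a hN hl i
      _ = N / l := by
          rw [Finset.sum_const, Finset.card_univ, Fintype.card_fin, nsmul_eq_mul]
          ring

end Pool.Agent.Lib.MP_0c1c75_co.TG
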