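import Pool.Agent.Lib.MP_0c1c75_co.TG.Spec

/-!
MP_0c1c75_co, project TG: derivative of the softmin and of its weights.
-/

set_option autoImplicit false

namespace Pool.Agent.Lib.MP_0c1c75_co.TG

open MeasureTheory Set Filter Topology
open scoped RealInnerProductSpace

theorem tSoftB : SoftBStmt := by
  intro N l a a' t hN hl ha
  have hne : (Finset.univ : Finset (Fin N)).Nonempty := ⟨⟨0, hN⟩, Finset.mem_univ _⟩
  have he : ∀ i, HasDerivAt (fun s => Real.exp (-(l * a s i)))
      (Real.exp (-(l * a t i)) * (-(l * a' i))) t := fun i => (((ha i).const_mul l).neg).exp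
  have hS : HasDerivAt (fun s => ∑ i, Real.exp (-(l * a s i)))
      (∑ i, Real.exp (-(l * a t i)) * (-(l * a' i))) t :=
    HasDerivAt.fun_sum fun i _ => he i
  have hpos : 0 < ∑ i, Real.exp (-(l * a t i)) := Finset.sum_pos (fun i _ => Real.exp_pos _) hne
  have hS0 : (∑ i, Real.exp (-(l * a t i))) ≠ 0 := hpos.ne'
  have e1 : ∑ i, Real.exp (-(l * a t i)) * (-(l * a' i)) =
      -(l * ∑ i, Real.exp (-(l * a t i)) * a' i) := by
    rw [Finset.mul_sum, ← Finset.sum_neg_distrib]
    exact Finset.sum_congr rfl fun i _ => by ring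
  have e2 : ∑ i, wt l (a t) i * a' i =
      (∑ i, Real.exp (-(l * a t i)) * a' i) / ∑ j, Real.exp (-(l * a t j)) := by
    rw [Finset.sum_div]
    refine Finset.sum_congr rfl fun i _ => ?_
    unfold wt
    ring
  refine ⟨?_, fun i => ?_⟩
  · have h1 := ((hS.log hS0).div_const l).neg
    have h2 : -((∑ i, Real.exp (-(l * a t i)) * (-(l * a' i))) /
        (∑ i, Real.exp (-(l * a t i))) / l) = ∑ i, wt l (a t) i * a' i := by
      rw [e1, e2]
      field_simp
    rw [h2] at h1
    exact h1
  · have h1 := (he i).div hS hS0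
    have h2 : (Real.exp (-(l * a t i)) * (-(l * a' i)) * (∑ i, Real.exp (-(l * a t i))) -
        Real.exp (-(l * a t i)) * ∑ i, Real.exp (-(l * a t i)) * (-(l * a' i))) /
          (∑ i, Real.exp (-(l * a t i))) ^ 2 =
        -(l * wt l (a t) i * (a' i - ∑ j, wt l (a t) j * a' j)) := by
      rw [e1, e2]
      unfold wt
      field_simp
      ring
    rw [h2] at h1
    exact h1

end Pool.Agent.Lib.MP_0c1c75_co.TG
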