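import Pool.Agent.Lib.MP_0c1c75_co.TG.Def

/-!
MP_0c1c75_co, project TG (Theorem G): the statements of the modules, as Props, with complete proofs
in the docstrings (helper32). All modules are independent of each other.

IDEA. Let `T(g, y) = 2 softmin_l(θ <g, R_i> + θ² (<y, q_i> + b_i)) - θ² |y|²` on `E M × E d` with
`2 b_i = |R_i|² - |q_i|²`, `rho = exp(-|g|²/2)`, `Φ' = φ = ph k`, `h = Φ + 4 φ = hh k`, `k = d/2`.
Pointwise identity (module Alg):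
`θ ∂_θ h(T) + θ^{-2} Δ_y Φ(T) - (Δ_g - <g, ∇_g>) Φ(T) = 4 H (φ + 2 φ')(T) + 2 (l φ + 2 φ')(T) D`
with `H = ∑ w_i lin_i - softmin ∈ [0, N/l]`, `D = θ² ∑ w_i w_j (|R_ij|² - |q_ij|²)/2` and
`φ + 2 φ' ≥ 0`. The second and third terms have integral zero against `rho`. So
`Θ(θ) = ∫ rho h(T)` increases in `θ` if `|q_ij| ≤ |R_ij|`, and (up to `O(1/l)`) decreases if
`|R_ij| ≤ |q_ij|`. For `θ → ∞` it tends to `C vol ⋂ B[q_i, |R_i|]`, for `θ → 0` to a number which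
depends on `R` only.
-/

set_option autoImplicit false

open MeasureTheory Set Filter Topology
open scoped RealInnerProductSpace

namespace Pool.Agent.Lib.MP_0c1c75_co.TG

/-- Module `TG/FunA.lean`, theorem `tFunA : FunAStmt`.
PROOF. Let `s(v) = (max v 0)^k`, `s₁(v) = (max v 0)^(k-1)`. (i) `HasDerivAt s (k * s₁ v) v`: for
`v > 0` it is `Real.hasDerivAt_rpow_const` and `max t 0 = t` near `v`; for `v < 0` both sides are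
`0` (`0^k = 0`, `0^(k-1) = 0` since `k > 1`) near `v`; for `v = 0`: `0 ≤ s t ≤ |t|^k` and
`|t|^k = |t|^(k-1) |t|` is `o(t)`. (ii) `ph k = s * exp(-(v/2))`, product rule:
derivative `(k s₁ - s/2) exp(-(v/2)) = dph`. (iii) `ph`, `dph` are continuous (`Real.continuous`
rpow with exponent `> 0`, `max` continuous), so `Ph` has derivative `ph`
(`intervalIntegral.integral_hasDerivAt_right` or `Continuous.deriv_integral`), hence is continuous.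
(iv) `ph ≥ 0`; `ph + 2 dph = 2 k s₁ exp(-(v/2)) ≥ 0`.
(v) `v s₁(v) = s(v)` for all `v` (for `v ≤ 0` both are `0`), so
`2 v dph = (2 k s - v s) exp(-(v/2))`. -/
def FunAStmt : Prop := ∀ k : ℝ, 1 < k →
  (∀ v, HasDerivAt (ph k) (dph k v) v) ∧ (∀ v, HasDerivAt (Ph k) (ph k v) v) ∧
  Continuous (ph k) ∧ Continuous (dph k) ∧ Continuous (Ph k) ∧
  (∀ v, 0 ≤ ph k v) ∧ (∀ v, 0 ≤ ph k v + 2 * dph k v) ∧
  (∀ v, 2 * v * dph k v = (2 * k - v) * ph k v)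

/-- Module `TG/FunB.lean`, theorem `tFunB : FunBStmt`.
PROOF. For `v ≤ 0` all of `ph, dph, Ph, hh` are `0` (`max v 0 = 0`, `0^k = 0^(k-1) = 0`; `ph = 0` on
`[v, 0]`) and the right sides are `≥ 0`. For `v > 0` we have `exp (s v) ≥ 1`, so a bound of the
left sides by a constant suffices. For `a ≥ 0` choose a natural number `m ≥ a`:
`v^a ≤ 1 + v^m` and `v^m ≤ 8^m m! exp(v/8)` (`Real.pow_div_factorial_le_exp` at `v/8`), so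
`v^a exp(-(v/2)) ≤ C_a exp(-(v/4))`. This bounds `ph` and `dph`, and
`0 ≤ Ph k v = ∫_0^v ph ≤ C ∫_0^v exp(-t/4) dt ≤ 4 C`. -/
def FunBStmt : Prop := ∀ k : ℝ, 1 < k → ∃ C : ℝ, 0 < C ∧ ∀ v s : ℝ, 0 ≤ s →
  0 ≤ ph k v ∧ ph k v ≤ C * Real.exp (s * v) ∧ |dph k v| ≤ C * Real.exp (s * v) ∧
  0 ≤ hh k v ∧ hh k v ≤ C * Real.exp (s * v)

/-- Module `TG/FunC.lean`, theorem `tFunC : FunCStmt`.
PROOF. `Ph k` is monotone (`ph ≥ 0`), bounded above (for `t > 0`, `t^k exp(-(t/2)) ≤ C exp(-(t/4))`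
as in `FunBStmt`), so it tends to its supremum, which is `≥ Ph k 1 > 0` (`ph > 0` on `(0, 1)`).
`ph k v → 0` for `v → ∞` (`v^k exp(-(v/2)) ≤ C exp(-(v/4))`). -/
def FunCStmt : Prop := ∀ k : ℝ, 1 < k → ∃ C0 : ℝ, 0 < C0 ∧ Tendsto (hh k) atTop (𝓝 C0)

/-- Module `TG/FunD.lean`, theorem `tFunD : FunDStmt`.
PROOF. (i) For `v > 0`: `ph k v ≤ v^k`, and `Ph k v = ∫_0^v ph ≤ v · v^k` and also `≤ C`
(`FunBStmt` argument), so `Ph k v ≤ (1 + C) v^k` (use the first for `v ≤ 1`, the second for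
`v ≥ 1`). So `hh k v ≤ C' (max v 0)^k` for all `v`, and `hh k (t u) / t^k ≤ C' (max u 0)^k`
(`Real.mul_rpow`) `≤ C'' exp u` (`u^k ≤ 1 + u^m`, `u^m ≤ m! exp u` for `u > 0`, `m ≥ k` natural).
(ii) If `U < 0`: eventually `u n < 0` and the terms are `0`. In general write `v = t u`:
`ph k (t u) / t^k = (max u 0)^k exp(-(t u / 2)) → (max U 0)^k` and
`0 ≤ Ph k (t u) / t^k ≤ t (max u 0)^(k+1) → 0` (by `Ph k v ≤ (max v 0)^(k+1)`). -/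
def FunDStmt : Prop := ∀ k : ℝ, 1 < k →
  (∃ C : ℝ, 0 < C ∧ ∀ t u : ℝ, 0 < t → hh k (t * u) / t ^ k ≤ C * Real.exp u) ∧
  (∀ (t u : ℕ → ℝ) (U : ℝ), (∀ n, 0 < t n) → Tendsto t atTop (𝓝 0) → Tendsto u atTop (𝓝 U) →
    Tendsto (fun n => hh k (t n * u n) / (t n) ^ k) atTop (𝓝 (4 * (max U 0) ^ k)))

/-- Module `TG/SoftA.lean`, theorem `tSoftA : SoftAStmt`.
PROOF. Let `S = ∑ exp(-l a_i) > 0`, `exp(-l a_i) ≤ S ≤ N exp(-l min a)`. `wt = exp(-l a_i) / S`.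
`smn l a = -(log S)/l ≤ a_i` because `log S ≥ -l a_i`; `≥ min a - log N / l` by the upper bound of
`S`. From `wt_i = exp(-l (a_i - smn l a))` and `a_i ≥ smn l a`: `∑ wt_i a_i - smn = ∑ wt_i (a_i - smn)`
`≥ 0`, and with `u = l (a_i - smn) ≥ 0`: `wt_i (a_i - smn) = u exp(-u) / l ≤ 1 / l`
(`u + 1 ≤ exp u`). -/
def SoftAStmt : Prop := ∀ (N : ℕ) (l : ℝ) (a : Fin N → ℝ), 0 < N → 0 < l →
  (∀ i, 0 ≤ wt l a i) ∧ (∀ i, wt l a i ≤ 1) ∧ (∑ i, wt l a i = 1) ∧ (∀ i, smn l a ≤ a i) ∧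
  (⨅ i, a i) - Real.log N / l ≤ smn l a ∧ smn l a ≤ (⨅ i, a i) ∧
  0 ≤ (∑ i, wt l a i * a i) - smn l a ∧ (∑ i, wt l a i * a i) - smn l a ≤ N / l

/-- Module `TG/SoftB.lean`, theorem `tSoftB : SoftBStmt`.
PROOF. `S(t) = ∑ exp(-l a_i(t)) > 0` has derivative `-l ∑ exp(-l a_i) a_i'`; `smn = -(log S)/l`
and `wt_i = exp(-l a_i)/S`: `Real.hasDerivAt_log`-chain rule and quotient rule. -/
def SoftBStmt : Prop := ∀ (N : ℕ) (l : ℝ) (a : ℝ → Fin N → ℝ) (a' : Fin N → ℝ) (t : ℝ),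
  0 < N → 0 < l → (∀ i, HasDerivAt (fun s => a s i) (a' i) t) →
  HasDerivAt (fun s => smn l (a s)) (∑ i, wt l (a t) i * a' i) t ∧
  ∀ i, HasDerivAt (fun s => wt l (a s) i)
    (-(l * wt l (a t) i * (a' i - ∑ j, wt l (a t) j * a' j))) t

/-- Module `TG/Maj.lean`, theorem `tMaj : MajStmt`.
PROOF. (i) `-(a²/2) + A a ≤ -(a²/4) + A²` and `-(c b²) + A b ≤ -(c b²/2) + A²/(2c)`, so `maj A c` is
dominated by a constant times `exp(-‖x.1‖²/4) exp(-c ‖x.2‖²/2)`, a product of integrable functions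
(`Integrable.mul_prod`; each factor: `GaussianFourier.integrable_cexp_neg_mul_sq_norm_add` or
`GaussianFourier.integral_rexp_neg_mul_sq_norm` with `Integrable.of_integral_ne_zero`); `maj` is
continuous. (ii) `1 + s ≤ 2 exp(s/2)` for `s = ‖x.1‖ + ‖x.2‖ ≥ 0`, so `(1+s)² ≤ 4 exp s`. -/
def MajStmt : Prop := ∀ (M d : ℕ) (A c : ℝ), 0 < c →
  Integrable (maj A c : E M × E d → ℝ) ∧
  ∀ x : E M × E d, (1 + ‖x.1‖ + ‖x.2‖) ^ 2 * maj A c x ≤ 4 * maj (A + 1) c x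

/-- Module `TG/Bnd.lean`, theorem `tBnd (hA : SoftAStmt) : BndStmt`.
PROOF. Let `K ≥ 1` bound all `‖R i‖, ‖q i‖, ‖R i‖², ‖q i‖²` and `0 < θ1 ≤ θ ≤ θ2`. By `SoftAStmt`
(and `ciInf_le`) `TT, TH ≤ 2 lin_0 - θ² ‖x.2‖² ≤ 2 θ2 K ‖x.1‖ + 2 θ2² K ‖x.2‖ + 2 θ2² K - θ1² ‖x.2‖²`
(`|<u,v>| ≤ ‖u‖‖v‖`). So `A = 2 (θ2 + θ2²) K`, `C ≥ exp(2 θ2² K)` work for the first two.
`wt` are `≥ 0` with sum `1`, so `|Tth| ≤ 2 (K ‖x.1‖ + 2 θ2 (K ‖x.2‖ + K)) + 2 θ2 ‖x.2‖²`: NOTE the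
quadratic term, hence the square on the right side; `|T1 x v| ≤ 2 (θ2 + θ2²) K ‖v‖ + 2 θ2² ‖x.2‖ ‖v‖`,
`|T2 x v| ≤ 4 l ((θ2 + θ2²) K ‖v‖)² + 2 θ2² ‖v‖²`, `|DD| ≤ θ2² (4 K²)` (`∑∑ w_i w_j = 1`), and
`‖v.1‖, ‖v.2‖ ≤ ‖v‖`. -/
def BndStmt : Prop := ∀ (M d N : ℕ) (R : Fin N → E M) (q : Fin N → E d) (θ1 θ2 : ℝ), 0 < N →
  0 < θ1 → θ1 ≤ θ2 → ∃ A C : ℝ, 0 < A ∧ 0 < C ∧ ∀ (l θ : ℝ) (x : E M × E d), 0 < l → θ1 ≤ θ →
  θ ≤ θ2 →
  rho x * Real.exp (TT R q l θ x) ≤ C * maj A (θ1 ^ 2) x ∧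
  rho x * Real.exp (TH R q θ x) ≤ C * maj A (θ1 ^ 2) x ∧
  |Tth R q l θ x| ≤ C * (1 + ‖x.1‖ + ‖x.2‖) ^ 2 ∧ |DD R q l θ x| ≤ C ∧
  (∀ v, |T1 R q l θ x v| ≤ C * ‖v‖ * (1 + ‖x.1‖ + ‖x.2‖)) ∧
  (∀ v, |T2 R q l θ x v| ≤ C * (1 + l) * ‖v‖ ^ 2)

/-- Module `TG/Cts.lean`, theorem `tCts : CtsStmt`.
PROOF. `lin` is continuous in `x` (inner products), `S = ∑ exp(-l lin_i) > 0` is continuous and
nonzero, so `wt` and `smn` are continuous; `TH`: infimum of finitely many continuous functions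
(`continuous_ciInf`-type lemma or `Finset.inf'`). -/
def CtsStmt : Prop := ∀ (M d N : ℕ) (R : Fin N → E M) (q : Fin N → E d) (l θ : ℝ), 0 < N →
  0 < l → Continuous (fun x : E M × E d => rho x) ∧
  Continuous (TT R q l θ) ∧ Continuous (TH R q θ) ∧ Continuous (Tth R q l θ) ∧
  Continuous (HH R q l θ) ∧ Continuous (DD R q l θ) ∧
  (∀ v, Continuous (fun x => T1 R q l θ x v)) ∧ (∀ v, Continuous (fun x => T2 R q l θ x v))

/-- Module `TG/Lnd.lean`, theorem `tLnd (hA : FunAStmt) (hB : SoftBStmt) : LndStmt`.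
PROOF. Along the line `t ↦ x + t v`: `lin_i` has derivative `α_i = θ <v.1, R_i> + θ² <v.2, q_i>` at
every `t` (it is affine in `t`), so by `SoftBStmt` `smn l (lin (x + t v))` has derivative
`∑ wt_i α_i` and `wt_i` has derivative `-(l wt_i (α_i - ∑ wt_j α_j))`; hence `TT` has derivative
`T1 (x + t v) v` and `t ↦ T1 (x + t v) v` has derivative `T2 (x + t v) v` (at `t = 0`:
`2 ∑ -(l wt_i (α_i - ᾱ)) α_i - 2 θ² <v.2, v.2>` with `∑ wt_i (α_i - ᾱ) α_i = ∑ wt_i α_i² - ᾱ²`).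
`rho (x + t v)` has derivative `-<x.1, v.1> rho x` at `0`. Product and chain rule with
`HasDerivAt (ph k) (dph k _) _`. (`HasLineDerivAt ℝ f f' x v` unfolds to
`HasDerivAt (fun t => f (x + t • v)) f' 0`.) -/
def LndStmt : Prop := ∀ (M d N : ℕ) (R : Fin N → E M) (q : Fin N → E d) (k l θ : ℝ)
  (x v : E M × E d), 1 < k → 0 < N → 0 < l →
  HasLineDerivAt ℝ (fun z : E M × E d => rho z * (ph k (TT R q l θ z) * T1 R q l θ z v))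
    (rho x * JJ k R q l θ x v) x v

/-- Module `TG/Ibp.lean`, theorem
`tIbp (hA : FunAStmt) (hB : FunBStmt) (hM : MajStmt) (hBd : BndStmt) (hC : CtsStmt)
(hL : LndStmt) : IbpStmt`.
PROOF. Take `θ1 = θ2 = θ` in `BndStmt`. With `s = 1` in `FunBStmt`:
`rho |ph(TT) T1| ≤ C rho exp(TT) C ‖v‖ (1+‖x.1‖+‖x.2‖) ≤ C' (1+..)² maj A (θ²) ≤ 4 C' maj (A+1) (θ²)`
and the same for the three terms of `rho JJ` (`|<x.1, v.1>| ≤ ‖v‖ (1 + ..)`; `T1² ≤ C (1+..)²`).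
The functions are continuous (`CtsStmt`, `FunAStmt`), so both are integrable. The integral of the
line derivative of an integrable function is zero: use
`integral_bilinear_hasLineDerivAt_right_eq_neg_left_of_integrable` with `f = 1`, `f' = 0`,
`g = rho (ph T1)`, `g' = rho JJ`, `B = ContinuousLinearMap.mul ℝ ℝ`. -/
def IbpStmt : Prop := ∀ (M d N : ℕ) (R : Fin N → E M) (q : Fin N → E d) (k l θ : ℝ)
  (v : E M × E d), 1 < k → 0 < N → 0 < l → 0 < θ →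
  Integrable (fun x : E M × E d => rho x * JJ k R q l θ x v) ∧
  ∫ x : E M × E d, rho x * JJ k R q l θ x v = 0

/-- Module `TG/Alg.lean`, theorem `tAlg (hA : FunAStmt) (hS : SoftAStmt) : AlgStmt`.
PROOF. Fix `x = (g, y)`; write `w_i = wt_i` (sum `1`), `T = TT`, `φ = ph k T`, `φ' = dph k T`,
`R̄ = ∑ w_i R_i`, `q̄ = ∑ w_i q_i`, `b_i = (‖R_i‖² - ‖q_i‖²)/2`, `b̄ = ∑ w_i b_i`,
`A = ∑ w_i ‖R_i‖²`, `B = ∑ w_i ‖q_i‖²`. With `e_j` the unit vectors (`EuclideanSpace.single j 1`):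
for `v = (0, e_j)`: `T1 = 2 θ² q̄_j - 2 θ² y_j`,
`T2 = -2 l θ⁴ (∑ w_i (q_i)_j² - q̄_j²) - 2 θ²`; for `v = (e_j, 0)`: `T1 = 2 θ R̄_j`,
`T2 = -2 l θ² (∑ w_i (R_i)_j² - R̄_j²)`. Sums over `j` (`‖u‖² = ∑ u_j²`, `<u,v> = ∑ u_j v_j`):
`∑_j JJ (0,e_j) = φ' 4 θ⁴ ‖q̄ - y‖² + φ (-2 l θ⁴ (B - ‖q̄‖²) - 2 d θ²)`,
`∑_j JJ (e_j,0) = φ' 4 θ² ‖R̄‖² - 2 l θ² φ (A - ‖R̄‖²) - 2 θ φ <g, R̄>`.
`θ Tth = 2 θ <g, R̄> + 4 θ² (<y, q̄> + b̄) - 2 θ² ‖y‖²`,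
`∑ w_i lin_i = θ <g, R̄> + θ² (<y, q̄> + b̄) = HH + smn`, `T = 2 smn - θ² ‖y‖²`, so
`θ Tth = 2 T + 4 HH - 2 θ <g, R̄>`.
`DD = θ² ((A - ‖R̄‖²) - (B - ‖q̄‖²))` (expand the squares, `∑ w = 1`).
`‖q̄ - y‖² θ² - ‖R̄‖² θ² = θ² (‖q̄‖² - ‖R̄‖² - 2 <y,q̄> + ‖y‖²)` and
`‖R̄‖² - ‖q̄‖² = A - B - DD/θ² = 2 b̄ - DD/θ²`, so this is
`DD - 2 θ² b̄ - 2 θ² <y, q̄> + θ² ‖y‖² = DD - 2 (HH + smn - θ <g,R̄>) + θ² ‖y‖²
= DD - 2 HH - T + 2 θ <g, R̄>`. Left side of the claim: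
`4 φ' (DD - 2 HH - T + 2 θ<g,R̄>) + φ (2 l DD - 2 d + 2 θ <g,R̄>)
+ (φ + 4 φ') (2 T + 4 HH - 2 θ <g,R̄>)`
`= 2 (l φ + 2 φ') DD + 4 HH (φ + 2 φ') + [4 T φ' + 2 T φ - 2 d φ]`, and the bracket is `0` by
`2 T φ' = (2 k - T) φ`, `2 k = d`. -/
def AlgStmt : Prop := ∀ (M d N : ℕ) (R : Fin N → E M) (q : Fin N → E d) (k l θ : ℝ)
  (x : E M × E d), k = (d : ℝ) / 2 → 1 < k → 0 < N → 0 < l → 0 < θ →
  (θ ^ 2)⁻¹ * (∑ j : Fin d, JJ k R q l θ x ((0 : E M), EuclideanSpace.single j (1 : ℝ))) -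
    (∑ j : Fin M, JJ k R q l θ x (EuclideanSpace.single j (1 : ℝ), (0 : E d))) +
    dhh k (TT R q l θ x) * (θ * Tth R q l θ x) = QQ k R q l θ x

/-- Module `TG/Dth.lean`, theorem
`tDth (hA : FunAStmt) (hB : FunBStmt) (hSB : SoftBStmt) (hM : MajStmt) (hBd : BndStmt)
(hC : CtsStmt) : DthStmt`.
PROOF. `hasDerivAt_integral_of_dominated_loc_of_deriv_le` on the ball of radius `θ/2` about `θ`
(parameters in `[θ1, θ2] = [θ/2, 3θ/2]`). For fixed `x`, `s ↦ TT R q l s x` has derivative `Tth`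
(`SoftBStmt` with `a s i = lin R q s x i`, derivative
`<x.1, R_i> + 2 s (<x.2, q_i> + (‖R_i‖² - ‖q_i‖²)/2)`) and `hh k` has derivative `dhh k`
(`FunAStmt`), so the integrand has derivative `rho (dhh (TT) Tth)`, bounded by
`rho 5 C exp(TT) C (1+..)² ≤ C' maj (A+1) (θ1²)` (`FunBStmt` with `s = 1`: `|dhh| ≤ 5 C exp(TT)`).
The integrand is continuous in `x` and bounded by `C rho exp(TT)`, hence integrable. -/
def DthStmt : Prop := ∀ (M d N : ℕ) (R : Fin N → E M) (q : Fin N → E d) (k l θ : ℝ), 1 < k →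
  0 < N → 0 < l → 0 < θ →
  Integrable (fun x : E M × E d => rho x * (dhh k (TT R q l θ x) * Tth R q l θ x)) ∧
  HasDerivAt (fun s => Th k R q l s)
    (∫ x : E M × E d, rho x * (dhh k (TT R q l θ x) * Tth R q l θ x)) θ

/-- Module `TG/Der.lean`, theorem
`tDer (hI : IbpStmt) (hA : AlgStmt) (hD : DthStmt) : DerStmt`.
PROOF. `rho QQ = (θ²)⁻¹ ∑ rho JJ(0,e_j) - ∑ rho JJ(e_j,0) + θ (rho dhh Tth)` pointwise; every
term is integrable and the integrals of the `rho JJ` vanish; so `∫ rho QQ = θ ∫ rho dhh Tth`. -/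
def DerStmt : Prop := ∀ (M d N : ℕ) (R : Fin N → E M) (q : Fin N → E d) (k l θ : ℝ),
  k = (d : ℝ) / 2 → 1 < k → 0 < N → 0 < l → 0 < θ →
  Integrable (fun x : E M × E d => rho x * QQ k R q l θ x) ∧
  HasDerivAt (fun s => Th k R q l s) (θ⁻¹ * ∫ x : E M × E d, rho x * QQ k R q l θ x) θ

/-- Module `TG/Sgn.lean`, theorem `tSgn (hA : FunAStmt) (hS : SoftAStmt) : SgnStmt`.
PROOF. `0 ≤ HH ≤ N / l` (`SoftAStmt`), `ph + 2 dph ≥ 0`, `ph ≥ 0`, `l ≥ 1`, so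
`l ph + 2 dph = (l - 1) ph + (ph + 2 dph) ≥ 0`; all `w_i w_j ≥ 0`, so `DD ≥ 0` in the first case
and `DD ≤ 0` in the second. -/
def SgnStmt : Prop := ∀ (M d N : ℕ) (R : Fin N → E M) (q : Fin N → E d) (k l θ : ℝ)
  (x : E M × E d), 1 < k → 0 < N → 1 ≤ l →
  ((∀ i j, ‖q i - q j‖ ≤ ‖R i - R j‖) → 0 ≤ QQ k R q l θ x) ∧
  ((∀ i j, ‖R i - R j‖ ≤ ‖q i - q j‖) →
    QQ k R q l θ x ≤ 4 * (N / l) * (ph k (TT R q l θ x) + 2 * dph k (TT R q l θ x)))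

/-- Module `TG/LimL.lean`, theorem
`tLimL (hA : FunAStmt) (hB : FunBStmt) (hS : SoftAStmt) (hM : MajStmt) (hBd : BndStmt)
(hC : CtsStmt) : LimLStmt`.
PROOF. Dominated convergence (`tendsto_integral_of_dominated_convergence`): `SoftAStmt` gives
`|TT R q l θ x - TH R q θ x| ≤ 2 log N / l → 0` for `l = n + 1 → ∞`, `hh k` is continuous;
majorant `rho hh(TT) ≤ C rho exp(TT) ≤ C' maj A (θ²)` (`FunBStmt` with `s = 1`, `BndStmt` with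
`θ1 = θ2 = θ`), `hh ≥ 0`. -/
def LimLStmt : Prop := ∀ (M d N : ℕ) (R : Fin N → E M) (q : Fin N → E d) (k θ : ℝ), 1 < k →
  0 < N → 0 < θ →
  Tendsto (fun n : ℕ => Th k R q ((n : ℝ) + 1) θ) atTop (𝓝 (ThH k R q θ))

/-- Module `TG/Mon.lean`, theorem
`tMon (hA : FunAStmt) (hB : FunBStmt) (hM : MajStmt) (hBd : BndStmt) (hC : CtsStmt)
(hD : DerStmt) (hS : SgnStmt) (hL : LimLStmt) : MonStmt`.
PROOF. Let `l = n + 1 ≥ 1`. First case: `Th k R q l` has derivative `θ⁻¹ ∫ rho QQ ≥ 0` at every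
`θ > 0`, so `Th k R q l θ1 ≤ Th k R q l θ2` (mean value theorem on `[θ1, θ2]`); let `n → ∞`
(`LimLStmt`, `le_of_tendsto_of_tendsto'`). Second case: on `[θ1, θ2]` the derivative is at most
`θ1⁻¹ (4 N / l) ∫ rho (ph + 2 dph)(TT) ≤ K / l` with `K` independent of `θ ∈ [θ1, θ2]` and `l`
(`rho (ph + 2 dph)(TT) ≤ 3 C rho exp(TT) ≤ C' maj A (θ1²)`), so
`Th l θ2 - Th l θ1 ≤ K (θ2 - θ1) / l` (mean value inequality, e.g.
`image_sub_le_mul_sub_of_deriv_le`-type or monotonicity of `K θ / l - Th l θ`); let `n → ∞`. -/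
def MonStmt : Prop := ∀ (M d N : ℕ) (R : Fin N → E M) (q : Fin N → E d) (k θ1 θ2 : ℝ),
  k = (d : ℝ) / 2 → 1 < k → 0 < N → 0 < θ1 → θ1 ≤ θ2 →
  ((∀ i j, ‖q i - q j‖ ≤ ‖R i - R j‖) → ThH k R q θ1 ≤ ThH k R q θ2) ∧
  ((∀ i j, ‖R i - R j‖ ≤ ‖q i - q j‖) → ThH k R q θ2 ≤ ThH k R q θ1)

/-- Module `TG/LimI.lean`, theorem
`tLimI (hA : FunAStmt) (hB : FunBStmt) (hM : MajStmt) (hC : CtsStmt) : LimIStmt`.
PROOF. Let `θ = n + 1 ≥ 1`, `b_i = (‖R_i‖² - ‖q_i‖²)/2` and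
`U_θ(g, y) = 2 inf_i (<g, R_i>/θ + <y, q_i> + b_i) - ‖y‖²`; then `TH R q θ (g, y) = θ² U_θ(g, y)`
(`Real.mul_iInf_of_nonneg`). Majorant: `FunBStmt` with `s = θ⁻²`: `hh(TH) ≤ C exp(U_θ)` and
`U_θ ≤ 2 ‖g‖ ‖R_0‖ + 2 ‖y‖ ‖q_0‖ + 2 |b_0| - ‖y‖²`, so `rho hh(TH) ≤ C' maj A 1`. Pointwise limit:
`U_θ(g, y) → U(y) = 2 inf_i (<y, q_i> + b_i) - ‖y‖² = inf_i (‖R_i‖² - ‖y - q_i‖²)` (difference at
most `2 max_i |<g,R_i>|/θ`). If `U(y) > 0`, then `TH → ∞` and `hh(TH) → C0`; if `U(y) < 0`, then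
`TH < 0` eventually and `hh(TH) = 0` (`hh k v = 0` for `v ≤ 0`: `FunBStmt` with `s → ∞`, or
directly). The set `U(y) = 0` is contained in the union of the spheres `‖y - q_i‖ = ‖R_i‖`, which
have measure zero (`Measure.addHaar_sphere`, `d ≥ 1` because `d > 2`), hence
(`x.2 ∈` null set is null in the product: `Measure.prod`-lemma, or `Measure.quasiMeasurePreserving_snd`)
almost everywhere `rho hh(TH) → C0 rho 1[U(y) > 0]`. The limit integral is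
`C0 (∫ exp(-‖g‖²/2)) vol {U > 0}` (`integral_prod_mul`), `{U > 0} = ⋂ ball (q i) ‖R i‖`, which
differs from `⋂ closedBall` by a null set. -/
def LimIStmt : Prop := ∀ (M d N : ℕ) (R : Fin N → E M) (q : Fin N → E d) (k C0 : ℝ),
  k = (d : ℝ) / 2 → 1 < k → 0 < N → Tendsto (hh k) atTop (𝓝 C0) →
  Tendsto (fun n : ℕ => ThH k R q ((n : ℝ) + 1)) atTop
    (𝓝 (C0 * (∫ g : E M, Real.exp (-(‖g‖ ^ 2 / 2))) *
      (volume (⋂ i, Metric.closedBall (q i) ‖R i‖)).toReal))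

/-- Module `TG/LimZ.lean`, theorem
`tLimZ (hA : FunAStmt) (hB : FunBStmt) (hDD : FunDStmt) (hM : MajStmt) (hBd : BndStmt)
(hC : CtsStmt) : LimZStmt`.
PROOF. Let `t = 1/(n+1) ∈ (0, 1]`. `ThH k R q t` is a Bochner integral of an integrable function
(`rho hh(TH) ≤ C rho exp(TH)`, `BndStmt`); Fubini and the substitution `y = t^{-1/2} ζ` in the
inner integral (`Measure.integral_comp_smul`: `∫ f(c • ζ) dζ = |c^d|⁻¹ ∫ f`), and Fubini back: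
`ThH k R q t = ∫ rho(g) hh(t u_t(g, ζ)) / t^k` with
`u_t(g, ζ) = 2 inf_i (<g, R_i> + t^{1/2} <ζ, q_i> + t b_i) - ‖ζ‖²`, because
`TH R q t (g, t^{-1/2} ζ) = t u_t(g, ζ)` and `(t^{-1/2})^d = t^{-k}`. Dominated convergence:
`FunDStmt`: `hh(t u)/t^k ≤ C exp(u_t)`, `u_t ≤ 2 ‖g‖ ‖R_0‖ + 2 ‖ζ‖ ‖q_0‖ + 2 |b_0| - ‖ζ‖²`
(`t ≤ 1`), so the majorant is `C' maj A 1`; `u_t → 2 inf_i <g, R_i> - ‖ζ‖²` and the second part of
`FunDStmt` gives the pointwise limit `4 (max (2 inf_i <g,R_i> - ‖ζ‖²) 0)^k`. -/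
def LimZStmt : Prop := ∀ (M d N : ℕ) (R : Fin N → E M) (q : Fin N → E d) (k : ℝ),
  k = (d : ℝ) / 2 → 1 < k → 0 < N →
  Tendsto (fun n : ℕ => ThH k R q (1 / ((n : ℝ) + 1))) atTop (𝓝 (L0 d k R))

/-- Module `TG/MainG.lean`, theorem
`tMainG (hC : FunCStmt) (hM : MonStmt) (hI : LimIStmt) (hZ : LimZStmt) : GStmt`.
PROOF. `N = 0`: both sides are the volume of the whole space. Let `N > 0`, `k = d/2 > 1`, `C0`
from `FunCStmt`, `G = ∫ exp(-‖g‖²/2) > 0`. `‖R i‖ = r i`. `MonStmt` (first part, `θ1 = 1/(n+1)`,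
`θ2 = n + 1`) for `(R, q)` and the limits give `L0 d k R ≤ C0 G vol ⋂ B[q_i, r_i]`; the second part
for `(R, p)` gives `C0 G vol ⋂ B[p_i, r_i] ≤ L0 d k R`. Divide by `C0 G > 0`; the volumes are
finite (`N > 0`), so the `toReal` inequality gives the inequality. -/
def GStmt : Prop := ∀ (M d N : ℕ) (p q : Fin N → E d) (R : Fin N → E M) (r : Fin N → ℝ), 3 ≤ d →
  (∀ i, ‖R i‖ = r i) → (∀ i j, dist (q i) (q j) ≤ dist (R i) (R j)) →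
  (∀ i j, dist (R i) (R j) ≤ dist (p i) (p j)) →
  volume (⋂ i, Metric.closedBall (p i) (r i)) ≤ volume (⋂ i, Metric.closedBall (q i) (r i))

end Pool.Agent.Lib.MP_0c1c75_co.TG
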