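import Pool.Agent.Lib.MP_0c1c75_co.TG.Spec

/-!
MP_0c1c75_co, project TG: the corollaries of Theorem G (`GStmt`), with complete proofs in the
docstrings (helper32).
-/

set_option autoImplicit false

open MeasureTheory Set Filter Topology
open scoped RealInnerProductSpace

namespace Pool.Agent.Lib.MP_0c1c75_co.TG

/-- Module `TG/Psd.lean`, theorem `tPsd : PsdStmt`: vectors with a given Gram matrix.
PROOF. `G = Bᴴ * B` for a square matrix `B` (`Matrix.posSemidef_iff_eq_conjTranspose_mul_self` or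
`CStarAlgebra.nonneg_iff_eq_star_mul_self`, or the square root `CFC.sqrt`); put
`R i = WithLp.toLp 2 (fun k => B k i)`; `⟪R i, R j⟫ = ∑ k, B k i * B k j = G i j` (real matrices;
mind the order of the factors). -/
def PsdStmt : Prop := ∀ (N : ℕ) (G : Matrix (Fin N) (Fin N) ℝ), G.PosSemidef →
  ∃ R : Fin N → E N, ∀ i j, ⟪R i, R j⟫ = G i j

/-- The main theorem in terms of matrices. Module `TG/Gra.lean`, theorem
`tGra (hG : GStmt) (hP : PsdStmt) : GraStmt`.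
PROOF. If `⋂ B[p_i, r_i]` is empty, the left side is `0`. Otherwise `r i ≥ 0` for all `i` (a point in
`closedBall (p i) (r i)`), take `G` and `R` from `PsdStmt`: `‖R i‖² = r i²`, so `‖R i‖ = r i`;
`dist (R i) (R j) ^ 2 = r i² + r j² - 2 G i j` lies between `dist (q i) (q j) ^ 2` and
`dist (p i) (p j) ^ 2` (`pow_le_pow_left₀` converse: `abs_le_of_sq_le_sq` / `pow_le_pow_iff_left₀`).
Apply `GStmt`. -/
def GraStmt : Prop := ∀ (d N : ℕ) (p q : Fin N → E d) (r : Fin N → ℝ), 3 ≤ d →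
  ((⋂ i, Metric.closedBall (p i) (r i)).Nonempty → ∃ G : Matrix (Fin N) (Fin N) ℝ,
    G.PosSemidef ∧ (∀ i, G i i = r i ^ 2) ∧
    ∀ i j, r i ^ 2 + r j ^ 2 - dist (p i) (p j) ^ 2 ≤ 2 * G i j ∧
      2 * G i j ≤ r i ^ 2 + r j ^ 2 - dist (q i) (q j) ^ 2) →
  volume (⋂ i, Metric.closedBall (p i) (r i)) ≤ volume (⋂ i, Metric.closedBall (q i) (r i))

/-- Uniform contractions of congruent balls, all `d ≥ 3`, all `N`. Module `TG/Uni.lean`, theorem
`tUni (hG : GraStmt) : UniStmt`.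
PROOF. `N ≤ 1`: if `N = 0` both sides are equal; `N = 1`: two balls of equal radius have equal volume
(`Measure.addHaar_closedBall_center` / translation), or use `GraStmt` with `G = (r²)`. In general
apply `GraStmt` with `G i j = r² - L²/2` for `i ≠ j` and `G i i = r²`. The two inequalities for
`i ≠ j` read `L² ≤ dist (p i) (p j)²` and `dist (q i) (q j)² ≤ L²` (`L ≥ 0` because
`0 ≤ dist (q i) (q j) ≤ L` if there are `i ≠ j`), for `i = j` they are equalities. `G` is positive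
semidefinite if the first intersection contains a point `a`: for real `x`,
`xᵀ G x = (r² - L²/2) (∑ x)² + (L²/2) ∑ x²`. If `r² ≥ L²/2` it is `≥ 0`. Otherwise
`(∑ x)² ≤ N ∑ x²` (Cauchy-Schwarz, `inner_mul_le_norm_mul_norm` or `sq_sum_le_card_mul_sum_sq`), so it
is `≥ (N r² - (N-1) L²/2) ∑ x²`, and `N r² ≥ (N-1) L²/2` because with `v_i = p_i - a`, `‖v_i‖ ≤ |r|`:
`N (N-1) L² ≤ ∑_i ∑_j ‖v_i - v_j‖² = 2 N ∑ ‖v_i‖² - 2 ‖∑ v_i‖² ≤ 2 N² r²`. -/
def UniStmt : Prop := ∀ (d N : ℕ) (p q : Fin N → E d) (L r : ℝ), 3 ≤ d →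
  (∀ i j, i ≠ j → dist (q i) (q j) ≤ L ∧ L ≤ dist (p i) (p j)) →
  volume (⋂ i, Metric.closedBall (p i) r) ≤ volume (⋂ i, Metric.closedBall (q i) r)

/-- A common radical centre inside the balls, for `p` or for `q`; any contraction. Module
`TG/Sph.lean`, theorem `tSph (hG : GraStmt) : SphStmt`.
PROOF. Case 1 (`r_i² = |p_i - a|² + c`): `G i j = ⟪p i - a, p j - a⟫ + c` is positive semidefinite
(`xᵀ G x = ‖∑ x_i (p_i - a)‖² + c (∑ x)²`; or `Matrix.posSemidef_gram` plus a multiple of the all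
ones matrix), `G i i = r_i²`, and `2 G i j = r_i² + r_j² - |p_i - p_j|²`
`≤ r_i² + r_j² - |q_i - q_j|²`. Case 2: `G i j = ⟪q i - a, q j - a⟫ + c` in the same way. -/
def SphStmt : Prop := ∀ (d N : ℕ) (p q : Fin N → E d) (r : Fin N → ℝ) (a : E d) (c : ℝ), 3 ≤ d →
  0 ≤ c → (∀ i j, dist (q i) (q j) ≤ dist (p i) (p j)) →
  ((∀ i, r i ^ 2 = dist (p i) a ^ 2 + c) ∨ (∀ i, r i ^ 2 = dist (q i) a ^ 2 + c)) →
  volume (⋂ i, Metric.closedBall (p i) (r i)) ≤ volume (⋂ i, Metric.closedBall (q i) (r i))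

/-- Congruent balls, contraction by the factor `sin 1 = 0.841...`. Module `TG/Fac.lean`, theorem
`tFac (hG : GraStmt) : FacStmt`.
PROOF. Apply `GraStmt` with all radii `r`. Let `a` be a point of `⋂ B[p_i, r]` (if `N = 0` both sides
are equal). `r ≥ 0`. If `r = 0`: all `p_i = a`, so all `dist (q i) (q j) ≤ 0`, take `G = 0`.
Let `r > 0`, `v_i = p_i - a`, `s_i = ‖v_i‖ / r ∈ [0, 1]`,
`G i j = r² (cos s_i cos s_j + sinc s_i sinc s_j ⟪v_i, v_j⟫ / r²)` (`sinc s = sin s / s`, `sinc 0 = 1`,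
`Real.sinc`): it is positive semidefinite
(`xᵀ G x = r² (∑ x_i cos s_i)² + ‖∑ x_i sinc s_i v_i‖²`), and `G i i = r²` (`sinc s_i ‖v_i‖ = r sin s_i`).
`|p_i - p_j|² = r² (s_i² + s_j²) - 2 ⟪v_i, v_j⟫`. Write `⟪v_i, v_j⟫ = r² s_i s_j c`, `|c| ≤ 1`
(if `s_i s_j = 0` any `c`). Then with `s = s_i`, `t = s_j`:
`2 r² - 2 G i j = r² (2 - 2 cos s cos t - 2 c sin s sin t)`, `|p_ij|² = r² (s² + t² - 2 c s t)`.
To show: `(sin 1)² (s² + t² - 2cst) ≤ 2 - 2 cos s cos t - 2c sin s sin t ≤ s² + t² - 2 c s t`.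
All are affine in `c ∈ [-1, 1]`, so it suffices to take `c = 1` and `c = -1`
(e.g. `(1+c)/2 * (c=1 inequality) + (1-c)/2 * (c=-1 inequality)`). For `c = 1`, `x = |s - t| ≤ 1`:
`(sin 1)² x² ≤ 2 - 2 cos x ≤ x²`; for `c = -1`, `x = s + t ≤ 2`: the same. Now
`2 - 2 cos x = 4 sin(x/2)²`, `0 ≤ y = x/2 ≤ 1`: `y sin 1 ≤ sin y ≤ y` (`Real.sin_le`;
concavity of `sin` on `[0, π]` between `0` and `1`: `strictConcaveOn_sin_Icc.concaveOn`). -/
def FacStmt : Prop := ∀ (d N : ℕ) (p q : Fin N → E d) (r : ℝ), 3 ≤ d →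
  (∀ i j, dist (q i) (q j) ≤ Real.sin 1 * dist (p i) (p j)) →
  volume (⋂ i, Metric.closedBall (p i) r) ≤ volume (⋂ i, Metric.closedBall (q i) r)

/-- Congruent balls, explicit large radii. Module `TG/Lrg.lean`, theorem
`tLrg (hG : GraStmt) : LrgStmt`.
PROOF. `r > 0`. Apply `GraStmt` with `G i j = r² exp(-|p_i - p_j|²/(2 r²))`; `G i i = r²`;
`2 r² - 2 G i j ≤ |p_i - p_j|²` because `1 - exp(-u) ≤ u` (`u = |p_ij|²/(2r²)`), and
`|q_ij|² ≤ 2 r² (1 - exp(-u)) = 2 r² - 2 G i j` by hypothesis. `G` is positive semidefinite: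
`G i j = r² D_i D_j exp(⟪p_i, p_j⟫/r²)` with `D_i = exp(-‖p_i‖²/(2r²))`; the matrix
`(⟪p_i, p_j⟫/r²)` is a Gram matrix (`Matrix.posSemidef_gram`), so its entrywise powers are positive
semidefinite (`Matrix.PosSemidef.hadamard`, induction; the zeroth power is the all ones matrix), so
`∑_{m < n} (1/m!) (⟪p_i,p_j⟫/r²)^m` is, and `xᵀ G x` is the limit of nonnegative numbers
(`Real.hasSum_exp`-type lemma, finite sums of limits). -/
def LrgStmt : Prop := ∀ (d N : ℕ) (p q : Fin N → E d) (r : ℝ), 3 ≤ d → 0 < r →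
  (∀ i j, dist (q i) (q j) ^ 2 ≤
    2 * r ^ 2 * (1 - Real.exp (-(dist (p i) (p j) ^ 2 / (2 * r ^ 2))))) →
  volume (⋂ i, Metric.closedBall (p i) r) ≤ volume (⋂ i, Metric.closedBall (q i) r)

end Pool.Agent.Lib.MP_0c1c75_co.TG
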