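import Pool.Agent.Lib.MP_0c1c75_co.TG.SpecC

/-!
MP_0c1c75_co, project TG: a further corollary of Theorem G (helper32; suggested by the referees
helper10 and helper45).
-/

set_option autoImplicit false

open MeasureTheory Set Filter Topology
open scoped RealInnerProductSpace

namespace Pool.Agent.Lib.MP_0c1c75_co.TG

/-- Congruent balls whose centres `p_i` lie in a ball of radius `t r`, `0 < t ≤ 1`: contraction by the
factor `sin t / t`. Module `TG/Cir.lean`, theorem `tCir (hG : GraStmt) : CirStmt`.
PROOF. The proof of `FacStmt` (module `TG/Fac.lean`) with `a` given, `s_i = ‖p_i - a‖ / r ∈ [0, t]`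
(`r > 0`; if `r = 0` all `p_i = a`, take `G = 0`; if `r < 0` the hypothesis `dist (p i) a ≤ t r < 0`
is impossible unless `N = 0`, where both sides are equal): for `c = 1` the number `y = |s_i - s_j|/2`
and for `c = -1` the number `y = (s_i + s_j)/2` lie in `[0, t]`, and
`y (sin t / t) ≤ sin y ≤ y` by concavity of `sin` on `[0, t] ⊆ [0, π]`. -/
def CirStmt : Prop := ∀ (d N : ℕ) (p q : Fin N → E d) (r t : ℝ) (a : E d), 3 ≤ d →
  0 < t → t ≤ 1 → (∀ i, dist (p i) a ≤ t * r) →
  (∀ i j, dist (q i) (q j) ≤ Real.sin t / t * dist (p i) (p j)) →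
  volume (⋂ i, Metric.closedBall (p i) r) ≤ volume (⋂ i, Metric.closedBall (q i) r)

end Pool.Agent.Lib.MP_0c1c75_co.TG
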