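import Pool.Agent.Lib.MP_0c1c75_co.TG.SpecC

/-!
MP_0c1c75_co, project TG: a common radical centre.
-/

set_option autoImplicit false

namespace Pool.Agent.Lib.MP_0c1c75_co.TG

open MeasureTheory Set Filter Topology
open scoped RealInnerProductSpace

/-- the matrix of a radical centre -/
private theorem Sph_mat {d N : ℕ} (p : Fin N → E d) (r : Fin N → ℝ) (a : E d) (c : ℝ)
    (hc : 0 ≤ c) (h : ∀ i, r i ^ 2 = dist (p i) a ^ 2 + c) :
    ∃ G : Matrix (Fin N) (Fin N) ℝ, G.PosSemidef ∧ (∀ i, G i i = r i ^ 2) ∧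
      ∀ i j, 2 * G i j = r i ^ 2 + r j ^ 2 - dist (p i) (p j) ^ 2 := by
  have h1 : (Matrix.gram ℝ fun i => p i - a).PosSemidef := Matrix.posSemidef_gram ℝ _
  have h2 : (Matrix.gram ℝ fun _ : Fin N => (1 : ℝ)).PosSemidef := Matrix.posSemidef_gram ℝ _
  have hval : ∀ i j, (Matrix.gram ℝ (fun i => p i - a) +
      c • Matrix.gram ℝ fun _ : Fin N => (1 : ℝ)) i j = ⟪p i - a, p j - a⟫ + c := by
    intro i j
    simp [Matrix.gram_apply]
  refine ⟨_, h1.add (h2.smul hc), fun i => ?_, fun i j => ?_⟩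
  · rw [hval, real_inner_self_eq_norm_sq, h i, dist_eq_norm]
  · rw [hval, h i, h j, dist_eq_norm, dist_eq_norm, dist_eq_norm]
    have e : p i - p j = (p i - a) - (p j - a) := by abel
    have e2 := norm_sub_sq_real (p i - a) (p j - a)
    rw [← e] at e2
    linarith

theorem tSph (hG : GraStmt) : SphStmt := by
  intro d N p q r a c hd hc hpq hr
  refine hG d N p q r hd fun _ => ?_
  have hsq : ∀ i j, dist (q i) (q j) ^ 2 ≤ dist (p i) (p j) ^ 2 := fun i j =>
    pow_le_pow_left₀ dist_nonneg (hpq i j) 2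
  rcases hr with hr | hr
  · obtain ⟨G, h1, h2, h3⟩ := Sph_mat p r a c hc hr
    refine ⟨G, h1, h2, fun i j => ?_⟩
    have h4 := h3 i j
    have h5 := hsq i j
    constructor <;> linarith
  · obtain ⟨G, h1, h2, h3⟩ := Sph_mat q r a c hc hr
    refine ⟨G, h1, h2, fun i j => ?_⟩
    have h4 := h3 i j
    have h5 := hsq i j
    constructor <;> linarith

end Pool.Agent.Lib.MP_0c1c75_co.TG
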