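import Pool.Agent.Lib.MP_0c1c75_co.TG.SpecC

set_option autoImplicit false

namespace Pool.Agent.Lib.MP_0c1c75_co.TG
open MeasureTheory Set Filter Topology
open scoped RealInnerProductSpace

private lemma Uni_sum {d N : ℕ} (v : Fin N → E d) :
    ∑ i, ∑ j, ‖v i - v j‖ ^ 2 = 2 * N * ∑ i, ‖v i‖ ^ 2 - 2 * ‖∑ i, v i‖ ^ 2 := by
  have h1 : ∀ i j, ‖v i - v j‖ ^ 2 = ‖v i‖ ^ 2 - 2 * ⟪v i, v j⟫ + ‖v j‖ ^ 2 := fun i j =>
    norm_sub_sq_real _ _
  have h2 : ‖∑ i, v i‖ ^ 2 = ∑ i, ∑ j, ⟪v i, v j⟫ := by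
    rw [← real_inner_self_eq_norm_sq, sum_inner]
    simp only [inner_sum]
  simp only [h1, Finset.sum_add_distrib, Finset.sum_sub_distrib, Finset.sum_const,
    Finset.card_univ, Fintype.card_fin, nsmul_eq_mul, ← Finset.mul_sum, h2]
  ring

private lemma Uni_key {d N : ℕ} (p : Fin N → E d) (a : E d) (L r : ℝ)
    (hp : ∀ i j, i ≠ j → L ^ 2 ≤ dist (p i) (p j) ^ 2)
    (ha : ∀ i, dist a (p i) ≤ r) : ((N : ℝ) - 1) * L ^ 2 ≤ 2 * N * r ^ 2 ∨ N = 0 := by
  rcases Nat.eq_zero_or_pos N with hN | hN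
  · exact Or.inr hN
  left
  have hN' : (0 : ℝ) < N := by exact_mod_cast hN
  have hs := Uni_sum (fun i => p i - a)
  have h1 : ∑ i, ∑ j, ‖(p i - a) - (p j - a)‖ ^ 2 ≥ N * ((N : ℝ) - 1) * L ^ 2 := by
    have h2 : ∀ i : Fin N, ((N : ℝ) - 1) * L ^ 2 ≤ ∑ j, ‖(p i - a) - (p j - a)‖ ^ 2 := by
      intro i
      have h3 : ∑ j, (if i = j then (0 : ℝ) else L ^ 2) = ((N : ℝ) - 1) * L ^ 2 := by
        have h4 : ∀ j, (if i = j then (0 : ℝ) else L ^ 2) = L ^ 2 - (if i = j then L ^ 2 else 0) := by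
          intro j
          by_cases hij : i = j <;> simp [hij]
        simp only [h4, Finset.sum_sub_distrib, Finset.sum_const, Finset.card_univ,
          Fintype.card_fin, nsmul_eq_mul, Finset.sum_ite_eq, Finset.mem_univ, if_true]
        ring
      rw [← h3]
      refine Finset.sum_le_sum fun j _ => ?_
      by_cases hij : i = j
      · simp [hij]
      · rw [if_neg hij]
        have := hp i j hij
        rwa [dist_eq_norm, show p i - p j = (p i - a) - (p j - a) by abel] at this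
    calc N * ((N : ℝ) - 1) * L ^ 2 = ∑ _i : Fin N, ((N : ℝ) - 1) * L ^ 2 := by
          simp only [Finset.sum_const, Finset.card_univ, Fintype.card_fin, nsmul_eq_mul]
          ring
      _ ≤ _ := Finset.sum_le_sum fun i _ => h2 i
  have h5 : ∑ i, ‖p i - a‖ ^ 2 ≤ N * r ^ 2 := by
    calc ∑ i, ‖p i - a‖ ^ 2 ≤ ∑ _i : Fin N, r ^ 2 := by
          refine Finset.sum_le_sum fun i _ => ?_
          have := ha i
          rw [dist_comm, dist_eq_norm] at this
          exact pow_le_pow_left₀ (norm_nonneg _) this 2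
      _ = N * r ^ 2 := by
          simp only [Finset.sum_const, Finset.card_univ, Fintype.card_fin, nsmul_eq_mul]
  rw [hs] at h1
  have h6 := sq_nonneg ‖∑ i, (p i - a)‖
  have h7 : (N : ℝ) * (((N : ℝ) - 1) * L ^ 2) ≤ N * (2 * N * r ^ 2) := by nlinarith
  exact le_of_mul_le_mul_left h7 hN'

theorem tUni (hG : GraStmt) : UniStmt := by
  intro d N p q L r hd h
  refine hG d N p q (fun _ => r) hd fun hne => ?_
  obtain ⟨a, ha⟩ := hne
  have ha' : ∀ i, dist a (p i) ≤ r := fun i => Metric.mem_closedBall.1 (mem_iInter.1 ha i)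
  have hL0 : ∀ i j : Fin N, i ≠ j → 0 ≤ L := fun i j hij => dist_nonneg.trans (h i j hij).1
  have hp : ∀ i j, i ≠ j → L ^ 2 ≤ dist (p i) (p j) ^ 2 := fun i j hij =>
    pow_le_pow_left₀ (hL0 i j hij) (h i j hij).2 2
  have hq : ∀ i j, i ≠ j → dist (q i) (q j) ^ 2 ≤ L ^ 2 := fun i j hij =>
    pow_le_pow_left₀ dist_nonneg (h i j hij).1 2
  refine ⟨Matrix.of fun i j => (r ^ 2 - L ^ 2 / 2) + (if i = j then L ^ 2 / 2 else 0), ?_, ?_, ?_⟩
  · refine Matrix.PosSemidef.of_dotProduct_mulVec_nonneg ?_ ?_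
    · ext i j
      simp only [Matrix.conjTranspose_apply, Matrix.of_apply, star_trivial, eq_comm]
    · intro x
      have hx : star x ⬝ᵥ (Matrix.of fun i j : Fin N => (r ^ 2 - L ^ 2 / 2) +
          (if i = j then L ^ 2 / 2 else 0)).mulVec x =
          (r ^ 2 - L ^ 2 / 2) * (∑ i, x i) ^ 2 + L ^ 2 / 2 * ∑ i, x i ^ 2 := by
        have h1 : ∀ i : Fin N, (Matrix.of fun i j : Fin N => (r ^ 2 - L ^ 2 / 2) +
            (if i = j then L ^ 2 / 2 else 0)).mulVec x i =
            (r ^ 2 - L ^ 2 / 2) * (∑ j, x j) + L ^ 2 / 2 * x i := by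
          intro i
          simp only [Matrix.mulVec, dotProduct, Matrix.of_apply, add_mul, Finset.sum_add_distrib,
            ite_mul, zero_mul, Finset.sum_ite_eq, Finset.mem_univ, if_true]
          rw [← Finset.mul_sum]
        have h2 : ∀ i : Fin N, x i * ((r ^ 2 - L ^ 2 / 2) * (∑ j, x j) + L ^ 2 / 2 * x i) =
            ((r ^ 2 - L ^ 2 / 2) * (∑ j, x j)) * x i + L ^ 2 / 2 * x i ^ 2 := fun i => by ring
        simp only [dotProduct, Pi.star_apply, star_trivial, h1, h2, Finset.sum_add_distrib]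
        rw [← Finset.mul_sum, ← Finset.mul_sum]
        ring
      rw [hx]
      have hsq : 0 ≤ ∑ i, x i ^ 2 := Finset.sum_nonneg fun i _ => sq_nonneg _
      by_cases hc : L ^ 2 / 2 ≤ r ^ 2
      · have h1 : 0 ≤ (r ^ 2 - L ^ 2 / 2) * (∑ i, x i) ^ 2 :=
          mul_nonneg (by linarith) (sq_nonneg _)
        have h2 : 0 ≤ L ^ 2 / 2 * ∑ i, x i ^ 2 := by positivity
        linarith
      · push Not at hc
        rcases Uni_key p a L r hp ha' with hk | hk
        · have hcs : (∑ i, x i) ^ 2 ≤ N * ∑ i, x i ^ 2 := by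
            have := sq_sum_le_card_mul_sum_sq (s := (Finset.univ : Finset (Fin N))) (f := x)
            simpa using this
          nlinarith [mul_nonneg (sub_nonneg.2 hk) hsq,
            mul_nonneg (sub_nonneg.2 hcs) (sub_nonneg.2 hc.le)]
        · subst hk
          simp
  · intro i
    simp
  · intro i j
    simp only [Matrix.of_apply]
    by_cases hij : i = j
    · subst hij
      simp only [dist_self, if_true]
      constructor <;> nlinarith
    · rw [if_neg hij]
      constructor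
      · have := hp i j hij
        linarith
      · have := hq i j hij
        linarith

end Pool.Agent.Lib.MP_0c1c75_co.TG
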