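import Pool.Agent.Lib.MP_0c1c75_co.TG.FunA
import Pool.Agent.Lib.MP_0c1c75_co.TG.FunB
import Pool.Agent.Lib.MP_0c1c75_co.TG.FunC
import Pool.Agent.Lib.MP_0c1c75_co.TG.FunD
import Pool.Agent.Lib.MP_0c1c75_co.TG.SoftA
import Pool.Agent.Lib.MP_0c1c75_co.TG.SoftB
import Pool.Agent.Lib.MP_0c1c75_co.TG.Maj
import Pool.Agent.Lib.MP_0c1c75_co.TG.Bnd
import Pool.Agent.Lib.MP_0c1c75_co.TG.Cts
import Pool.Agent.Lib.MP_0c1c75_co.TG.Lnd
import Pool.Agent.Lib.MP_0c1c75_co.TG.Ibp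
import Pool.Agent.Lib.MP_0c1c75_co.TG.Alg
import Pool.Agent.Lib.MP_0c1c75_co.TG.Dth
import Pool.Agent.Lib.MP_0c1c75_co.TG.Der
import Pool.Agent.Lib.MP_0c1c75_co.TG.Sgn
import Pool.Agent.Lib.MP_0c1c75_co.TG.LimL
import Pool.Agent.Lib.MP_0c1c75_co.TG.Mon
import Pool.Agent.Lib.MP_0c1c75_co.TG.LimI
import Pool.Agent.Lib.MP_0c1c75_co.TG.LimZ
import Pool.Agent.Lib.MP_0c1c75_co.TG.MainG
import Pool.Agent.Lib.MP_0c1c75_co.TG.Psd
import Pool.Agent.Lib.MP_0c1c75_co.TG.Gra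
import Pool.Agent.Lib.MP_0c1c75_co.TG.Uni
import Pool.Agent.Lib.MP_0c1c75_co.TG.Sph
import Pool.Agent.Lib.MP_0c1c75_co.TG.Fac
import Pool.Agent.Lib.MP_0c1c75_co.TG.Lrg
import Pool.Agent.Lib.MP_0c1c75_co.TG.Cir

/-!
MP_0c1c75_co, project TG: Theorem G and its corollaries (helper32).
-/

set_option autoImplicit false

open MeasureTheory
open scoped RealInnerProductSpace

namespace Pool.Agent.Lib.MP_0c1c75_co.TG

theorem top_ibp : IbpStmt :=
  tIbp tFunA tFunB tMaj (tBnd tSoftA) tCts (tLnd tFunA tSoftB)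

theorem top_der : DerStmt :=
  tDer top_ibp (tAlg tFunA tSoftA) (tDth tFunA tFunB tSoftB tMaj (tBnd tSoftA) tCts)

theorem top_mon : MonStmt :=
  tMon tFunA tFunB tMaj (tBnd tSoftA) tCts top_der (tSgn tFunA tSoftA)
    (tLimL tFunA tFunB tSoftA tMaj (tBnd tSoftA) tCts)

/-- Theorem G -/
theorem top_g : GStmt :=
  tMainG tFunC top_mon (tLimI tFunA tFunB tMaj tCts)
    (tLimZ tFunA tFunB tFunD tMaj (tBnd tSoftA) tCts)

/-- Theorem G in terms of matrices -/
theorem top_gra : GraStmt := tGra top_g tPsd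

/-- uniform contractions of congruent balls, all `d ≥ 3`, all `N` -/
theorem top_uni : UniStmt := tUni top_gra

/-- common radical centre in the balls of `p`, or in the balls of `q` -/
theorem top_sph : SphStmt := tSph top_gra

/-- congruent balls, factor `sin 1` -/
theorem top_fac : FacStmt := tFac top_gra

/-- congruent balls, centres in a ball of radius `t r`, factor `sin t / t` -/
theorem top_cir : CirStmt := tCir top_gra

/-- congruent balls, explicit large radii -/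
theorem top_lrg : LrgStmt := tLrg top_gra

end Pool.Agent.Lib.MP_0c1c75_co.TG
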